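import Mathlib

set_option autoImplicit false

namespace Pool.Agent.H82.Aont

open Finset

/-! ### Sequences -/

/-- A `±1` sequence with `a (i+n) = - a i`, whose negacyclic correlations at shifts one and two
vanish, does not exist. -/
lemma no_sequence (n : ℕ) (a : ℕ → ℤ) (ha : ∀ i, a i = 1 ∨ a i = -1)
    (hn : ∀ i, a (i + n) = - a i) (h1 : ∑ i ∈ range n, a i * a (i + 1) = 0)
    (h2 : ∑ i ∈ range n, a i * a (i + 2) = 0) : False := by
  -- shifted correlation
  have h1' : ∑ i ∈ range n, a (i + 1) * a (i + 2) = 0 := by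
    have e1 := Finset.sum_range_succ (fun i => a i * a (i + 1)) n
    have e2 := Finset.sum_range_succ' (fun i => a i * a (i + 1)) n
    rw [e2] at e1
    have e3 : a n * a (n + 1) = a 0 * a (0 + 1) := by
      have := hn 0
      have h' := hn 1
      rw [Nat.zero_add] at this
      rw [Nat.add_comm n 1, this, h']
      ring
    rw [e3, h1] at e1
    have e4 : ∑ k ∈ range n, a (k + 1) * a (k + 1 + 1) = 0 := by linarith
    exact e4
  have hsq : ∀ i, a i * a i = 1 := by
    intro i
    rcases ha i with h | h <;> rw [h] <;> norm_num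
  have h4 : (4 : ℤ) ∣ n := by
    have e : ∑ i ∈ range n, (a i + a (i + 1)) * (a i + a (i + 2)) = (n : ℤ) := by
      have : ∀ i ∈ range n, (a i + a (i + 1)) * (a i + a (i + 2)) =
          1 + a i * a (i + 2) + a i * a (i + 1) + a (i + 1) * a (i + 2) := by
        intro i _
        linear_combination hsq i
      rw [Finset.sum_congr rfl this]
      simp only [Finset.sum_add_distrib]
      rw [h1, h2, h1']
      simp
    rw [← e]
    apply Finset.dvd_sum
    intro i _
    rcases ha i with h | h <;> rcases ha (i + 1) with h' | h' <;> rcases ha (i + 2) with h'' | h'' <;>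
      rw [h, h', h''] <;> norm_num
  -- product of consecutive terms
  have hprod : ∀ m : ℕ, ∏ i ∈ range m, (a i * a (i + 1)) = a 0 * a m := by
    intro m
    induction m with
    | zero => simp [hsq]
    | succ k ih =>
      rw [Finset.prod_range_succ, ih]
      linear_combination (a 0 * a (k + 1)) * hsq k
  have hp := hprod n
  have hn0 := hn 0
  rw [Nat.zero_add] at hn0
  rw [hn0] at hp
  have hp' : ∏ i ∈ range n, (a i * a (i + 1)) = -1 := by
    rw [hp]; linear_combination - hsq 0
  -- sign changes
  set c : ℕ → ℕ := fun i => if a i * a (i + 1) = 1 then 0 else 1 with hc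
  have hc1 : ∀ i, a i * a (i + 1) = 1 - 2 * (c i : ℤ) := by
    intro i
    simp only [hc]
    rcases ha i with h | h <;> rcases ha (i + 1) with h' | h' <;> rw [h, h'] <;> norm_num
  have hc2 : ∀ i, a i * a (i + 1) = (-1) ^ (c i) := by
    intro i
    simp only [hc]
    rcases ha i with h | h <;> rcases ha (i + 1) with h' | h' <;> rw [h, h'] <;> norm_num
  have hs : (n : ℤ) = 2 * ∑ i ∈ range n, (c i : ℤ) := by
    have : ∑ i ∈ range n, a i * a (i + 1) = ∑ i ∈ range n, (1 - 2 * (c i : ℤ)) :=
      Finset.sum_congr rfl (fun i _ => hc1 i)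
    rw [h1, Finset.sum_sub_distrib, ← Finset.mul_sum] at this
    simp at this
    linarith
  have hpp : (-1 : ℤ) ^ (∑ i ∈ range n, c i) = -1 := by
    rw [← Finset.prod_pow_eq_pow_sum]
    refine Eq.trans ?_ hp'
    exact Finset.prod_congr rfl (fun i _ => (hc2 i).symm)
  have heven : Even (∑ i ∈ range n, c i) := by
    obtain ⟨k, hk⟩ := h4
    have h5 : (∑ i ∈ range n, (c i : ℤ)) = 2 * k := by linarith
    have h6 : ((∑ i ∈ range n, c i : ℕ) : ℤ) = 2 * k := by
      push_cast; exact h5
    rw [← Int.even_coe_nat, h6]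
    exact even_two_mul k
  rw [heven.neg_one_pow] at hpp
  norm_num at hpp

/-! ### Counting -/

section count
variable {K : Type*} [Field K] [Fintype K] [DecidableEq K]
variable {ι : Type*} [Fintype ι] [DecidableEq ι]

omit [Fintype ι] [DecidableEq ι] in
lemma count_missing (S : Finset ι) (f : ι → Kˣ) (hf : Set.InjOn f (S : Set ι))
    (hS : S.card + 1 = Fintype.card Kˣ) (t : Kˣ) :
    (∑ j ∈ S, if f j = t then (1 : ℤ) else 0) = if t * ∏ j ∈ S, f j = -1 then 0 else 1 := by
  have hE : (S.image f).card + 1 = Fintype.card Kˣ := by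
    rw [Finset.card_image_of_injOn hf, hS]
  have hc : ((S.image f)ᶜ).card = 1 := by
    rw [Finset.card_compl]; omega
  rw [Finset.card_eq_one] at hc
  obtain ⟨ρ, hρ⟩ := hc
  have hprod : (∏ j ∈ S, f j) * ρ = -1 := by
    have h1 := FiniteField.prod_univ_units_id_eq_neg_one (K := K)
    rw [← Finset.prod_mul_prod_compl (S.image f) (fun x => x), hρ, Finset.prod_singleton,
      Finset.prod_image hf] at h1
    exact h1
  have hmem : ∀ t, t ∈ S.image f ↔ t ≠ ρ := by
    intro t
    have : t ∈ (S.image f)ᶜ ↔ t = ρ := by rw [hρ, Finset.mem_singleton]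
    rw [Finset.mem_compl] at this
    tauto
  have hcond : t * ∏ j ∈ S, f j = -1 ↔ t = ρ := by
    rw [← hprod, mul_comm t]
    constructor
    · intro h; exact mul_left_cancel h
    · rintro rfl; rfl
  by_cases ht : t = ρ
  · rw [if_pos (hcond.2 ht)]
    apply Finset.sum_eq_zero
    intro j hj
    rw [if_neg]
    intro h
    exact ((hmem t).1 (by rw [← h]; exact Finset.mem_image_of_mem f hj)) ht
  · rw [if_neg (fun h => ht (hcond.1 h))]
    have hm := (hmem t).2 ht
    rw [Finset.mem_image] at hm
    obtain ⟨j, hj, hjt⟩ := hm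
    rw [Finset.sum_eq_single j]
    · rw [if_pos hjt]
    · intro b hb hbj
      rw [if_neg]
      intro h
      exact hbj (hf hb hj (h.trans hjt.symm))
    · intro h; exact absurd hj h

/-- Sum of indicators with one condition replaced. -/
lemma sum_ind_congr {α : Type*} (S : Finset α) (P Q : α → Prop) [DecidablePred P]
    [DecidablePred Q] (h : ∀ x ∈ S, P x ↔ Q x) :
    (∑ x ∈ S, if P x then (1 : ℤ) else 0) = ∑ x ∈ S, if Q x then (1 : ℤ) else 0 := by
  apply Finset.sum_congr rfl
  intro x hx
  by_cases hP : P x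
  · rw [if_pos hP, if_pos ((h x hx).1 hP)]
  · rw [if_neg hP, if_neg (fun hQ => hP ((h x hx).2 hQ))]

/-- The key structure: in a symmetric array the ratio of two rows misses exactly `-1`. -/
def Miss (V : ι → ι → Kˣ) : Prop :=
  ∀ i l, i ≠ l → ∀ t : Kˣ, (∑ j, if j ≠ i ∧ j ≠ l ∧ V i j = t * V l j then (1 : ℤ) else 0) =
    if t = -1 then 0 else 1

/-- Row counts. -/
def R (V : ι → ι → Kˣ) (i : ι) (g : Kˣ) : ℤ := ∑ j, if j ≠ i ∧ V i j = g then (1 : ℤ) else 0

lemma sum_ne_one (i : ι) : (∑ j : ι, if j ≠ i then (1 : ℤ) else 0) = (Fintype.card ι : ℤ) - 1 := by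
  have : (∑ j : ι, if j ≠ i then (1 : ℤ) else 0) = ∑ j : ι, ((1 : ℤ) - if j = i then 1 else 0) := by
    apply Finset.sum_congr rfl
    intro j _
    by_cases h : j = i <;> simp [h]
  rw [this, Finset.sum_sub_distrib]
  simp

omit [Fintype K] in
lemma R_const (V : ι → ι → Kˣ) (hsymm : ∀ i j, V i j = V j i) (hV : Miss V) (i l : ι) (g : Kˣ) :
    R V i g = R V l g := by
  by_cases hil : i = l
  · rw [hil]
  -- the two-way count
  have hT : (∑ k, ∑ j, if j ≠ i ∧ k ≠ l ∧ j ≠ k ∧ V i j * V k l = (-g) * V j k
      then (1 : ℤ) else 0) =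
      ((Fintype.card ι : ℤ) - 1) * (if V i l = -g then 1 else 0) +
      (∑ k, if k ≠ i ∧ k ≠ l then (1 : ℤ) else 0) - (R V l g - if V i l = g then 1 else 0) := by
    have h1 : ∀ k, (∑ j, if j ≠ i ∧ k ≠ l ∧ j ≠ k ∧ V i j * V k l = (-g) * V j k
      then (1 : ℤ) else 0) = (if k = i then ((Fintype.card ι : ℤ) - 1) * (if V i l = -g then 1 else 0)
        else 0) + (if k ≠ i ∧ k ≠ l then (1 : ℤ) else 0) -
        ((if k ≠ l ∧ V l k = g then (1 : ℤ) else 0) - if k = i then
          (if V i l = g then 1 else 0) else 0) := by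
      intro k
      by_cases hkl : k = l
      · subst hkl
        have : i ≠ k := hil
        simp [Ne.symm hil]
      by_cases hki : k = i
      · subst hki
        have e : (∑ j, if j ≠ k ∧ k ≠ l ∧ j ≠ k ∧ V k j * V k l = (-g) * V j k
            then (1 : ℤ) else 0) = ((Fintype.card ι : ℤ) - 1) * (if V k l = -g then 1 else 0) := by
          by_cases hg : V k l = -g
          · rw [if_pos hg, mul_one, ← sum_ne_one k]
            apply sum_ind_congr
            intro j _
            constructor
            · rintro ⟨h, -⟩; exact h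
            · intro h; exact ⟨h, hil, h, by rw [hg, hsymm k j, mul_comm]⟩
          · rw [if_neg hg, mul_zero]
            apply Finset.sum_eq_zero
            intro j _
            rw [if_neg]
            rintro ⟨-, -, -, h⟩
            rw [hsymm j k, mul_comm] at h
            exact hg (mul_right_cancel h)
        rw [e]
        rw [hsymm l k]
        simp [hil]
      · have e : (∑ j, if j ≠ i ∧ k ≠ l ∧ j ≠ k ∧ V i j * V k l = (-g) * V j k
            then (1 : ℤ) else 0) = (∑ j, if j ≠ i ∧ j ≠ k ∧ V i j = ((-g) * (V k l)⁻¹) * V k j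
              then (1 : ℤ) else 0) := by
          apply sum_ind_congr
          intro j _
          rw [hsymm j k]
          constructor
          · rintro ⟨h1, -, h3, h4⟩
            refine ⟨h1, h3, ?_⟩
            rw [mul_right_comm, eq_mul_inv_iff_mul_eq, h4]
          · rintro ⟨h1, h3, h4⟩
            refine ⟨h1, hkl, h3, ?_⟩
            rw [mul_right_comm, eq_mul_inv_iff_mul_eq] at h4
            exact h4
        rw [e, hV i k (Ne.symm hki)]
        have e2 : ((-g) * (V k l)⁻¹ = -1) ↔ V l k = g := by
          rw [mul_inv_eq_iff_eq_mul, hsymm k l]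
          constructor
          · intro h
            have : -g = - V l k := by rw [h]; simp
            exact (neg_injective this).symm
          · rintro h; rw [h]; simp
        by_cases hg : V l k = g
        · rw [if_pos (e2.2 hg)]
          simp [hki, hkl, hg]
        · rw [if_neg (fun h => hg (e2.1 h))]
          simp [hki, hkl, hg]
    rw [Finset.sum_congr rfl (fun k _ => h1 k)]
    simp only [Finset.sum_add_distrib, Finset.sum_sub_distrib, Finset.sum_ite_eq',
      Finset.mem_univ, if_true, R]
  have hT' : (∑ j, ∑ k, if j ≠ i ∧ k ≠ l ∧ j ≠ k ∧ V i j * V k l = (-g) * V j k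
      then (1 : ℤ) else 0) =
      ((Fintype.card ι : ℤ) - 1) * (if V i l = -g then 1 else 0) +
      (∑ j, if j ≠ i ∧ j ≠ l then (1 : ℤ) else 0) - (R V i g - if V i l = g then 1 else 0) := by
    have h1 : ∀ j, (∑ k, if j ≠ i ∧ k ≠ l ∧ j ≠ k ∧ V i j * V k l = (-g) * V j k
      then (1 : ℤ) else 0) = (if j = l then ((Fintype.card ι : ℤ) - 1) * (if V i l = -g then 1 else 0)
        else 0) + (if j ≠ i ∧ j ≠ l then (1 : ℤ) else 0) -
        ((if j ≠ i ∧ V i j = g then (1 : ℤ) else 0) - if j = l then
          (if V i l = g then 1 else 0) else 0) := by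
      intro j
      by_cases hji : j = i
      · subst hji
        simp [hil]
      by_cases hjl : j = l
      · subst hjl
        have e : (∑ k, if j ≠ i ∧ k ≠ j ∧ j ≠ k ∧ V i j * V k j = (-g) * V j k
            then (1 : ℤ) else 0) = ((Fintype.card ι : ℤ) - 1) * (if V i j = -g then 1 else 0) := by
          by_cases hg : V i j = -g
          · rw [if_pos hg, mul_one, ← sum_ne_one j]
            apply sum_ind_congr
            intro k _
            constructor
            · rintro ⟨-, h, -⟩; exact h
            · intro h; exact ⟨hji, h, h.symm, by rw [hg, hsymm k j]⟩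
          · rw [if_neg hg, mul_zero]
            apply Finset.sum_eq_zero
            intro k _
            rw [if_neg]
            rintro ⟨-, -, -, h⟩
            rw [hsymm j k] at h
            exact hg (mul_right_cancel h)
        rw [e]
        simp [hji]
      · have e : (∑ k, if j ≠ i ∧ k ≠ l ∧ j ≠ k ∧ V i j * V k l = (-g) * V j k
            then (1 : ℤ) else 0) = (∑ k, if k ≠ l ∧ k ≠ j ∧ V l k = ((-g) * (V i j)⁻¹) * V j k
              then (1 : ℤ) else 0) := by
          apply sum_ind_congr
          intro k _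
          rw [hsymm k l]
          constructor
          · rintro ⟨-, h2, h3, h4⟩
            refine ⟨h2, h3.symm, ?_⟩
            rw [mul_right_comm, eq_mul_inv_iff_mul_eq, ← h4, mul_comm]
          · rintro ⟨h1, h3, h4⟩
            refine ⟨hji, h1, h3.symm, ?_⟩
            rw [mul_right_comm, eq_mul_inv_iff_mul_eq] at h4
            rw [mul_comm, h4]
        rw [e, hV l j (Ne.symm hjl)]
        have e2 : ((-g) * (V i j)⁻¹ = -1) ↔ V i j = g := by
          rw [mul_inv_eq_iff_eq_mul]
          constructor
          · intro h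
            have : -g = - V i j := by rw [h]; simp
            exact (neg_injective this).symm
          · rintro h; rw [h]; simp
        by_cases hg : V i j = g
        · rw [if_pos (e2.2 hg)]
          simp [hji, hjl, hg]
        · rw [if_neg (fun h => hg (e2.1 h))]
          simp [hji, hjl, hg]
    rw [Finset.sum_congr rfl (fun k _ => h1 k)]
    simp only [Finset.sum_add_distrib, Finset.sum_sub_distrib, Finset.sum_ite_eq',
      Finset.mem_univ, if_true, R]
  rw [Finset.sum_comm, hT] at hT'
  linarith

lemma R_sum (V : ι → ι → Kˣ) (i : ι) : ∑ g : Kˣ, R V i g = (Fintype.card ι : ℤ) - 1 := by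
  unfold R
  rw [Finset.sum_comm, ← sum_ne_one i]
  apply Finset.sum_congr rfl
  intro j _
  by_cases h : j ≠ i
  · simp [h]
  · simp [h]

lemma R_corr (V : ι → ι → Kˣ) (hsymm : ∀ i j, V i j = V j i) (hV : Miss V) (i : ι) (t : Kˣ) :
    ∑ g : Kˣ, R V i g * R V i (t * g) = ((Fintype.card ι : ℤ) - 1) * (if t = 1 then 1 else 0) +
      ((Fintype.card ι : ℤ) - 1) * (if t = -1 then 0 else 1) := by
  have e1 : ∑ g : Kˣ, R V i g * R V i (t * g) = ∑ j, if j ≠ i then R V i (t * V i j) else 0 := by
    have : ∀ g : Kˣ, R V i g * R V i (t * g) =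
        ∑ j, if j ≠ i ∧ V i j = g then R V i (t * g) else 0 := by
      intro g
      conv_lhs => rw [R]
      rw [Finset.sum_mul]
      apply Finset.sum_congr rfl
      intro j _
      by_cases h : j ≠ i ∧ V i j = g
      · rw [if_pos h, if_pos h, one_mul]
      · rw [if_neg h, if_neg h, zero_mul]
    rw [Finset.sum_congr rfl (fun g _ => this g), Finset.sum_comm]
    apply Finset.sum_congr rfl
    intro j _
    by_cases h : j ≠ i
    · simp [h]
    · simp [h]
  have e2 : ∀ j, (if j ≠ i then R V i (t * V i j) else 0) =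
      ∑ k, if j ≠ i ∧ k ≠ j ∧ V j k = t * V i j then (1 : ℤ) else 0 := by
    intro j
    by_cases h : j ≠ i
    · rw [if_pos h, R_const V hsymm hV i j, R]
      apply sum_ind_congr
      intro k _
      simp [h]
    · simp [h]
  rw [e1, Finset.sum_congr rfl (fun j _ => e2 j), Finset.sum_comm]
  have e3 : ∀ k, (∑ j, if j ≠ i ∧ k ≠ j ∧ V j k = t * V i j then (1 : ℤ) else 0) =
      (if k = i then ((Fintype.card ι : ℤ) - 1) * (if t = 1 then 1 else 0) else 0) +
      (if k ≠ i then 1 else 0) * (if t = -1 then 0 else 1) := by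
    intro k
    by_cases hk : k = i
    · subst hk
      by_cases ht : t = 1
      · subst ht
        have : (∑ j, if j ≠ k ∧ k ≠ j ∧ V j k = 1 * V k j then (1 : ℤ) else 0) =
            ∑ j, if j ≠ k then (1 : ℤ) else 0 := by
          apply sum_ind_congr
          intro j _
          constructor
          · rintro ⟨h, -⟩; exact h
          · intro h; exact ⟨h, h.symm, by rw [one_mul, hsymm]⟩
        rw [this, sum_ne_one]
        simp
      · have : (∑ j, if j ≠ k ∧ k ≠ j ∧ V j k = t * V k j then (1 : ℤ) else 0) = 0 := by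
          apply Finset.sum_eq_zero
          intro j _
          rw [if_neg]
          rintro ⟨-, -, h⟩
          rw [hsymm j k] at h
          exact ht (right_eq_mul.1 h)
        rw [this]
        simp [ht]
    · have : (∑ j, if j ≠ i ∧ k ≠ j ∧ V j k = t * V i j then (1 : ℤ) else 0) =
          ∑ j, if j ≠ k ∧ j ≠ i ∧ V k j = t * V i j then (1 : ℤ) else 0 := by
        apply sum_ind_congr
        intro j _
        rw [hsymm j k]
        constructor
        · rintro ⟨h1, h2, h3⟩; exact ⟨h2.symm, h1, h3⟩
        · rintro ⟨h1, h2, h3⟩; exact ⟨h2, h1.symm, h3⟩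
      rw [this, hV k i hk t]
      simp [hk]
  rw [Finset.sum_congr rfl (fun k _ => e3 k), Finset.sum_add_distrib, ← Finset.sum_mul,
    sum_ne_one]
  simp

/-- No symmetric array whose row ratios miss exactly `-1` exists when `q > 5` is odd. -/
theorem no_miss (V : ι → ι → Kˣ) (hsymm : ∀ i j, V i j = V j i) (hV : Miss V)
    (hcard : Fintype.card ι = Fintype.card K) (hchar : (1 : Kˣ) ≠ -1)
    (h5 : 5 < Fintype.card K) : False := by
  obtain ⟨i⟩ : Nonempty ι := by
    rw [← Fintype.card_pos_iff]; omega
  have hcu : (Fintype.card Kˣ : ℤ) = (Fintype.card ι : ℤ) - 1 := by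
    rw [Fintype.card_units, hcard]
    have : 1 ≤ Fintype.card K := by omega
    push_cast [Nat.cast_sub this]
    ring
  set r : Kˣ → ℤ := R V i with hr
  have hr0 : ∀ g, 0 ≤ r g := by
    intro g
    simp only [hr, R]
    apply Finset.sum_nonneg
    intro j _
    split_ifs <;> norm_num
  have hsum : ∑ g, r g = (Fintype.card ι : ℤ) - 1 := R_sum V i
  have hcorr := R_corr V hsymm hV i
  have hsumt : ∀ t : Kˣ, ∑ g, r (t * g) = (Fintype.card ι : ℤ) - 1 := by
    intro t
    rw [← hsum]
    exact Equiv.sum_comp (Equiv.mulLeft t) r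
  have hsq : ∑ g, r g * r g = 2 * ((Fintype.card ι : ℤ) - 1) := by
    have := hcorr 1
    simp only [one_mul, if_true] at this
    rw [if_neg hchar] at this
    rw [this]; ring
  have hsqn : ∑ g, r (-g) * r (-g) = 2 * ((Fintype.card ι : ℤ) - 1) := by
    rw [← hsq]
    exact Equiv.sum_comp (Equiv.neg Kˣ) (fun g => r g * r g)
  have hsumn : ∑ g, r (-g) = (Fintype.card ι : ℤ) - 1 := by
    rw [← hsum]
    exact Equiv.sum_comp (Equiv.neg Kˣ) r
  have hneg : ∑ g, r g * r (-g) = 0 := by
    have := hcorr (-1)
    simp only [if_true, neg_mul, one_mul] at this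
    rw [if_neg (Ne.symm hchar)] at this
    rw [this]; ring
  have hneg0 : ∀ g, r g * r (-g) = 0 := by
    intro g
    have := (Finset.sum_eq_zero_iff_of_nonneg (fun g _ => mul_nonneg (hr0 g) (hr0 (-g)))).1 hneg
    exact this g (Finset.mem_univ g)
  have htwo : ∀ g, r g + r (-g) = 2 := by
    have hz : ∑ g, (r g + r (-g) - 2) ^ 2 = 0 := by
      have : ∀ g, (r g + r (-g) - 2) ^ 2 = r g * r g + r (-g) * r (-g) + 2 * (r g * r (-g)) -
          4 * r g - 4 * r (-g) + 4 := by intro g; ring
      rw [Finset.sum_congr rfl (fun g _ => this g)]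
      rw [Finset.sum_add_distrib, Finset.sum_sub_distrib, Finset.sum_sub_distrib,
        Finset.sum_add_distrib, Finset.sum_add_distrib, ← Finset.mul_sum, ← Finset.mul_sum,
        ← Finset.mul_sum, hsq, hsqn, hneg, hsum, hsumn]
      simp only [Finset.sum_const, Finset.card_univ, nsmul_eq_mul]
      rw [hcu]
      ring
    intro g
    have := (Finset.sum_eq_zero_iff_of_nonneg (fun g _ => sq_nonneg (r g + r (-g) - 2))).1 hz g
      (Finset.mem_univ g)
    have := pow_eq_zero_iff (two_ne_zero) |>.1 this
    linarith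
  -- signs
  set ε : Kˣ → ℤ := fun g => r g - 1 with hε
  have hε1 : ∀ g, ε g = 1 ∨ ε g = -1 := by
    intro g
    simp only [hε]
    rcases mul_eq_zero.1 (hneg0 g) with h | h
    · right; rw [h]; norm_num
    · left
      have := htwo g
      rw [h] at this
      linarith
  have hεn : ∀ g, ε (-g) = - ε g := by
    intro g
    simp only [hε]
    have := htwo g
    linarith
  have hεc : ∀ t : Kˣ, t ≠ 1 → t ≠ -1 → ∑ g, ε g * ε (t * g) = 0 := by
    intro t h1 h2
    have h3 := hcorr t
    rw [if_neg h1, if_neg h2] at h3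
    have : ∀ g, ε g * ε (t * g) = r g * r (t * g) - r g - r (t * g) + 1 := by
      intro g; simp only [hε]; ring
    rw [Finset.sum_congr rfl (fun g _ => this g), Finset.sum_add_distrib,
      Finset.sum_sub_distrib, Finset.sum_sub_distrib, h3, hsum, hsumt t]
    simp only [Finset.sum_const, Finset.card_univ, nsmul_eq_mul]
    rw [hcu]
    ring
  -- generator
  obtain ⟨γ, hγ⟩ := IsCyclic.exists_generator (α := Kˣ)
  have hord : orderOf γ = Fintype.card Kˣ := orderOf_eq_card_of_forall_mem_zpowers hγ |>.trans
    (Nat.card_eq_fintype_card)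
  set N := orderOf γ with hN
  have himg : Finset.image (fun i => γ ^ i) (range N) = univ := by
    rw [hN]; exact IsCyclic.image_range_orderOf hγ
  have hNpos : 4 < N := by
    rw [hord, Fintype.card_units]; omega
  have hinj : ∀ x < N, ∀ y < N, γ ^ x = γ ^ y → x = y := by
    intro x hx y hy h
    exact pow_injOn_Iio_orderOf hx hy h
  obtain ⟨m, hm, hmN⟩ : ∃ m, m < N ∧ γ ^ m = -1 := by
    have : (-1 : Kˣ) ∈ Finset.image (fun i => γ ^ i) (range N) := by rw [himg]; simp
    rw [Finset.mem_image] at this
    obtain ⟨m, h1, h2⟩ := this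
    exact ⟨m, Finset.mem_range.1 h1, h2⟩
  have hm0 : m ≠ 0 := by
    rintro rfl
    rw [pow_zero] at hmN
    exact hchar hmN
  have h2m : N = 2 * m := by
    have h1 : γ ^ (2 * m) = 1 := by
      rw [mul_comm, pow_mul, hmN]; simp
    have h2 : N ∣ 2 * m := orderOf_dvd_of_pow_eq_one h1
    obtain ⟨k, hk⟩ := h2
    have hk1 : k = 1 := by
      have hk0 : k ≠ 0 := by rintro rfl; omega
      have hk2 : k < 2 := by
        by_contra hcon
        push Not at hcon
        have : N * 2 ≤ N * k := Nat.mul_le_mul_left N hcon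
        omega
      omega
    rw [hk1, mul_one] at hk
    exact hk.symm
  have hsumγ : ∀ f : Kˣ → ℤ, (∀ g, f (-g) = f g) → ∑ g, f g = 2 * ∑ i ∈ range m, f (γ ^ i) := by
    intro f hf
    have h1 : ∑ g, f g = ∑ i ∈ range N, f (γ ^ i) := by
      rw [← himg, Finset.sum_image]
      intro x hx y hy h
      exact hinj x (Finset.mem_range.1 hx) y (Finset.mem_range.1 hy) h
    rw [h1, h2m, two_mul m, Finset.sum_range_add]
    have h2 : ∀ x ∈ range m, f (γ ^ (m + x)) = f (γ ^ x) := by
      intro x _
      rw [pow_add, hmN, neg_one_mul, hf]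
    rw [Finset.sum_congr rfl h2]
    ring
  have hγ1 : γ ≠ 1 := by
    intro h
    have := hinj 1 (by omega) 0 (by omega) (by rw [h]; simp)
    omega
  have hγm1 : γ ≠ -1 := by
    intro h
    have := hinj 1 (by omega) m hm (by rw [hmN, pow_one, h])
    omega
  have hγ2 : γ ^ 2 ≠ 1 := by
    intro h
    have := hinj 2 (by omega) 0 (by omega) (by rw [h]; simp)
    omega
  have hγ2m : γ ^ 2 ≠ -1 := by
    intro h
    have := hinj 2 (by omega) m hm (by rw [hmN, h])
    omega
  apply no_sequence m (fun i => ε (γ ^ i)) (fun i => hε1 _)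
  · intro i
    show ε (γ ^ (i + m)) = - ε (γ ^ i)
    rw [pow_add, hmN, mul_neg_one, hεn]
  · have h1 := hεc γ hγ1 hγm1
    rw [hsumγ (fun g => ε g * ε (γ * g)) (by intro g; simp only [mul_neg, hεn]; ring)] at h1
    have h2 : ∀ i ∈ range m, ε (γ ^ i) * ε (γ * γ ^ i) = ε (γ ^ i) * ε (γ ^ (i + 1)) := by
      intro i _
      rw [pow_succ']
    rw [Finset.sum_congr rfl h2] at h1
    linarith
  · have h1 := hεc (γ ^ 2) hγ2 hγ2m
    rw [hsumγ (fun g => ε g * ε (γ ^ 2 * g)) (by intro g; simp only [mul_neg, hεn]; ring)] at h1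
    have h2 : ∀ i ∈ range m, ε (γ ^ i) * ε (γ ^ 2 * γ ^ i) = ε (γ ^ i) * ε (γ ^ (i + 2)) := by
      intro i _
      rw [← pow_add, add_comm 2 i]
    rw [Finset.sum_congr rfl h2] at h1
    linarith

/-- A symmetric `q × q` array over a field of odd order `q > 5`, with zero diagonal, nonzero
off-diagonal entries and nonzero `2 × 2` minors does not exist. -/
theorem no_zero_diagonal (M : ι → ι → K) (hsymm : ∀ i j, M i j = M j i)
    (hoff : ∀ i j, i ≠ j → M i j ≠ 0)
    (hmin : ∀ i i' j j', i ≠ i' → j ≠ j' → M i j * M i' j' ≠ M i j' * M i' j)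
    (hcard : Fintype.card ι = Fintype.card K) (hchar : (1 : Kˣ) ≠ -1)
    (h5 : 5 < Fintype.card K) : False := by
  set U : ι → ι → Kˣ := fun i j => if h : M i j = 0 then 1 else Units.mk0 (M i j) h with hU
  have hUM : ∀ i j, i ≠ j → ((U i j : Kˣ) : K) = M i j := by
    intro i j hij
    simp only [hU, dif_neg (hoff i j hij), Units.val_mk0]
  have hUsymm : ∀ i j, U i j = U j i := by
    intro i j
    by_cases hij : i = j
    · rw [hij]
    · apply Units.ext
      rw [hUM i j hij, hUM j i (Ne.symm hij), hsymm]
  set P : ι → Kˣ := fun i => ∏ j ∈ univ.erase i, U i j with hP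
  apply no_miss (fun i j => P i * P j * U i j) ?_ ?_ hcard hchar h5
  · intro i j
    show P i * P j * U i j = P j * P i * U j i
    rw [hUsymm i j, mul_comm (P i)]
  · intro i l hil t
    show (∑ j, if j ≠ i ∧ j ≠ l ∧ P i * P j * U i j = t * (P l * P j * U l j) then (1 : ℤ) else 0)
      = if t = -1 then 0 else 1
    set S : Finset ι := (univ.erase i).erase l with hS
    have hSmem : ∀ j, j ∈ S ↔ j ≠ i ∧ j ≠ l := by
      intro j; simp only [hS, Finset.mem_erase, Finset.mem_univ, and_true]; tauto
    have hl : l ∈ univ.erase i := by simp [Ne.symm hil]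
    have hi : i ∈ univ.erase l := by simp [hil]
    have hScard : S.card + 1 = Fintype.card Kˣ := by
      have h1 : S.card = Fintype.card ι - 1 - 1 := by
        rw [hS, Finset.card_erase_of_mem hl, Finset.card_erase_of_mem (Finset.mem_univ i),
          Finset.card_univ]
      rw [h1, Fintype.card_units, hcard]
      omega
    have hinj : Set.InjOn (fun j => U i j * (U l j)⁻¹) (S : Set ι) := by
      intro j hj j' hj' h
      rw [Finset.mem_coe, hSmem] at hj hj'
      by_contra hne
      simp only at h
      have h2 : U i j * U l j' = U i j' * U l j := by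
        rw [mul_inv_eq_iff_eq_mul, mul_right_comm, eq_mul_inv_iff_mul_eq] at h
        exact h
      have h3 := congrArg (fun u : Kˣ => (u : K)) h2
      simp only [Units.val_mul] at h3
      rw [hUM i j hj.1.symm, hUM l j' hj'.2.symm, hUM i j' hj'.1.symm, hUM l j hj.2.symm] at h3
      exact hmin i l j j' hil hne h3
    have hprod : ∏ j ∈ S, (U i j * (U l j)⁻¹) = P i * (P l)⁻¹ := by
      rw [Finset.prod_mul_distrib, Finset.prod_inv_distrib]
      have h1 : P i = U i l * ∏ j ∈ S, U i j := by
        simp only [hP]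
        rw [← Finset.mul_prod_erase _ _ hl]
      have h2 : P l = U l i * ∏ j ∈ S, U l j := by
        simp only [hP]
        rw [← Finset.mul_prod_erase _ _ hi, hS, Finset.erase_right_comm]
      rw [h1, h2, hUsymm i l, mul_inv, mul_mul_mul_comm, mul_inv_cancel, one_mul]
    have hcount := count_missing S (fun j => U i j * (U l j)⁻¹) hinj hScard (t * P l * (P i)⁻¹)
    rw [hprod] at hcount
    have h1 : t * P l * (P i)⁻¹ * (P i * (P l)⁻¹) = t := by group
    rw [h1] at hcount
    rw [← hcount]
    have h2 : (∑ j, if j ≠ i ∧ j ≠ l ∧ P i * P j * U i j = t * (P l * P j * U l j)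
        then (1 : ℤ) else 0) = ∑ j ∈ S, if P i * P j * U i j = t * (P l * P j * U l j)
        then (1 : ℤ) else 0 := by
      have h3 : S = univ.filter (fun j => j ≠ i ∧ j ≠ l) := by
        ext j; rw [hSmem]; simp
      rw [h3, Finset.sum_filter]
      apply Finset.sum_congr rfl
      intro j _
      by_cases hj : j ≠ i ∧ j ≠ l
      · simp [hj]
      · rw [if_neg hj, if_neg]
        rintro ⟨a, b, -⟩
        exact hj ⟨a, b⟩
    rw [h2]
    apply sum_ind_congr
    intro j _
    constructor
    · intro h
      have h3 : P i * U i j = t * P l * U l j := by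
        have : P j * (P i * U i j) = P j * (t * P l * U l j) := by
          calc P j * (P i * U i j) = P i * P j * U i j := by
                rw [mul_comm (P i) (P j), mul_assoc]
            _ = t * (P l * P j * U l j) := h
            _ = P j * (t * P l * U l j) := by
                rw [mul_comm (P l) (P j), mul_assoc, mul_left_comm, mul_assoc]
        exact mul_left_cancel this
      rw [mul_inv_eq_iff_eq_mul, mul_right_comm, eq_mul_inv_iff_mul_eq, mul_comm, h3]
    · intro h
      rw [mul_inv_eq_iff_eq_mul, mul_right_comm, eq_mul_inv_iff_mul_eq, mul_comm] at h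
      calc P i * P j * U i j = P j * (P i * U i j) := by
            rw [mul_comm (P i) (P j), mul_assoc]
        _ = P j * (t * P l * U l j) := by rw [h]
        _ = t * (P l * P j * U l j) := by
            rw [mul_comm (P l) (P j), mul_assoc (P j), mul_left_comm t, mul_assoc t]

/-- The case of a nonzero last diagonal entry. -/
theorem no_nonzero_corner (M : ι → ι → K) (hsymm : ∀ i j, M i j = M j i) (o w : ι) (how : o ≠ w)
    (ho : ∀ j, j ≠ o → M o j = 1) (hw : M w w ≠ 0)
    (hoff : ∀ i j, i ≠ j → M i j ≠ 0)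
    (hmin : ∀ i i' j j', i ≠ i' → j ≠ j' → M i j * M i' j' ≠ M i j' * M i' j)
    (hcard : Fintype.card ι = Fintype.card K)
    (h5 : 3 < Fintype.card K) (hodd : Odd (Fintype.card K)) : False := by
  set U : ι → ι → Kˣ := fun i j => if h : M i j = 0 then 1 else Units.mk0 (M i j) h with hU
  have hUM : ∀ i j, i ≠ j → ((U i j : Kˣ) : K) = M i j := by
    intro i j hij
    simp only [hU, dif_neg (hoff i j hij), Units.val_mk0]
  have hUw : ∀ j, ((U w j : Kˣ) : K) = M w j := by
    intro j
    by_cases hj : w = j
    · subst hj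
      simp only [hU, dif_neg hw, Units.val_mk0]
    · exact hUM w j hj
  have hUo : ∀ j, j ≠ o → U j o = 1 := by
    intro j hj
    apply Units.ext
    rw [hUM j o hj, hsymm, ho j hj]; simp
  have hUsymm : ∀ i j, U i j = U j i := by
    intro i j
    by_cases hij : i = j
    · rw [hij]
    · apply Units.ext
      rw [hUM i j hij, hUM j i (Ne.symm hij), hsymm]
  -- row w
  have hinjw : Set.InjOn (fun j => U w j) ((univ.erase o : Finset ι) : Set ι) := by
    intro j hj j' hj' h
    rw [Finset.mem_coe, Finset.mem_erase] at hj hj'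
    by_contra hne
    have h3 := congrArg (fun u : Kˣ => (u : K)) h
    simp only [hUw] at h3
    apply hmin o w j j' how hne
    rw [ho j hj.1, ho j' hj'.1, one_mul, one_mul, h3]
  have hcardo : (univ.erase o : Finset ι).card = Fintype.card Kˣ := by
    rw [Finset.card_erase_of_mem (Finset.mem_univ o), Finset.card_univ, hcard,
      Fintype.card_units]
  have himgw : (univ.erase o : Finset ι).image (fun j => U w j) = univ := by
    apply Finset.eq_univ_of_card
    rw [Finset.card_image_of_injOn hinjw, hcardo]
  have hprodw : ∏ j ∈ univ.erase o, U w j = -1 := by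
    rw [← FiniteField.prod_univ_units_id_eq_neg_one (K := K), ← himgw,
      Finset.prod_image hinjw]
  have hcountw : ∀ t : Kˣ, (∑ j ∈ univ.erase o, if U w j = t then (1 : ℤ) else 0) = 1 := by
    intro t
    have ht : t ∈ (univ.erase o : Finset ι).image (fun j => U w j) := by rw [himgw]; simp
    rw [Finset.mem_image] at ht
    obtain ⟨j, hj, hjt⟩ := ht
    rw [Finset.sum_eq_single j]
    · rw [if_pos hjt]
    · intro b hb hbj
      rw [if_neg]
      intro h
      exact hbj (hinjw hb hj (h.trans hjt.symm))
    · intro h; exact absurd hj h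
  -- other rows
  have hrow : ∀ i, i ≠ o → i ≠ w → ∀ t : Kˣ,
      (∑ j ∈ (univ.erase o).erase i, if U i j = t then (1 : ℤ) else 0) =
      if U w i = - t then 0 else 1 := by
    intro i hio hiw t
    have hiw' : w ≠ i := Ne.symm hiw
    have hi : i ∈ univ.erase o := by simp [hio]
    have ho' : o ∈ univ.erase i := by simp [Ne.symm hio]
    have hcardi : ((univ.erase o).erase i : Finset ι).card + 1 = Fintype.card Kˣ := by
      rw [Finset.card_erase_of_mem hi, hcardo]
      have : 0 < Fintype.card Kˣ := Fintype.card_pos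
      omega
    have hinji : Set.InjOn (fun j => U i j) (((univ.erase o).erase i : Finset ι) : Set ι) := by
      intro j hj j' hj' h
      rw [Finset.mem_coe, Finset.mem_erase, Finset.mem_erase] at hj hj'
      by_contra hne
      have h3 := congrArg (fun u : Kˣ => (u : K)) h
      simp only [hUM i j hj.1.symm, hUM i j' hj'.1.symm] at h3
      apply hmin o i j j' (Ne.symm hio) hne
      rw [ho j hj.2.1, ho j' hj'.2.1, one_mul, one_mul, h3]
    rw [count_missing _ _ hinji hcardi t]
    -- product of the row
    have hinjr : Set.InjOn (fun j => U i j * (U w j)⁻¹) ((univ.erase i : Finset ι) : Set ι) := by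
      intro j hj j' hj' h
      rw [Finset.mem_coe, Finset.mem_erase] at hj hj'
      by_contra hne
      simp only at h
      have h2 : U i j * U w j' = U i j' * U w j := by
        rw [mul_inv_eq_iff_eq_mul, mul_right_comm, eq_mul_inv_iff_mul_eq] at h
        exact h
      have h3 := congrArg (fun u : Kˣ => (u : K)) h2
      simp only [Units.val_mul] at h3
      rw [hUM i j hj.1.symm, hUw, hUM i j' hj'.1.symm, hUw] at h3
      exact hmin i w j j' hiw hne h3
    have himgr : (univ.erase i : Finset ι).image (fun j => U i j * (U w j)⁻¹) = univ := by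
      apply Finset.eq_univ_of_card
      rw [Finset.card_image_of_injOn hinjr, Finset.card_erase_of_mem (Finset.mem_univ i),
        Finset.card_univ, hcard, Fintype.card_units]
    have hprodr : ∏ j ∈ univ.erase i, (U i j * (U w j)⁻¹) = -1 := by
      rw [← FiniteField.prod_univ_units_id_eq_neg_one (K := K), ← himgr,
        Finset.prod_image hinjr]
    rw [Finset.prod_mul_distrib, Finset.prod_inv_distrib] at hprodr
    have e1 : ∏ j ∈ univ.erase i, U i j = ∏ j ∈ (univ.erase o).erase i, U i j := by
      rw [← Finset.mul_prod_erase _ _ ho', hUo i hio, one_mul, Finset.erase_right_comm]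
    have e2 : (∏ j ∈ univ.erase i, U w j) * U w i = -1 := by
      rw [mul_comm, Finset.mul_prod_erase univ (fun j => U w j) (Finset.mem_univ i),
        ← Finset.mul_prod_erase univ (fun j => U w j) (Finset.mem_univ o), hprodw,
        hUo w (Ne.symm how), one_mul]
    rw [e1] at hprodr
    have e3 : (∏ j ∈ (univ.erase o).erase i, U i j) * U w i = 1 := by
      rw [mul_inv_eq_iff_eq_mul] at hprodr
      rw [hprodr, mul_assoc, e2]; simp
    have e4 : (∏ j ∈ (univ.erase o).erase i, U i j) = (U w i)⁻¹ := eq_inv_of_mul_eq_one_left e3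
    rw [e4]
    have e5 : t * (U w i)⁻¹ = -1 ↔ U w i = -t := by
      rw [mul_inv_eq_iff_eq_mul]
      constructor
      · intro h; rw [h]; simp
      · intro h; rw [h]; simp
    by_cases h : U w i = -t
    · rw [if_pos h, if_pos (e5.2 h)]
    · rw [if_neg h, if_neg (fun h' => h (e5.1 h'))]
  -- choose the value
  obtain ⟨v, hv⟩ : ∃ v : Kˣ, v ∉ ({U w w, - U w w} : Finset Kˣ) := by
    by_contra hcon
    push Not at hcon
    have h1 : (univ : Finset Kˣ) ⊆ {U w w, - U w w} := fun v _ => hcon v
    have h2 := Finset.card_le_card h1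
    rw [Finset.card_univ, Fintype.card_units] at h2
    have h3 := Finset.card_le_two (a := U w w) (b := - U w w)
    obtain ⟨k, hk⟩ := hodd
    omega
  simp only [Finset.mem_insert, Finset.mem_singleton, not_or] at hv
  obtain ⟨hv1, hv2⟩ := hv
  -- total count
  have htot : (∑ i ∈ univ.erase o, ∑ j ∈ univ.erase o, if i ≠ j ∧ U i j = v then (1 : ℤ) else 0) =
      (Fintype.card K : ℤ) - 2 := by
    have hwo : w ∈ univ.erase o := by simp [Ne.symm how]
    rw [← Finset.add_sum_erase _ _ hwo]
    have f1 : (∑ j ∈ univ.erase o, if w ≠ j ∧ U w j = v then (1 : ℤ) else 0) = 1 := by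
      refine Eq.trans ?_ (hcountw v)
      apply sum_ind_congr
      intro j _
      constructor
      · rintro ⟨-, h⟩; exact h
      · intro h
        refine ⟨?_, h⟩
        rintro rfl
        exact hv1 h.symm
    have f2 : ∀ i ∈ (univ.erase o).erase w,
        (∑ j ∈ univ.erase o, if i ≠ j ∧ U i j = v then (1 : ℤ) else 0) =
        1 - if U w i = -v then 1 else 0 := by
      intro i hi
      rw [Finset.mem_erase, Finset.mem_erase] at hi
      have hi' : i ∈ univ.erase o := by simp [hi.2.1]
      rw [← Finset.add_sum_erase _ _ hi']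
      have : (∑ j ∈ (univ.erase o).erase i, if i ≠ j ∧ U i j = v then (1 : ℤ) else 0) =
          ∑ j ∈ (univ.erase o).erase i, if U i j = v then (1 : ℤ) else 0 := by
        apply sum_ind_congr
        intro j hj
        rw [Finset.mem_erase] at hj
        constructor
        · rintro ⟨-, h⟩; exact h
        · intro h; exact ⟨hj.1.symm, h⟩
      rw [this, hrow i hi.2.1 hi.1 v]
      by_cases h : U w i = -v
      · simp [h]
      · simp [h]
    rw [f1, Finset.sum_congr rfl f2, Finset.sum_sub_distrib]
    have f3 : (∑ i ∈ (univ.erase o).erase w, if U w i = -v then (1 : ℤ) else 0) = 1 := by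
      have := hcountw (-v)
      rw [← Finset.add_sum_erase _ _ hwo, if_neg, zero_add] at this
      · exact this
      · intro h
        apply hv2
        rw [h, neg_neg]
    rw [f3]
    simp only [Finset.sum_const, nsmul_eq_mul, mul_one]
    rw [Finset.card_erase_of_mem hwo, Finset.card_erase_of_mem (Finset.mem_univ o),
      Finset.card_univ, hcard]
    have : 2 ≤ Fintype.card K := by omega
    have h' : Fintype.card K - 1 - 1 = Fintype.card K - 2 := by omega
    rw [h', Nat.cast_sub this]
    push_cast
    ring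
  -- parity
  have hpar : ((∑ i ∈ univ.erase o, ∑ j ∈ univ.erase o,
      if i ≠ j ∧ U i j = v then (1 : ℤ) else 0 : ℤ) : ZMod 2) = 0 := by
    push_cast
    rw [← Finset.sum_product']
    apply Finset.sum_involution (fun x _ => (x.2, x.1))
    · rintro ⟨i, j⟩ _
      simp only
      have : (i ≠ j ∧ U i j = v) ↔ (j ≠ i ∧ U j i = v) := by
        rw [hUsymm i j]
        constructor
        · rintro ⟨a, b⟩; exact ⟨a.symm, b⟩
        · rintro ⟨a, b⟩; exact ⟨a.symm, b⟩
      by_cases h : i ≠ j ∧ U i j = v
      · rw [if_pos h, if_pos (this.1 h)]; rfl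
      · rw [if_neg h, if_neg (fun h' => h (this.2 h'))]; rfl
    · rintro ⟨i, j⟩ _ hne heq
      simp only at hne
      simp only [Prod.mk.injEq] at heq
      apply hne
      rw [if_neg]
      rintro ⟨a, -⟩
      exact a heq.2
    · rintro ⟨i, j⟩ h
      rw [Finset.mem_product] at h ⊢
      exact ⟨h.2, h.1⟩
    · rintro ⟨i, j⟩ _
      rfl
  rw [htot] at hpar
  obtain ⟨k, hk⟩ := hodd
  rw [hk] at hpar
  push_cast at hpar
  have h20 : (2 : ZMod 2) = 0 := rfl
  rw [h20] at hpar
  simp at hpar

end count


end Pool.Agent.H82.Aont
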