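import Mathlib

set_option autoImplicit false

/-!
# The maximum number of congruent simplices spanned by `n` points
-/

namespace Pool.Agent.H82.Cong

/-- Two sets of points of `ℝ^d` are congruent if an isometry of `ℝ^d` maps the first onto the
second. -/
def IsCongruent {d : ℕ} (X Y : Set (EuclideanSpace ℝ (Fin d))) : Prop :=
  ∃ e : EuclideanSpace ℝ (Fin d) ≃ᵢ EuclideanSpace ℝ (Fin d), e '' X = Y

/-- `S` is (the vertex set of) a `k`-dimensional simplex: `k + 1` affinely independent points. -/
def IsSimplex {d : ℕ} (k : ℕ) (S : Finset (EuclideanSpace ℝ (Fin d))) : Prop :=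
  S.card = k + 1 ∧ AffineIndependent ℝ (fun p : S => (p : EuclideanSpace ℝ (Fin d)))

/-- The number of `(k + 1)`-element subsets of `P` that are congruent to `Δ`. -/
noncomputable def copies {d : ℕ} (k : ℕ) (P Δ : Finset (EuclideanSpace ℝ (Fin d))) : ℕ :=
  {S : Finset (EuclideanSpace ℝ (Fin d)) | S ⊆ P ∧ S.card = k + 1 ∧
    IsCongruent (S : Set (EuclideanSpace ℝ (Fin d))) (Δ : Set (EuclideanSpace ℝ (Fin d)))}.ncard

/-- `C_{d,k}(n)`: the largest number of `(k + 1)`-element subsets of an `n`-point set `P` of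
`ℝ^d` that are congruent to one `k`-dimensional simplex `Δ`, the maximum being over all `P`
and `Δ`. -/
noncomputable def maxCopies (d k n : ℕ) : ℕ :=
  sSup {m : ℕ | ∃ P Δ : Finset (EuclideanSpace ℝ (Fin d)),
    P.card = n ∧ IsSimplex k Δ ∧ m = copies k P Δ}

end Pool.Agent.H82.Cong
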