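import Mathlib
import Pool.Agent.H82.CongDefs

set_option autoImplicit false

/-!
# Congruent simplices in the cubic grid from integer quaternions of the same norm
-/

namespace Pool.Agent.H82.Cong

open Finset

/-- abbreviation for euclidean three-space -/
abbrev E3 : Type := EuclideanSpace ℝ (Fin 3)

/-- norm of an integer quaternion -/
def nm (q : Fin 4 → ℤ) : ℤ := q 0 ^ 2 + q 1 ^ 2 + q 2 ^ 2 + q 3 ^ 2

/-- first column of the integer rotation matrix -/
def cu (q : Fin 4 → ℤ) : Fin 3 → ℤ :=
  ![q 0 ^ 2 + q 1 ^ 2 - q 2 ^ 2 - q 3 ^ 2, 2 * (q 1 * q 2 + q 0 * q 3),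
    2 * (q 1 * q 3 - q 0 * q 2)]

/-- second column -/
def cv (q : Fin 4 → ℤ) : Fin 3 → ℤ :=
  ![2 * (q 1 * q 2 - q 0 * q 3), q 0 ^ 2 - q 1 ^ 2 + q 2 ^ 2 - q 3 ^ 2,
    2 * (q 2 * q 3 + q 0 * q 1)]

/-- third column -/
def cw (q : Fin 4 → ℤ) : Fin 3 → ℤ :=
  ![2 * (q 1 * q 3 + q 0 * q 2), 2 * (q 2 * q 3 - q 0 * q 1),
    q 0 ^ 2 - q 1 ^ 2 - q 2 ^ 2 + q 3 ^ 2]

/-- the columns -/
def col (q : Fin 4 → ℤ) (j : Fin 3) : Fin 3 → ℤ := (![cu q, cv q, cw q] : Fin 3 → Fin 3 → ℤ) j

lemma col_inner (q : Fin 4 → ℤ) (i j : Fin 3) :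
    ∑ t, col q i t * col q j t = if i = j then nm q ^ 2 else 0 := by
  fin_cases i <;> fin_cases j <;>
    simp [col, cu, cv, cw, nm, Fin.sum_univ_three] <;> ring

lemma col_bound (q : Fin 4 → ℤ) (i t : Fin 3) : |col q i t| ≤ nm q := by
  have h := col_inner q i i
  rw [if_pos rfl] at h
  have h0 : 0 ≤ nm q := by unfold nm; positivity
  apply abs_le_of_sq_le_sq _ h0
  have h1 : col q i t * col q i t ≤ ∑ t, col q i t * col q i t :=
    Finset.single_le_sum (f := fun t => col q i t * col q i t)
      (fun s _ => mul_self_nonneg _) (Finset.mem_univ t)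
  rw [h] at h1
  rw [pow_two]
  exact h1

lemma col_cross (q : Fin 4 → ℤ) : nm q * cw q 2 = cu q 0 * cv q 1 - cu q 1 * cv q 0 := by
  simp [cu, cv, cw, nm]
  ring

/-- A nonnegative quadruple of positive norm is determined by its norm and the first two
columns. -/
lemma col_inj {q q' : Fin 4 → ℤ} (h0 : ∀ i, 0 ≤ q i) (h0' : ∀ i, 0 ≤ q' i) (hn : nm q = nm q')
    (hpos : 0 < nm q) (hu : cu q = cu q') (hv : cv q = cv q') : q = q' := by
  have hw : cw q 2 = cw q' 2 := by
    have h1 := col_cross q
    have h2 := col_cross q'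
    rw [← hn, ← hu, ← hv, ← h1] at h2
    exact (mul_left_cancel₀ hpos.ne' h2).symm
  have e1 := congrFun hu 0
  have e2 := congrFun hv 1
  simp only [cu, cv, cw, Matrix.cons_val_zero, Matrix.cons_val_one, Matrix.cons_val] at e1 e2 hw
  unfold nm at hn
  have s0 : q 0 ^ 2 = q' 0 ^ 2 := by linarith
  have s1 : q 1 ^ 2 = q' 1 ^ 2 := by linarith
  have s2 : q 2 ^ 2 = q' 2 ^ 2 := by linarith
  have s3 : q 3 ^ 2 = q' 3 ^ 2 := by linarith
  funext i
  fin_cases i
  · exact (pow_left_inj₀ (h0 0) (h0' 0) two_ne_zero).1 s0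
  · exact (pow_left_inj₀ (h0 1) (h0' 1) two_ne_zero).1 s1
  · exact (pow_left_inj₀ (h0 2) (h0' 2) two_ne_zero).1 s2
  · exact (pow_left_inj₀ (h0 3) (h0' 3) two_ne_zero).1 s3

/-- integer points as points of euclidean space -/
noncomputable def toE (x : Fin 3 → ℤ) : E3 := WithLp.toLp 2 (fun i => (x i : ℝ))

lemma toE_inj : Function.Injective toE := by
  intro x y h
  funext i
  have h1 := congrArg (fun z : E3 => z i) h
  simp only [toE] at h1
  exact_mod_cast h1

lemma toE_add (x y : Fin 3 → ℤ) : toE (x + y) = toE x + toE y := by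
  ext i
  simp [toE]

/-- the vertices of the simplices -/
def vert (x : Fin 3 → ℤ) (q : Fin 4 → ℤ) (j : Fin 4) : Fin 3 → ℤ :=
  x + (Fin.cons 0 (col q) : Fin 4 → Fin 3 → ℤ) j

/-- the isometry attached to a quaternion -/
lemma exists_isometry (q : Fin 4 → ℤ) (c : ℤ) (hc : 0 < c) (hq : nm q = c) (x : Fin 3 → ℤ) :
    ∃ e : E3 ≃ᵢ E3, e (toE 0) = toE x ∧
      ∀ j : Fin 3, e (toE (Pi.single j c)) = toE (x + col q j) := by
  have hc' : (0 : ℝ) < c := by exact_mod_cast hc
  let b : Fin 3 → E3 := fun j => (c : ℝ)⁻¹ • toE (col q j)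
  have hb : Orthonormal ℝ b := by
    rw [orthonormal_iff_ite]
    intro i j
    have h1 : inner ℝ (toE (col q i)) (toE (col q j)) = if i = j then (c : ℝ) ^ 2 else 0 := by
      rw [PiLp.inner_apply]
      have h2 := col_inner q i j
      rw [hq] at h2
      have h3 : ((∑ t, col q i t * col q j t : ℤ) : ℝ) = ((if i = j then c ^ 2 else 0 : ℤ) : ℝ) := by
        rw [h2]
      push_cast at h3
      rw [← h3]
      apply Finset.sum_congr rfl
      intro t _
      simp [toE, mul_comm]
    simp only [b, inner_smul_left, inner_smul_right, h1]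
    by_cases hij : i = j
    · simp only [hij, if_true]
      simp
      field_simp
    · simp [hij]
  let B := basisOfOrthonormalOfCardEqFinrank hb (by simp)
  have hB : ⇑B = b := coe_basisOfOrthonormalOfCardEqFinrank hb (by simp)
  let O : OrthonormalBasis (Fin 3) ℝ E3 := B.toOrthonormalBasis (by rw [hB]; exact hb)
  have hO : ∀ j, O j = b j := by
    intro j
    simp only [O, Module.Basis.coe_toOrthonormalBasis, hB]
  let L : E3 ≃ₗᵢ[ℝ] E3 := O.repr.symm
  have hL : ∀ j, L (EuclideanSpace.single j 1) = b j := by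
    intro j
    rw [← hO j]
    exact O.repr_symm_single j
  refine ⟨L.toIsometryEquiv.trans (IsometryEquiv.addLeft (toE x)), ?_, ?_⟩
  · have h0 : toE 0 = 0 := by ext i; simp [toE]
    simp only [IsometryEquiv.trans_apply, LinearIsometryEquiv.coe_toIsometryEquiv,
      IsometryEquiv.addLeft_apply, h0, map_zero, add_zero]
  · intro j
    have h1 : toE (Pi.single j c) = (c : ℝ) • EuclideanSpace.single j 1 := by
      ext i
      by_cases hij : i = j
      · subst hij; simp [toE]
      · simp [toE, hij]
    simp only [IsometryEquiv.trans_apply, LinearIsometryEquiv.coe_toIsometryEquiv,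
      IsometryEquiv.addLeft_apply, h1, map_smul, hL, b]
    rw [toE_add, smul_smul, mul_inv_cancel₀ hc'.ne', one_smul]

/-- the reference vertices -/
def vert0 (c : ℤ) (j : Fin 4) : Fin 3 → ℤ := (Fin.cons 0 (fun j => Pi.single j c) : Fin 4 → Fin 3 → ℤ) j

/-- the reference family -/
noncomputable def fam0 (k : ℕ) (hk : k + 1 ≤ 4) (c : ℤ) (j : Fin (k + 1)) : E3 :=
  toE (vert0 c (Fin.castLE hk j))

/-- the families -/
noncomputable def fam (k : ℕ) (hk : k + 1 ≤ 4) (x : Fin 3 → ℤ) (q : Fin 4 → ℤ)
    (j : Fin (k + 1)) : E3 := toE (vert x q (Fin.castLE hk j))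

lemma fam_isometry (k : ℕ) (hk : k + 1 ≤ 4) (q : Fin 4 → ℤ) (c : ℤ) (hc : 0 < c) (hq : nm q = c)
    (x : Fin 3 → ℤ) : ∃ e : E3 ≃ᵢ E3, ∀ j, e (fam0 k hk c j) = fam k hk x q j := by
  obtain ⟨e, h0, h1⟩ := exists_isometry q c hc hq x
  refine ⟨e, ?_⟩
  intro j
  unfold fam0 fam vert0 vert
  generalize Fin.castLE hk j = i
  induction i using Fin.cases with
  | zero => simpa using h0
  | succ i => simpa using h1 i

lemma vert0_inj {c : ℤ} (hc : 0 < c) : Function.Injective (vert0 c) := by
  intro i j h
  unfold vert0 at h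
  induction i using Fin.cases with
  | zero =>
    induction j using Fin.cases with
    | zero => rfl
    | succ j =>
      rw [Fin.cons_zero, Fin.cons_succ] at h
      have := congrFun h j
      simp at this
      omega
  | succ i =>
    induction j using Fin.cases with
    | zero =>
      rw [Fin.cons_zero, Fin.cons_succ] at h
      have := congrFun h i
      simp at this
      omega
    | succ j =>
      rw [Fin.cons_succ, Fin.cons_succ] at h
      have h1 := congrFun h i
      by_cases hij : i = j
      · rw [hij]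
      · rw [Pi.single_eq_same, Pi.single_eq_of_ne hij] at h1
        omega

lemma fam0_inj (k : ℕ) (hk : k + 1 ≤ 4) {c : ℤ} (hc : 0 < c) :
    Function.Injective (fam0 k hk c) := by
  intro i j h
  exact Fin.castLE_injective hk (vert0_inj hc (toE_inj h))

lemma fam0_affine (k : ℕ) (hk : k + 1 ≤ 4) {c : ℤ} (hc : 0 < c) :
    AffineIndependent ℝ (fam0 k hk c) := by
  rw [affineIndependent_iff]
  intro s w h1 h2
  have hc' : (c : ℝ) ≠ 0 := by exact_mod_cast hc.ne'
  have key : ∀ e ∈ s, e ≠ 0 → w e = 0 := by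
    intro e he hne
    obtain ⟨i, hi⟩ : ∃ i : Fin 3, Fin.castLE hk e = i.succ := by
      have : Fin.castLE hk e ≠ 0 := by
        intro h
        apply hne
        apply Fin.ext
        have := congrArg Fin.val h
        simpa using this
      exact ⟨(Fin.castLE hk e).pred this, (Fin.succ_pred _ this).symm⟩
    have h3 := congrArg (fun z : E3 => z i) h2
    simp only [PiLp.zero_apply] at h3
    rw [WithLp.ofLp_sum, Finset.sum_apply, Finset.sum_eq_single e] at h3
    · have h4 : (fam0 k hk c e) i = (c : ℝ) := by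
        simp [fam0, toE, vert0, hi]
      simp only [WithLp.ofLp_smul, Pi.smul_apply, h4, smul_eq_mul] at h3
      rcases mul_eq_zero.1 h3 with h | h
      · exact h
      · exact absurd h hc'
    · intro b _ hbe
      have h4 : (fam0 k hk c b) i = 0 := by
        have h5 : Fin.castLE hk b ≠ i.succ := by
          intro h
          rw [← hi] at h
          exact hbe (Fin.castLE_injective hk h)
        simp only [fam0, toE, vert0]
        generalize Fin.castLE hk b = b' at h5
        induction b' using Fin.cases with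
        | zero => simp
        | succ b' =>
          have h6 : i ≠ b' := by
            intro h
            exact h5 (by rw [h])
          simp [h6]
      simp [h4]
    · intro h
      exact absurd he h
  intro e he
  by_cases hne : e = 0
  · rw [← h1]
    symm
    apply Finset.sum_eq_single e
    · intro b hb hbe
      exact key b hb (by rw [← hne]; exact hbe)
    · intro h
      exact absurd he h
  · exact key e he hne

lemma fam0_simplex (k : ℕ) (hk : k + 1 ≤ 4) {c : ℤ} (hc : 0 < c) :
    IsSimplex k (Finset.univ.image (fam0 k hk c)) := by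
  classical
  constructor
  · rw [Finset.card_image_of_injective _ (fam0_inj k hk hc), Finset.card_univ, Fintype.card_fin]
  · have h := (fam0_affine k hk hc).range
    have h2 : ∀ p : {p // p ∈ Finset.univ.image (fam0 k hk c)}, p.1 ∈ Set.range (fam0 k hk c) := by
      intro p
      obtain ⟨j, -, hj⟩ := Finset.mem_image.1 p.2
      exact ⟨j, hj⟩
    let g : {p // p ∈ Finset.univ.image (fam0 k hk c)} ↪ Set.range (fam0 k hk c) :=
      ⟨fun p => ⟨p.1, h2 p⟩, fun a b hab =>
        Subtype.ext (congrArg (fun z : Set.range (fam0 k hk c) => z.1) hab)⟩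
    exact h.comp_embedding g

lemma copies_bdd (d k n : ℕ) : BddAbove {m : ℕ | ∃ P Δ : Finset (EuclideanSpace ℝ (Fin d)),
    P.card = n ∧ IsSimplex k Δ ∧ m = copies k P Δ} := by
  refine ⟨2 ^ n, ?_⟩
  rintro m ⟨P, Δ, hP, -, rfl⟩
  rw [← hP, ← Finset.card_powerset, ← Set.ncard_coe_finset]
  apply Set.ncard_le_ncard
  · intro S hS
    rw [Finset.mem_coe, Finset.mem_powerset]
    exact hS.1
  · exact Finset.finite_toSet _

lemma le_maxCopies {d k n : ℕ} (P Δ : Finset (EuclideanSpace ℝ (Fin d))) (hP : P.card = n)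
    (hΔ : IsSimplex k Δ) : copies k P Δ ≤ maxCopies d k n :=
  le_csSup (copies_bdd d k n) ⟨P, Δ, hP, hΔ, rfl⟩

theorem stepA (k : ℕ) (hk2 : 2 ≤ k) (hk3 : k ≤ 3) (n D : ℕ) (c : ℤ) (hc : 0 < c) (hcD : c ≤ D)
    (hn : (3 * D) ^ 3 ≤ n) (Q : Finset (Fin 4 → ℤ)) (hQ : ∀ q ∈ Q, (∀ i, 0 ≤ q i) ∧ nm q = c) :
    D ^ 3 * Q.card ≤ (k + 1) ^ (k + 1) * maxCopies 3 k n := by
  classical
  have hk : k + 1 ≤ 4 := by omega
  let X : Finset (Fin 3 → ℤ) := Fintype.piFinset fun _ => Ico (D : ℤ) (2 * D)
  let G : Finset (Fin 3 → ℤ) := Fintype.piFinset fun _ => Ico (0 : ℤ) (3 * D)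
  have hX : X.card = D ^ 3 := by
    simp only [X, Fintype.card_piFinset, Int.card_Ico]
    rw [Finset.prod_const, Finset.card_univ, Fintype.card_fin]
    congr 1
    omega
  have hG : (G.image toE).card = (3 * D) ^ 3 := by
    rw [Finset.card_image_of_injective _ toE_inj]
    simp only [G, Fintype.card_piFinset, Int.card_Ico]
    rw [Finset.prod_const, Finset.card_univ, Fintype.card_fin]
    congr 1
  obtain ⟨P, hGP, hP⟩ := Infinite.exists_superset_card_eq (G.image toE) n (by rw [hG]; exact hn)
  have hvert : ∀ x ∈ X, ∀ q ∈ Q, ∀ j : Fin (k + 1), fam k hk x q j ∈ P := by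
    intro x hx q hq j
    apply hGP
    apply Finset.mem_image_of_mem
    simp only [X, G, Fintype.mem_piFinset, Finset.mem_Ico] at hx ⊢
    intro t
    have hx' := hx t
    unfold vert
    generalize Fin.castLE hk j = i
    induction i using Fin.cases with
    | zero =>
      simp only [Fin.cons_zero, add_zero]
      omega
    | succ i =>
      have hb := abs_le.1 (col_bound q i t)
      rw [(hQ q hq).2] at hb
      simp only [Fin.cons_succ, Pi.add_apply]
      omega
  let Δ : Finset E3 := Finset.univ.image (fam0 k hk c)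
  let T : Finset (Finset E3) := (P.powersetCard (k + 1)).filter
    (fun S => IsCongruent (S : Set E3) (Δ : Set E3))
  have hT : copies k P Δ = T.card := by
    unfold copies
    rw [← Set.ncard_coe_finset]
    congr 1
    ext S
    simp [T, Finset.mem_powersetCard, and_assoc]
  have hmaps : ∀ a ∈ X ×ˢ Q, Finset.univ.image (fam k hk a.1 a.2) ∈ T := by
    rintro ⟨x, q⟩ ha
    rw [Finset.mem_product] at ha
    obtain ⟨hx, hq⟩ := ha
    simp only at hx hq
    obtain ⟨e, he⟩ := fam_isometry k hk q c hc (hQ q hq).2 x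
    have hinj : Function.Injective (fam k hk x q) := by
      intro i j hij
      rw [← he, ← he] at hij
      exact fam0_inj k hk hc (e.injective hij)
    simp only [T, Finset.mem_filter, Finset.mem_powersetCard]
    refine ⟨⟨?_, ?_⟩, ?_⟩
    · intro p hp
      obtain ⟨j, -, rfl⟩ := Finset.mem_image.1 hp
      exact hvert x hx q hq j
    · rw [Finset.card_image_of_injective _ hinj, Finset.card_univ, Fintype.card_fin]
    · refine ⟨e.symm, ?_⟩
      rw [Finset.coe_image, Finset.coe_image, Finset.coe_univ, ← Set.image_comp]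
      apply Set.image_congr
      intro j _
      simp [← he]
  have hfib : ∀ S ∈ T, ((X ×ˢ Q).filter (fun a => Finset.univ.image (fam k hk a.1 a.2) = S)).card ≤
      (k + 1) ^ (k + 1) := by
    intro S hS
    simp only [T, Finset.mem_filter, Finset.mem_powersetCard] at hS
    have hcard : (Fintype.piFinset (fun _ : Fin (k + 1) => S)).card = (k + 1) ^ (k + 1) := by
      rw [Fintype.card_piFinset, Finset.prod_const, Finset.card_univ, Fintype.card_fin, hS.1.2]
    rw [← hcard]
    apply Finset.card_le_card_of_injOn (fun a => fam k hk a.1 a.2)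
    · rintro ⟨x, q⟩ ha
      simp only [Finset.coe_filter, Set.mem_ofPred_eq] at ha
      simp only [Finset.mem_coe, Fintype.mem_piFinset]
      intro j
      rw [← ha.2]
      exact Finset.mem_image_of_mem _ (Finset.mem_univ j)
    · rintro ⟨x, q⟩ ha ⟨x', q'⟩ ha' h
      simp only [Finset.coe_filter, Set.mem_ofPred_eq, Finset.mem_product] at ha ha'
      simp only at h
      have e0 : vert x q 0 = vert x' q' 0 := by
        have := toE_inj (congrFun h ⟨0, by omega⟩)
        exact this
      have e1 : vert x q 1 = vert x' q' 1 := by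
        have := toE_inj (congrFun h ⟨1, by omega⟩)
        exact this
      have e2 : vert x q 2 = vert x' q' 2 := by
        have := toE_inj (congrFun h ⟨2, by omega⟩)
        exact this
      have hx : x = x' := by
        simpa [vert] using e0
      subst hx
      have hu : cu q = cu q' := by
        have h1 : x + cu q = x + cu q' := e1
        exact add_left_cancel h1
      have hv : cv q = cv q' := by
        have h1 : x + cv q = x + cv q' := e2
        exact add_left_cancel h1
      have hqq := hQ q ha.1.2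
      have hqq' := hQ q' ha'.1.2
      have := col_inj hqq.1 hqq'.1 (by rw [hqq.2, hqq'.2]) (by rw [hqq.2]; exact hc) hu hv
      rw [this]
  have h1 := Finset.card_le_mul_card_image_of_maps_to hmaps ((k + 1) ^ (k + 1)) hfib
  rw [Finset.card_product, hX, ← hT] at h1
  exact h1.trans (Nat.mul_le_mul_left _ (le_maxCopies P Δ hP (fam0_simplex k hk hc)))

end Pool.Agent.H82.Cong
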