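import Mathlib

set_option autoImplicit false

/-!
# Zeros of the sum of four squares modulo an odd squarefree number
-/

namespace Pool.Agent.H82.Cong

open Finset

/-- the zeros of the sum of four squares in a ring -/
abbrev Z4 (R : Type) [CommRing R] : Type :=
  {q : Fin 4 → R // q 0 ^ 2 + q 1 ^ 2 + q 2 ^ 2 + q 3 ^ 2 = 0}

/-- number of zeros modulo `m` -/
noncomputable def rho (m : ℕ) : ℕ := Nat.card (Z4 (ZMod m))

/-- Chinese remainder theorem for the zeros -/
noncomputable def z4Equiv {R S T : Type} [CommRing R] [CommRing S] [CommRing T]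
    (e : R ≃+* S × T) : Z4 R ≃ Z4 S × Z4 T where
  toFun q := (⟨fun i => (e (q.1 i)).1, by
      have h := congrArg (fun x => (e x).1) q.2
      simpa using h⟩,
    ⟨fun i => (e (q.1 i)).2, by
      have h := congrArg (fun x => (e x).2) q.2
      simpa using h⟩)
  invFun ab := ⟨fun i => e.symm (ab.1.1 i, ab.2.1 i), by
    apply e.injective
    have h1 := ab.1.2
    have h2 := ab.2.2
    simp only [map_add, map_pow, RingEquiv.apply_symm_apply, Prod.pow_mk, Prod.mk_add_mk,
      map_zero]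
    rw [h1, h2]
    rfl⟩
  left_inv q := by
    apply Subtype.ext
    funext i
    simp
  right_inv ab := by
    apply Prod.ext
    · apply Subtype.ext
      funext i
      simp
    · apply Subtype.ext
      funext i
      simp

lemma rho_mul {m n : ℕ} (h : Nat.Coprime m n) : rho (m * n) = rho m * rho n := by
  unfold rho
  rw [Nat.card_congr (z4Equiv (ZMod.chineseRemainder h)), Nat.card_prod]

lemma rho_one : rho 1 = 1 := by
  unfold rho
  rw [Nat.card_eq_one_iff_unique]
  constructor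
  · constructor
    intro a b
    apply Subtype.ext
    funext i
    exact Subsingleton.elim _ _
  · exact ⟨⟨0, Subsingleton.elim _ _⟩⟩

/-- the map from the hyperbolic form -/
def GG {F : Type} [CommRing F] (x y : F) (t : F × F × F × F) : Fin 4 → F :=
  ![t.1 + t.2.1, t.2.2.2 - t.2.2.1, x * (t.2.1 - t.1) - y * (t.2.2.1 + t.2.2.2),
    y * (t.2.1 - t.1) + x * (t.2.2.1 + t.2.2.2)]

lemma GG_zero {F : Type} [CommRing F] {x y : F} (h : x ^ 2 + y ^ 2 = -1) (t : F × F × F × F)
    (ht : t.1 * t.2.1 = t.2.2.1 * t.2.2.2) :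
    (GG x y t) 0 ^ 2 + (GG x y t) 1 ^ 2 + (GG x y t) 2 ^ 2 + (GG x y t) 3 ^ 2 = 0 := by
  obtain ⟨X, Y, Z, W⟩ := t
  simp only [GG, Matrix.cons_val_zero, Matrix.cons_val_one, Matrix.cons_val] at ht ⊢
  linear_combination (4 : F) * ht + ((Y - X) ^ 2 + (Z + W) ^ 2) * h

lemma GG_inj {F : Type} [Field F] {x y : F} (h : x ^ 2 + y ^ 2 = -1) (h2 : (2 : F) ≠ 0) :
    Function.Injective (GG x y) := by
  rintro ⟨X, Y, Z, W⟩ ⟨X', Y', Z', W'⟩ e
  have e0 := congrFun e 0
  have e1 := congrFun e 1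
  have e2 := congrFun e 2
  have e3 := congrFun e 3
  simp only [GG, Matrix.cons_val_zero, Matrix.cons_val_one, Matrix.cons_val] at e0 e1 e2 e3
  have f1 : Y - X = Y' - X' := by
    linear_combination (-x) * e2 + (-y) * e3 + (Y - X - (Y' - X')) * h
  have f2 : Z + W = Z' + W' := by
    linear_combination y * e2 + (-x) * e3 + (Z + W - (Z' + W')) * h
  have g1 : 2 * X = 2 * X' := by linear_combination e0 - f1
  have g2 : 2 * Y = 2 * Y' := by linear_combination e0 + f1
  have g3 : 2 * Z = 2 * Z' := by linear_combination f2 - e1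
  have g4 : 2 * W = 2 * W' := by linear_combination f2 + e1
  rw [mul_left_cancel₀ h2 g1, mul_left_cancel₀ h2 g2, mul_left_cancel₀ h2 g3,
    mul_left_cancel₀ h2 g4]

/-- parametrisation of the zeros of the hyperbolic form -/
noncomputable def gg {F : Type} [Field F] :
    ({x : F // x ≠ 0} × F × F) ⊕ ({x : F // x ≠ 0} × F) ⊕ (F × F) → F × F × F × F
  | Sum.inl t => (t.1.1, t.2.1 * t.2.2 * t.1.1⁻¹, t.2.1, t.2.2)
  | Sum.inr (Sum.inl t) => (0, t.2, t.1.1, 0)
  | Sum.inr (Sum.inr t) => (0, t.1, 0, t.2)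

lemma gg_hyp {F : Type} [Field F] (t : ({x : F // x ≠ 0} × F × F) ⊕ ({x : F // x ≠ 0} × F) ⊕
    (F × F)) : (gg t).1 * (gg t).2.1 = (gg t).2.2.1 * (gg t).2.2.2 := by
  rcases t with ⟨⟨x, hx⟩, z, w⟩ | ⟨z, y⟩ | ⟨y, w⟩
  · simp only [gg]
    field_simp
  · simp [gg]
  · simp [gg]

lemma gg_inj {F : Type} [Field F] : Function.Injective (gg (F := F)) := by
  rintro (⟨⟨x, hx⟩, z, w⟩ | ⟨⟨z, hz⟩, y⟩ | ⟨y, w⟩) (⟨⟨x', hx'⟩, z', w'⟩ | ⟨⟨z', hz'⟩, y'⟩ | ⟨y', w'⟩) e <;>
    simp only [gg, Prod.mk.injEq] at e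
  · obtain ⟨e1, -, e3, e4⟩ := e
    subst e1 e3 e4
    rfl
  · exact absurd e.1 hx
  · exact absurd e.1 hx
  · exact absurd e.1.symm hx'
  · obtain ⟨-, e2, e3, -⟩ := e
    subst e2 e3
    rfl
  · exact absurd e.2.2.1 hz
  · exact absurd e.1.symm hx'
  · exact absurd e.2.2.1.symm hz'
  · obtain ⟨-, e2, -, e4⟩ := e
    subst e2 e4
    rfl

lemma rho_prime {p : ℕ} (hp : p.Prime) (h2 : p ≠ 2) : p ^ 3 + p ^ 2 ≤ rho p + p := by
  classical
  have : Fact p.Prime := ⟨hp⟩
  obtain ⟨x, y, h⟩ := ZMod.sq_add_sq p (-1)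
  have h20 : (2 : ZMod p) ≠ 0 := by
    intro h0
    have : (p : ℕ) ∣ 2 := by
      rw [← ZMod.natCast_eq_zero_iff]
      exact_mod_cast h0
    have := (Nat.prime_dvd_prime_iff_eq hp Nat.prime_two).1 this
    exact h2 this
  let f : ({x : ZMod p // x ≠ 0} × ZMod p × ZMod p) ⊕ ({x : ZMod p // x ≠ 0} × ZMod p) ⊕
      (ZMod p × ZMod p) → Z4 (ZMod p) := fun t => ⟨GG x y (gg t), GG_zero h _ (gg_hyp t)⟩
  have hf : Function.Injective f := by
    intro a b hab
    have : GG x y (gg a) = GG x y (gg b) := congrArg Subtype.val hab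
    exact gg_inj (GG_inj h h20 this)
  have hc := Nat.card_le_card_of_injective f hf
  have hN : Fintype.card {x : ZMod p // x ≠ 0} + 1 = p := by
    have h1 := Fintype.card_subtype_compl (fun x : ZMod p => x = 0)
    rw [Fintype.card_subtype_eq, ZMod.card] at h1
    have h3 := hp.pos
    have h4 : Fintype.card {x : ZMod p // x ≠ 0} = Fintype.card {x : ZMod p // ¬ x = 0} := rfl
    rw [h4, h1]
    omega
  rw [Nat.card_eq_fintype_card] at hc
  simp only [Fintype.card_sum, Fintype.card_prod, ZMod.card] at hc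
  unfold rho
  generalize Nat.card (Z4 (ZMod p)) = R at hc ⊢
  generalize Fintype.card {x : ZMod p // x ≠ 0} = N at hc hN
  clear hf f h20 h x y this
  subst hN
  nlinarith

end Pool.Agent.H82.Cong
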