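import Mathlib
import Pool.Agent.H82.CongRho

set_option autoImplicit false

/-!
# A lower bound for the number of zeros modulo a product of primes
-/

namespace Pool.Agent.H82.Cong

open Finset

/-- odd primes below `y` -/
def PP (y : ℕ) : Finset ℕ := (Nat.primesBelow y).erase 2

/-- the product of the odd primes below `y` -/
def MM (y : ℕ) : ℕ := ∏ p ∈ PP y, p

lemma mem_PP {y p : ℕ} (h : p ∈ PP y) : p.Prime ∧ p ≠ 2 := by
  unfold PP at h
  rw [Finset.mem_erase] at h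
  exact ⟨Nat.prime_of_mem_primesBelow h.2, h.1⟩

lemma three_le_PP {y p : ℕ} (h : p ∈ PP y) : 3 ≤ p := by
  have h1 := mem_PP h
  have := h1.1.two_le
  have := h1.2
  omega

lemma MM_pos (y : ℕ) : 0 < MM y := Finset.prod_pos fun p hp => (mem_PP hp).1.pos

lemma MM_le (y : ℕ) : MM y ≤ 4 ^ y := by
  refine le_trans ?_ (primorial_le_four_pow y)
  rw [primorial]
  apply Finset.prod_le_prod_of_subset_of_one_le'
  · intro p hp
    unfold PP at hp
    rw [Finset.mem_erase, Nat.mem_primesBelow] at hp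
    rw [Finset.mem_filter, Finset.mem_range]
    exact ⟨by omega, hp.2.2⟩
  · intro p hp _
    rw [Finset.mem_filter] at hp
    exact hp.2.pos

lemma rho_prod (s : Finset ℕ) (hs : ∀ p ∈ s, p.Prime ∧ p ≠ 2) :
    (∏ p ∈ s, (p : ℝ)) ^ 3 * ∏ p ∈ s, (1 + 1 / (p : ℝ) - 1 / (p : ℝ) ^ 2) ≤
      (rho (∏ p ∈ s, p) : ℝ) := by
  classical
  induction s using Finset.induction_on with
  | empty => simp [rho_one]
  | insert p s hps ih =>
    have hp := hs p (by simp)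
    have ih' := ih (fun q hq => hs q (by simp [hq]))
    have hco : Nat.Coprime p (∏ q ∈ s, q) := by
      apply Nat.Coprime.prod_right
      intro q hq
      rw [Nat.coprime_primes hp.1 (hs q (by simp [hq])).1]
      rintro rfl
      exact hps hq
    rw [Finset.prod_insert hps, Finset.prod_insert hps, Finset.prod_insert hps, rho_mul hco]
    have h1 : ((p : ℝ) ^ 3 + (p : ℝ) ^ 2) ≤ rho p + p := by
      exact_mod_cast rho_prime hp.1 hp.2
    have hp0 : (0 : ℝ) < p := by exact_mod_cast hp.1.pos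
    have h2 : (p : ℝ) ^ 3 * (1 + 1 / (p : ℝ) - 1 / (p : ℝ) ^ 2) ≤ rho p := by
      have : (p : ℝ) ^ 3 * (1 + 1 / (p : ℝ) - 1 / (p : ℝ) ^ 2) = p ^ 3 + p ^ 2 - p := by
        field_simp
      rw [this]
      linarith
    have hp2 : (2 : ℝ) ≤ p := by exact_mod_cast hp.1.two_le
    have h3 : 0 ≤ (1 + 1 / (p : ℝ) - 1 / (p : ℝ) ^ 2) := by
      have : 1 / (p : ℝ) ^ 2 ≤ 1 := by
        rw [div_le_one (by positivity)]
        nlinarith
      have : 0 ≤ 1 / (p : ℝ) := by positivity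
      linarith
    have h4 : 0 ≤ ∏ q ∈ s, (1 + 1 / (q : ℝ) - 1 / (q : ℝ) ^ 2) := by
      apply Finset.prod_nonneg
      intro q hq
      have hq0 : (0 : ℝ) < q := by exact_mod_cast (hs q (by simp [hq])).1.pos
      have hq2 : (2 : ℝ) ≤ q := by exact_mod_cast (hs q (by simp [hq])).1.two_le
      have : 1 / (q : ℝ) ^ 2 ≤ 1 := by
        rw [div_le_one (by positivity)]
        nlinarith
      have : 0 ≤ 1 / (q : ℝ) := by positivity
      linarith
    push_cast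
    calc ((p : ℝ) * ∏ q ∈ s, (q : ℝ)) ^ 3 * ((1 + 1 / (p : ℝ) - 1 / (p : ℝ) ^ 2) *
          ∏ q ∈ s, (1 + 1 / (q : ℝ) - 1 / (q : ℝ) ^ 2))
        = ((p : ℝ) ^ 3 * (1 + 1 / (p : ℝ) - 1 / (p : ℝ) ^ 2)) * ((∏ q ∈ s, (q : ℝ)) ^ 3 *
          ∏ q ∈ s, (1 + 1 / (q : ℝ) - 1 / (q : ℝ) ^ 2)) := by ring
      _ ≤ (rho p : ℝ) * (rho (∏ q ∈ s, q) : ℝ) := by
          apply mul_le_mul h2 ih'
          · apply mul_nonneg _ h4
            apply pow_nonneg
            apply Finset.prod_nonneg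
            intro q _
            positivity
          · positivity

lemma telescoping (y : ℕ) (hy : 3 ≤ y) :
    ∏ m ∈ Ico 3 y, (1 - 4 / (m : ℝ) ^ 2) =
      ((y : ℝ) * ((y : ℝ) + 1)) / (6 * ((y : ℝ) - 1) * ((y : ℝ) - 2)) := by
  induction y, hy using Nat.le_induction with
  | base => norm_num
  | succ y hy ih =>
    rw [Finset.prod_Ico_succ_top hy, ih]
    have hy' : (3 : ℝ) ≤ y := by exact_mod_cast hy
    have h1 : (y : ℝ) - 1 ≠ 0 := by linarith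
    have h2 : (y : ℝ) - 2 ≠ 0 := by linarith
    have h3 : (y : ℝ) ≠ 0 := by linarith
    push_cast
    have h4 : (y : ℝ) + 1 - 1 = y := by ring
    have h5 : (y : ℝ) + 1 - 2 = y - 1 := by ring
    rw [h4, h5]
    field_simp
    ring

lemma tele_le (y : ℕ) (hy : 3 ≤ y) : (1 / 6 : ℝ) ≤ ∏ m ∈ Ico 3 y, (1 - 4 / (m : ℝ) ^ 2) := by
  rw [telescoping y hy]
  have hy' : (3 : ℝ) ≤ y := by exact_mod_cast hy
  rw [div_le_div_iff₀ (by norm_num) (by nlinarith)]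
  nlinarith

lemma factor_bounds {m : ℕ} (h : 3 ≤ m) : 0 ≤ 1 - 4 / (m : ℝ) ^ 2 ∧ 1 - 4 / (m : ℝ) ^ 2 ≤ 1 := by
  have h' : (3 : ℝ) ≤ m := by exact_mod_cast h
  constructor
  · rw [sub_nonneg, div_le_one (by positivity)]
    nlinarith
  · have : 0 ≤ 4 / (m : ℝ) ^ 2 := by positivity
    linarith

lemma prod_PP_le (y : ℕ) (hy : 3 ≤ y) : (1 / 6 : ℝ) ≤ ∏ p ∈ PP y, (1 - 4 / (p : ℝ) ^ 2) := by
  refine le_trans (tele_le y hy) ?_
  have hsub : PP y ⊆ Ico 3 y := by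
    intro p hp
    rw [Finset.mem_Ico]
    refine ⟨three_le_PP hp, ?_⟩
    unfold PP at hp
    rw [Finset.mem_erase, Nat.mem_primesBelow] at hp
    exact hp.2.1
  rw [← Finset.prod_sdiff hsub]
  have h1 : ∏ m ∈ Ico 3 y \ PP y, (1 - 4 / (m : ℝ) ^ 2) ≤ 1 := by
    apply Finset.prod_le_one
    · intro m hm
      rw [Finset.mem_sdiff, Finset.mem_Ico] at hm
      exact (factor_bounds hm.1.1).1
    · intro m hm
      rw [Finset.mem_sdiff, Finset.mem_Ico] at hm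
      exact (factor_bounds hm.1.1).2
  have h2 : 0 ≤ ∏ p ∈ PP y, (1 - 4 / (p : ℝ) ^ 2) :=
    Finset.prod_nonneg fun p hp => (factor_bounds (three_le_PP hp)).1
  exact mul_le_of_le_one_left h2 h1

lemma log_le_prod (y : ℕ) : Real.log y ≤ ∏ p ∈ Nat.primesBelow y, (1 - (p : ℝ)⁻¹)⁻¹ := by
  rcases Nat.eq_zero_or_pos y with rfl | hy
  · simp
  let f : ℕ →* ℝ := ⟨⟨fun n => (n : ℝ)⁻¹, by simp⟩, by
    intro a b
    show ((a * b : ℕ) : ℝ)⁻¹ = (a : ℝ)⁻¹ * (b : ℝ)⁻¹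
    push_cast
    rw [mul_inv]⟩
  have hf : ∀ {p : ℕ}, p.Prime → ‖f p‖ < 1 := by
    intro p hp
    show ‖(p : ℝ)⁻¹‖ < 1
    rw [norm_inv, Real.norm_natCast]
    exact inv_lt_one_of_one_lt₀ (by exact_mod_cast hp.one_lt)
  have h1 := (EulerProduct.summable_and_hasSum_smoothNumbers_prod_primesBelow_geometric hf y).2
  have h2 : ∑ m ∈ (Finset.Icc 1 (y - 1)).subtype (· ∈ y.smoothNumbers), f m ≤
      ∏ p ∈ Nat.primesBelow y, (1 - (p : ℝ)⁻¹)⁻¹ := by
    refine sum_le_hasSum _ ?_ h1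
    intro m _
    show 0 ≤ ((m : ℕ) : ℝ)⁻¹
    positivity
  rw [Finset.sum_subtype_of_mem f (p := (· ∈ y.smoothNumbers))] at h2
  · refine le_trans ?_ h2
    have h3 := log_add_one_le_harmonic (y - 1)
    rw [harmonic_eq_sum_Icc, Nat.sub_add_cancel hy] at h3
    refine le_trans h3 (le_of_eq ?_)
    push_cast
    rfl
  · intro m hm
    rw [Finset.mem_Icc] at hm
    exact Nat.mem_smoothNumbers_of_lt hm.1 (by omega)

lemma rho_ratio (y : ℕ) (hy : 3 ≤ y) : (MM y : ℝ) ^ 3 * (Real.log y / 12) ≤ rho (MM y) := by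
  have h1 := rho_prod (PP y) (fun p hp => mem_PP hp)
  have h2 : (∏ p ∈ PP y, (p : ℝ)) = (MM y : ℝ) := by
    unfold MM
    push_cast
    rfl
  rw [h2] at h1
  refine le_trans ?_ h1
  apply mul_le_mul_of_nonneg_left _ (by positivity)
  have h3 : (∏ p ∈ PP y, (1 - 4 / (p : ℝ) ^ 2)) * ∏ p ∈ PP y, (1 - (p : ℝ)⁻¹)⁻¹ ≤
      ∏ p ∈ PP y, (1 + 1 / (p : ℝ) - 1 / (p : ℝ) ^ 2) := by
    rw [← Finset.prod_mul_distrib]
    apply Finset.prod_le_prod
    · intro p hp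
      apply mul_nonneg (factor_bounds (three_le_PP hp)).1
      rw [inv_nonneg, sub_nonneg]
      exact inv_le_one_of_one_le₀ (by exact_mod_cast (mem_PP hp).1.one_lt.le)
    · intro p hp
      have hp3 : (3 : ℝ) ≤ p := by exact_mod_cast three_le_PP hp
      have h4 : (0 : ℝ) < 1 - (p : ℝ)⁻¹ := by
        rw [sub_pos]
        exact inv_lt_one_of_one_lt₀ (by linarith)
      rw [← div_eq_mul_inv, div_le_iff₀ h4]
      have h5 : (1 + 1 / (p : ℝ) - 1 / (p : ℝ) ^ 2) * (1 - (p : ℝ)⁻¹) -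
          (1 - 4 / (p : ℝ) ^ 2) = (2 * p + 1) / (p : ℝ) ^ 3 := by
        field_simp
        ring
      have h6 : 0 ≤ (2 * p + 1) / (p : ℝ) ^ 3 := by positivity
      linarith
  refine le_trans ?_ h3
  have h7 : ∏ p ∈ Nat.primesBelow y, (1 - (p : ℝ)⁻¹)⁻¹ =
      (1 - ((2 : ℕ) : ℝ)⁻¹)⁻¹ * ∏ p ∈ PP y, (1 - (p : ℝ)⁻¹)⁻¹ := by
    unfold PP
    rw [Finset.mul_prod_erase _ (fun p : ℕ => (1 - (p : ℝ)⁻¹)⁻¹)]
    rw [Nat.mem_primesBelow]
    exact ⟨by omega, Nat.prime_two⟩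
  have h8 := log_le_prod y
  rw [h7] at h8
  norm_num at h8
  have h9 := prod_PP_le y hy
  have h10 : 0 ≤ ∏ p ∈ PP y, (1 - (p : ℝ)⁻¹)⁻¹ := by
    apply Finset.prod_nonneg
    intro p hp
    rw [inv_nonneg, sub_nonneg]
    exact inv_le_one_of_one_le₀ (by exact_mod_cast (mem_PP hp).1.one_lt.le)
  have h11 : Real.log y / 2 ≤ ∏ p ∈ PP y, (1 - (p : ℝ)⁻¹)⁻¹ := by
    rw [Finset.prod_inv_distrib]
    linarith
  calc Real.log y / 12 = (1 / 6) * (Real.log y / 2) := by ring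
    _ ≤ (1 / 6) * ∏ p ∈ PP y, (1 - (p : ℝ)⁻¹)⁻¹ := by linarith
    _ ≤ _ := mul_le_mul_of_nonneg_right h9 h10

end Pool.Agent.H82.Cong
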