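import Mathlib
import Pool.Agent.H82.CongGrid
import Pool.Agent.H82.CongLog

set_option autoImplicit false

/-!
# The lower bound for the number of congruent triangles and tetrahedra
-/

namespace Pool.Agent.H82.Cong

open Finset Filter

/-- The quadruples in the box `[0, M s)^4` whose norm is divisible by `M`. -/
lemma box_count (M s : ℕ) (hM : 0 < M) :
    s ^ 4 * rho M ≤ ((Fintype.piFinset fun _ : Fin 4 => Ico (0 : ℤ) ((M * s : ℕ) : ℤ)).filter
      (fun q => (M : ℤ) ∣ nm q)).card := by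
  classical
  have : NeZero M := ⟨hM.ne'⟩
  let f : (Fin 4 → Fin s) × Z4 (ZMod M) → (Fin 4 → ℤ) := fun a i =>
    ((a.2.1 i).val : ℤ) + M * (a.1 i).val
  have hinj : Function.Injective f := by
    rintro ⟨t, r⟩ ⟨t', r'⟩ h
    have h1 : ∀ i, ((r.1 i).val : ℤ) + M * (t i).val = ((r'.1 i).val : ℤ) + M * (t' i).val :=
      fun i => congrFun h i
    have h2 : ∀ i, (r.1 i).val = (r'.1 i).val ∧ (t i).val = (t' i).val := by
      intro i
      have h3 : (r.1 i).val + M * (t i).val = (r'.1 i).val + M * (t' i).val := by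
        exact_mod_cast h1 i
      have h4 := ZMod.val_lt (r.1 i)
      have h5 := ZMod.val_lt (r'.1 i)
      have h6 : ((r.1 i).val + M * (t i).val) % M = ((r'.1 i).val + M * (t' i).val) % M := by
        rw [h3]
      rw [Nat.add_mul_mod_self_left, Nat.add_mul_mod_self_left, Nat.mod_eq_of_lt h4,
        Nat.mod_eq_of_lt h5] at h6
      refine ⟨h6, ?_⟩
      rw [h6] at h3
      exact Nat.eq_of_mul_eq_mul_left hM (Nat.add_left_cancel h3)
    apply Prod.ext
    · funext i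
      exact Fin.ext (h2 i).2
    · apply Subtype.ext
      funext i
      exact ZMod.val_injective M (h2 i).1
  have hcard : (Finset.univ.image f).card = s ^ 4 * rho M := by
    rw [Finset.card_image_of_injective _ hinj, Finset.card_univ, Fintype.card_prod,
      Fintype.card_fun, Fintype.card_fin, Fintype.card_fin, rho, Nat.card_eq_fintype_card]
  rw [← hcard]
  apply Finset.card_le_card
  intro q hq
  obtain ⟨⟨t, r⟩, -, rfl⟩ := Finset.mem_image.1 hq
  rw [Finset.mem_filter, Fintype.mem_piFinset]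
  constructor
  · intro i
    rw [Finset.mem_Ico]
    have h4 := ZMod.val_lt (r.1 i)
    have h5 := (t i).isLt
    constructor
    · simp only [f]; positivity
    · simp only [f]
      have : (r.1 i).val + M * (t i).val < M * s := by
        have : M * ((t i).val + 1) ≤ M * s := Nat.mul_le_mul_left _ h5
        rw [mul_add, mul_one] at this
        omega
      exact_mod_cast this
  · have h6 : ((nm (f (t, r)) : ℤ) : ZMod M) = 0 := by
      have h7 : ∀ i, ((f (t, r) i : ℤ) : ZMod M) = r.1 i := by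
        intro i
        simp [f]
      unfold nm
      push_cast
      rw [h7, h7, h7, h7]
      exact r.2
    exact (ZMod.intCast_zmod_eq_zero_iff_dvd _ _).1 h6

/-- Pigeonhole. -/
lemma pigeon (M s : ℕ) (hM : 0 < M) (hs : 0 < s) :
    ∃ (c : ℤ) (Q : Finset (Fin 4 → ℤ)), c ≤ ((4 * (M * s) ^ 2 : ℕ) : ℤ) ∧
      (∀ q ∈ Q, (∀ i, 0 ≤ q i) ∧ nm q = c) ∧ s ^ 2 * rho M ≤ 4 * M * Q.card := by
  classical
  set Z := (Fintype.piFinset fun _ : Fin 4 => Ico (0 : ℤ) ((M * s : ℕ) : ℤ)).filter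
      (fun q => (M : ℤ) ∣ nm q) with hZ
  have hM' : (0 : ℤ) < M := by exact_mod_cast hM
  have hbox : ∀ q ∈ Z, (∀ i, 0 ≤ q i) ∧ nm q < 4 * ((M * s : ℕ) : ℤ) ^ 2 ∧ (M : ℤ) ∣ nm q := by
    intro q hq
    rw [hZ, Finset.mem_filter, Fintype.mem_piFinset] at hq
    have h1 : ∀ i, 0 ≤ q i ∧ q i < ((M * s : ℕ) : ℤ) := fun i => Finset.mem_Ico.1 (hq.1 i)
    refine ⟨fun i => (h1 i).1, ?_, hq.2⟩
    have h2 : ∀ i, q i ^ 2 < ((M * s : ℕ) : ℤ) ^ 2 := fun i =>
      pow_lt_pow_left₀ (h1 i).2 (h1 i).1 two_ne_zero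
    unfold nm
    linarith [h2 0, h2 1, h2 2, h2 3]
  have hmaps : ∀ q ∈ Z, (nm q / M).toNat ∈ Finset.range (4 * M * s ^ 2) := by
    intro q hq
    obtain ⟨h1, h2, h3⟩ := hbox q hq
    rw [Finset.mem_range]
    have h4 : nm q / M < ((4 * M * s ^ 2 : ℕ) : ℤ) := by
      rw [Int.ediv_lt_iff_lt_mul hM']
      push_cast at h2 ⊢
      linarith
    have h5 : 0 ≤ nm q / M := Int.ediv_nonneg (by unfold nm; positivity) hM'.le
    omega
  have hpos : 0 < 4 * M * s ^ 2 := by positivity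
  obtain ⟨j, hj, hjc⟩ := Finset.exists_max_image (Finset.range (4 * M * s ^ 2))
    (fun j => (Z.filter (fun q => (nm q / M).toNat = j)).card) ⟨0, Finset.mem_range.2 hpos⟩
  have hsum := Finset.card_eq_sum_card_fiberwise hmaps
  have hle : Z.card ≤ (4 * M * s ^ 2) * (Z.filter (fun q => (nm q / M).toNat = j)).card := by
    rw [hsum]
    refine le_trans (Finset.sum_le_card_nsmul _ _ _ hjc) ?_
    rw [Finset.card_range, smul_eq_mul]
  refine ⟨j * M, Z.filter (fun q => (nm q / M).toNat = j), ?_, ?_, ?_⟩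
  · rw [Finset.mem_range] at hj
    have : j * M ≤ 4 * (M * s) ^ 2 := by
      have h1 : j * M ≤ (4 * M * s ^ 2) * M := Nat.mul_le_mul_right _ hj.le
      refine le_trans h1 (le_of_eq (by ring))
    exact_mod_cast this
  · intro q hq
    rw [Finset.mem_filter] at hq
    obtain ⟨h1, h2, h3⟩ := hbox q hq.1
    refine ⟨h1, ?_⟩
    have h5 : 0 ≤ nm q / M := Int.ediv_nonneg (by unfold nm; positivity) hM'.le
    have h6 : nm q / M = j := by
      have := hq.2
      omega
    rw [← h6]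
    exact (Int.ediv_mul_cancel h3).symm
  · have h1 := (box_count M s hM).trans hle
    have h2 : s ^ 2 * (s ^ 2 * rho M) ≤
        s ^ 2 * (4 * M * (Z.filter (fun q => (nm q / M).toNat = j)).card) := by
      calc s ^ 2 * (s ^ 2 * rho M) = s ^ 4 * rho M := by ring
        _ ≤ _ := h1
        _ = _ := by ring
    exact Nat.le_of_mul_le_mul_left h2 (by positivity)

/-- The finite lower bound. -/
lemma finite_bound (k : ℕ) (hk2 : 2 ≤ k) (hk3 : k ≤ 3) (n y s : ℕ) (hy : 3 ≤ y) (hs : 0 < s)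
    (hn : (3 * (4 * (MM y * s) ^ 2)) ^ 3 ≤ n)
    (hbig : 192 < ((4 * (MM y * s) ^ 2 : ℕ) : ℝ) * Real.log y) :
    ((4 * (MM y * s) ^ 2 : ℕ) : ℝ) ^ 4 * Real.log y ≤ 192 * 256 * (maxCopies 3 k n : ℝ) := by
  classical
  set D : ℕ := 4 * (MM y * s) ^ 2 with hD
  obtain ⟨c, Q, hcD, hQ, hcard⟩ := pigeon (MM y) s (MM_pos y) hs
  rw [← hD] at hcD
  have hM : (0 : ℝ) < MM y := by exact_mod_cast MM_pos y
  have hs' : (0 : ℝ) < s := by exact_mod_cast hs
  have h1 : (D : ℝ) * Real.log y ≤ 192 * Q.card := by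
    have h2 : ((s ^ 2 * rho (MM y) : ℕ) : ℝ) ≤ ((4 * MM y * Q.card : ℕ) : ℝ) := by
      exact_mod_cast hcard
    push_cast at h2
    have h3 := rho_ratio y hy
    have h4 : (s : ℝ) ^ 2 * ((MM y : ℝ) ^ 3 * (Real.log y / 12)) ≤ 4 * MM y * Q.card :=
      le_trans (mul_le_mul_of_nonneg_left h3 (by positivity)) h2
    have h5 : (MM y : ℝ) * ((D : ℝ) * Real.log y) ≤ MM y * (192 * Q.card) := by
      rw [hD]
      push_cast
      calc (MM y : ℝ) * ((4 * ((MM y : ℝ) * (s : ℝ)) ^ 2) * Real.log y)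
          = 48 * ((s : ℝ) ^ 2 * ((MM y : ℝ) ^ 3 * (Real.log y / 12))) := by ring
        _ ≤ 48 * (4 * (MM y : ℝ) * (Q.card : ℝ)) := by linarith
        _ = _ := by ring
    exact le_of_mul_le_mul_left h5 hM
  have hQ2 : 1 < Q.card := by
    by_contra hcon
    have h3 : (Q.card : ℝ) ≤ 1 := by
      have : Q.card ≤ 1 := by omega
      exact_mod_cast this
    linarith
  have hc : 0 < c := by
    obtain ⟨q, hq, q', hq', hne⟩ := Finset.one_lt_card.1 hQ2
    have h1 := (hQ q hq).2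
    have h2 := (hQ q' hq').2
    by_contra hcon
    have hz : ∀ q : Fin 4 → ℤ, nm q = c → q = 0 := by
      intro q hq
      unfold nm at hq
      have e0 := sq_nonneg (q 0)
      have e1 := sq_nonneg (q 1)
      have e2 := sq_nonneg (q 2)
      have e3 := sq_nonneg (q 3)
      have f0 : q 0 ^ 2 = 0 := by linarith
      have f1 : q 1 ^ 2 = 0 := by linarith
      have f2 : q 2 ^ 2 = 0 := by linarith
      have f3 : q 3 ^ 2 = 0 := by linarith
      funext i
      fin_cases i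
      · exact (pow_eq_zero_iff two_ne_zero).1 f0
      · exact (pow_eq_zero_iff two_ne_zero).1 f1
      · exact (pow_eq_zero_iff two_ne_zero).1 f2
      · exact (pow_eq_zero_iff two_ne_zero).1 f3
    exact hne ((hz q h1).trans (hz q' h2).symm)
  have hA := stepA k hk2 hk3 n D c hc hcD hn Q hQ
  have hk4 : (k + 1) ^ (k + 1) ≤ 256 := by
    have : k = 2 ∨ k = 3 := by omega
    rcases this with rfl | rfl <;> norm_num
  have hB : D ^ 3 * Q.card ≤ 256 * maxCopies 3 k n :=
    hA.trans (Nat.mul_le_mul_right _ hk4)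
  have hB' : (D : ℝ) ^ 3 * Q.card ≤ 256 * maxCopies 3 k n := by exact_mod_cast hB
  calc (D : ℝ) ^ 4 * Real.log y = (D : ℝ) ^ 3 * ((D : ℝ) * Real.log y) := by ring
    _ ≤ (D : ℝ) ^ 3 * (192 * Q.card) := mul_le_mul_of_nonneg_left h1 (by positivity)
    _ = 192 * ((D : ℝ) ^ 3 * Q.card) := by ring
    _ ≤ 192 * (256 * maxCopies 3 k n) := by linarith
    _ = _ := by ring

/-- The bound for one large `n`. -/
lemma large_bound (k : ℕ) (hk2 : 2 ≤ k) (hk3 : k ≤ 3) (n : ℕ) (hL : (10000 : ℝ) ≤ Real.log n) :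
    (n : ℝ) ^ ((3 : ℝ) / 2 - 1 / 6) * Real.log (Real.log n) ≤
      6442450944 * (maxCopies 3 k n : ℝ) := by
  set L := Real.log n with hLdef
  have hn0 : (0 : ℝ) < n := by
    rcases Nat.eq_zero_or_pos n with h | h
    · exfalso
      rw [hLdef, h] at hL
      norm_num at hL
    · exact_mod_cast h
  set t := Real.exp (L / 6) with ht
  have ht0 : 0 < t := Real.exp_pos _
  set y := ⌊L / 24⌋₊ with hy
  have hyle : (y : ℝ) ≤ L / 24 := Nat.floor_le (by linarith)
  have hyge : L / 24 - 1 ≤ (y : ℝ) := (Nat.sub_one_lt_floor _).le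
  have hy3 : 3 ≤ y := by
    have : (3 : ℝ) ≤ y := by linarith
    exact_mod_cast this
  have hM : (MM y : ℝ) ≤ Real.exp (L / 12) := by
    have h1 : (MM y : ℝ) ≤ (4 : ℝ) ^ y := by exact_mod_cast MM_le y
    have h2 : (4 : ℝ) ^ y = Real.exp (Real.log 4 * y) := by
      rw [Real.exp_mul, Real.exp_log (by norm_num), Real.rpow_natCast]
    have h3 : Real.log 4 ≤ 2 := by
      have h4 : Real.log 4 = 2 * Real.log 2 := by
        rw [show (4 : ℝ) = 2 ^ 2 by norm_num, Real.log_pow]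
        norm_num
      have := Real.log_two_lt_d9
      rw [h4]
      linarith
    rw [h2] at h1
    refine h1.trans (Real.exp_le_exp.2 ?_)
    have h5 : 0 ≤ (y : ℝ) := by positivity
    nlinarith
  have hMpos : (0 : ℝ) < MM y := by exact_mod_cast MM_pos y
  have hte : t = Real.exp (L / 12) * Real.exp (L / 12) := by
    rw [ht, ← Real.exp_add]
    congr 1
    ring
  have hE : 4 ≤ Real.exp (L / 12) := by
    have := Real.add_one_le_exp (L / 12)
    linarith
  have hquot : 1 ≤ t / (4 * MM y) := by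
    rw [le_div_iff₀ (by positivity), one_mul, hte]
    nlinarith
  set s := ⌊t / (4 * MM y)⌋₊ with hs
  have hsle : (s : ℝ) ≤ t / (4 * MM y) := Nat.floor_le (by linarith)
  have hs1 : 1 ≤ s := by
    rw [hs, Nat.le_floor_iff (by linarith)]
    simpa using hquot
  have hs1' : (1 : ℝ) ≤ s := by exact_mod_cast hs1
  have hsge : t / (8 * MM y) ≤ s := by
    have h1 : t / (4 * MM y) - 1 < s := Nat.sub_one_lt_floor _
    have h2 : t / (8 * MM y) = t / (4 * MM y) / 2 := by
      field_simp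
      norm_num
    rw [h2]
    linarith
  have hKle : (MM y : ℝ) * s ≤ t / 4 := by
    have := mul_le_mul_of_nonneg_left hsle hMpos.le
    refine this.trans (le_of_eq ?_)
    field_simp
  have hKge : t / 8 ≤ (MM y : ℝ) * s := by
    have := mul_le_mul_of_nonneg_left hsge hMpos.le
    refine le_trans (le_of_eq ?_) this
    field_simp
  have ht6 : t ^ 6 = n := by
    rw [ht, ← Real.exp_nat_mul]
    have : ((6 : ℕ) : ℝ) * (L / 6) = L := by push_cast; ring
    rw [this, hLdef, Real.exp_log hn0]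
  have hDle : ((4 * (MM y * s) ^ 2 : ℕ) : ℝ) ≤ t ^ 2 / 4 := by
    push_cast
    have : ((MM y : ℝ) * s) ^ 2 ≤ (t / 4) ^ 2 := pow_le_pow_left₀ (by positivity) hKle 2
    calc 4 * ((MM y : ℝ) * s) ^ 2 ≤ 4 * (t / 4) ^ 2 := by linarith
      _ = t ^ 2 / 4 := by ring
  have hDge : t ^ 2 / 16 ≤ ((4 * (MM y * s) ^ 2 : ℕ) : ℝ) := by
    push_cast
    have : (t / 8) ^ 2 ≤ ((MM y : ℝ) * s) ^ 2 := pow_le_pow_left₀ (by positivity) hKge 2
    calc t ^ 2 / 16 = 4 * (t / 8) ^ 2 := by ring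
      _ ≤ 4 * ((MM y : ℝ) * s) ^ 2 := by linarith
  have hn : (3 * (4 * (MM y * s) ^ 2)) ^ 3 ≤ n := by
    have h1 : ((3 * (4 * (MM y * s) ^ 2) : ℕ) : ℝ) ≤ t ^ 2 := by
      push_cast at hDle ⊢
      have : 0 ≤ t ^ 2 := by positivity
      linarith
    have h2 : (((3 * (4 * (MM y * s) ^ 2)) ^ 3 : ℕ) : ℝ) ≤ n := by
      rw [← ht6]
      calc (((3 * (4 * (MM y * s) ^ 2)) ^ 3 : ℕ) : ℝ)
          = ((3 * (4 * (MM y * s) ^ 2) : ℕ) : ℝ) ^ 3 := by push_cast; ring
        _ ≤ (t ^ 2) ^ 3 := pow_le_pow_left₀ (by positivity) h1 3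
        _ = t ^ 6 := by ring
    exact_mod_cast h2
  have hlogy : Real.log L / 2 ≤ Real.log y := by
    have hL0 : 0 < L := by linarith
    have h1 : Real.log L / 2 = Real.log (Real.sqrt L) := (Real.log_sqrt hL0.le).symm
    rw [h1]
    apply Real.log_le_log (Real.sqrt_pos.2 hL0)
    have h2 : Real.sqrt L * Real.sqrt L = L := Real.mul_self_sqrt hL0.le
    have h3 : 100 ≤ Real.sqrt L := by
      rw [show (100 : ℝ) = Real.sqrt (100 ^ 2) by rw [Real.sqrt_sq (by norm_num)]]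
      apply Real.sqrt_le_sqrt
      linarith
    nlinarith
  have hlogy1 : 1 ≤ Real.log y := by
    have h1 : Real.exp 1 ≤ y := by
      have := Real.exp_one_lt_d9
      linarith
    rw [Real.le_log_iff_exp_le (by linarith)]
    exact h1
  have ht2 : 3334 ≤ t ^ 2 := by
    have h1 : t ^ 2 = Real.exp (L / 3) := by
      rw [ht, ← Real.exp_nat_mul]
      congr 1
      push_cast
      ring
    have := Real.add_one_le_exp (L / 3)
    rw [h1]
    linarith
  have hD0 : 0 ≤ ((4 * (MM y * s) ^ 2 : ℕ) : ℝ) := by positivity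
  have hbig : 192 < ((4 * (MM y * s) ^ 2 : ℕ) : ℝ) * Real.log y := by
    have h1 : (3334 : ℝ) / 16 ≤ ((4 * (MM y * s) ^ 2 : ℕ) : ℝ) := by linarith
    nlinarith
  have hmain := finite_bound k hk2 hk3 n y s hy3 (by omega) hn hbig
  have h8 : (n : ℝ) ^ ((3 : ℝ) / 2 - 1 / 6) = t ^ 8 := by
    rw [Real.rpow_def_of_pos hn0, ht, ← Real.exp_nat_mul, ← hLdef]
    congr 1
    push_cast
    ring
  have h9 : t ^ 8 / 65536 ≤ ((4 * (MM y * s) ^ 2 : ℕ) : ℝ) ^ 4 := by
    calc t ^ 8 / 65536 = (t ^ 2 / 16) ^ 4 := by ring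
      _ ≤ _ := pow_le_pow_left₀ (by positivity) hDge 4
  have hlogL : 0 ≤ Real.log L := Real.log_nonneg (by linarith)
  rw [h8]
  have h10 : t ^ 8 / 65536 * (Real.log L / 2) ≤
      ((4 * (MM y * s) ^ 2 : ℕ) : ℝ) ^ 4 * Real.log y :=
    mul_le_mul h9 hlogy (by positivity) (by positivity)
  linarith

theorem main : ∃ κ : ℝ, 0 < κ ∧ ∀ k : ℕ, (k = 2 ∨ k = 3) → ∀ᶠ n : ℕ in atTop,
    κ * Real.log (Real.log n) ≤ (maxCopies 3 k n : ℝ) / (n : ℝ) ^ ((3 : ℝ) / 2 - 1 / 6) := by
  refine ⟨1 / 6442450944, by norm_num, ?_⟩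
  intro k hk
  have h1 : Tendsto (fun n : ℕ => Real.log n) atTop atTop :=
    Real.tendsto_log_atTop.comp tendsto_natCast_atTop_atTop
  filter_upwards [h1.eventually_ge_atTop 10000, eventually_gt_atTop 0] with n hL hn
  have hn0 : (0 : ℝ) < n := by exact_mod_cast hn
  have h2 := large_bound k (by omega) (by omega) n hL
  rw [le_div_iff₀ (Real.rpow_pos_of_pos hn0 _)]
  linarith

end Pool.Agent.H82.Cong
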