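import Mathlib

set_option autoImplicit false

/-!
# Monotone triangles, the monotone triangle polynomial, alternating sign matrices

Rows, columns and positions are numbered from `0` here.
-/

namespace Pool.Agent.H82.MT

/-- A monotone triangle with `n + 1` rows; row `r` (counted from `0`) has `r + 1` entries.
Every row is strictly increasing and `T (r + 1) j ≤ T r j ≤ T (r + 1) (j + 1)`. -/
def IsMonotoneTriangle (n : ℕ) (T : (r : Fin (n + 1)) → Fin (r.val + 1) → ℤ) : Prop :=
  (∀ r, StrictMono (T r)) ∧ ∀ (r : Fin n) (j : Fin (r.val + 1)),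
    T r.succ j.castSucc ≤ T r.castSucc j ∧ T r.castSucc j ≤ T r.succ j.succ

/-- The number of monotone triangles with `n + 1` rows and bottom row `k`. -/
noncomputable def numTriangles (n : ℕ) (k : Fin (n + 1) → ℤ) : ℕ :=
  Nat.card {T : (r : Fin (n + 1)) → Fin (r.val + 1) → ℤ //
    IsMonotoneTriangle n T ∧ T (Fin.last n) = k}

/-- `P` is the monotone triangle polynomial in `n + 1` variables: at every strictly increasing
integer sequence `k` of length `n + 1` it takes as value the number of monotone triangles with
bottom row `k`. -/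
def IsTrianglePolynomial (n : ℕ) (P : MvPolynomial (Fin (n + 1)) ℚ) : Prop :=
  ∀ k : Fin (n + 1) → ℤ, StrictMono k →
    MvPolynomial.eval (fun p => (k p : ℚ)) P = (numTriangles n k : ℚ)

/-- The nonzero entries of `v`, in order, alternate in sign (each is minus the one before),
and the first and the last of them are `1`. -/
def IsAlternating {n : ℕ} (v : Fin n → ℤ) : Prop :=
  ((List.ofFn v).filter (fun x => x ≠ 0)).head? = some 1 ∧
  ((List.ofFn v).filter (fun x => x ≠ 0)).getLast? = some 1 ∧
  ((List.ofFn v).filter (fun x => x ≠ 0)).IsChain (fun a b => b = -a)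

/-- An alternating sign matrix of size `n`. -/
def IsASM {n : ℕ} (M : Matrix (Fin n) (Fin n) ℤ) : Prop :=
  (∀ i j, M i j = 0 ∨ M i j = 1 ∨ M i j = -1) ∧
  (∀ i, IsAlternating (fun j => M i j)) ∧ ∀ j, IsAlternating (fun i => M i j)

/-- The number of `n × n` alternating sign matrices whose first row has its `1` in
column `j` (columns are numbered from `0`). -/
noncomputable def refinedASM (n : ℕ) (j : Fin n) : ℕ :=
  Nat.card {M : Matrix (Fin n) (Fin n) ℤ // IsASM M ∧ M ⟨0, j.pos⟩ j = 1}

/-- The sequence `(1, ..., i - 1, i + 1, i, i + 1, ..., n)` of length `n + 1`, which is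
`(1, ..., n)` with an additional entry `i + 1` inserted directly before the entry `i`;
positions are numbered from `0`. -/
def holeDescent (n i : ℕ) : Fin (n + 1) → ℤ := fun p =>
  if p.val + 1 < i then (p.val : ℤ) + 1 else if p.val + 1 = i then (i : ℤ) + 1 else (p.val : ℤ)

end Pool.Agent.H82.MT
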