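import Mathlib

set_option autoImplicit false

/-!
# The generalised summation operator behind the monotone triangle polynomial
-/

namespace Pool.Agent.H82.MT

open Finset

/-- Oriented sum over `a ≤ x < b`. -/
noncomputable def osum (a b : ℤ) (g : ℤ → ℤ) : ℤ := ∑ x ∈ Ico a b, g x - ∑ x ∈ Ico b a, g x

lemma osum_self (a : ℤ) (g : ℤ → ℤ) : osum a a g = 0 := by
  unfold osum; simp

lemma osum_right (a b : ℤ) (g : ℤ → ℤ) : osum a (b + 1) g = osum a b g + g b := by
  unfold osum
  rcases le_or_gt a b with h | h
  · have h1 : Ico a (b + 1) = insert b (Ico a b) := by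
      ext x; simp only [mem_Ico, mem_insert]; omega
    have h2 : Ico (b + 1) a = ∅ := by
      rw [Finset.Ico_eq_empty]; omega
    have h3 : Ico b a = ∅ := by
      rw [Finset.Ico_eq_empty]; omega
    rw [h1, h2, h3, Finset.sum_insert (by simp)]
    simp; ring
  · have h1 : Ico b a = insert b (Ico (b + 1) a) := by
      ext x; simp only [mem_Ico, mem_insert]; omega
    have h2 : Ico a (b + 1) = ∅ := by
      rw [Finset.Ico_eq_empty]; omega
    have h3 : Ico a b = ∅ := by
      rw [Finset.Ico_eq_empty]; omega
    rw [h1, h2, h3, Finset.sum_insert (by simp)]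
    simp

lemma osum_left (a b : ℤ) (g : ℤ → ℤ) : osum a b g = g a + osum (a + 1) b g := by
  unfold osum
  rcases lt_or_ge a b with h | h
  · have h1 : Ico a b = insert a (Ico (a + 1) b) := by
      ext x; simp only [mem_Ico, mem_insert]; omega
    have h2 : Ico b (a + 1) = ∅ := by
      rw [Finset.Ico_eq_empty]; omega
    have h3 : Ico b a = ∅ := by
      rw [Finset.Ico_eq_empty]; omega
    rw [h1, h2, h3, Finset.sum_insert (by simp)]
    simp
  · have h1 : Ico b (a + 1) = insert a (Ico b a) := by
      ext x; simp only [mem_Ico, mem_insert]; omega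
    have h2 : Ico a b = ∅ := by
      rw [Finset.Ico_eq_empty]; omega
    have h3 : Ico (a + 1) b = ∅ := by
      rw [Finset.Ico_eq_empty]; omega
    rw [h1, h2, h3, Finset.sum_insert (by simp)]
    simp

lemma osum_zero (a b : ℤ) : osum a b (fun _ => 0) = 0 := by
  unfold osum; simp

lemma osum_add (a b : ℤ) (g h : ℤ → ℤ) :
    osum a b (fun x => g x + h x) = osum a b g + osum a b h := by
  unfold osum; rw [Finset.sum_add_distrib, Finset.sum_add_distrib]; ring

lemma osum_mul (a b c : ℤ) (g : ℤ → ℤ) :
    osum a b (fun x => c * g x) = c * osum a b g := by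
  unfold osum; rw [← Finset.mul_sum, ← Finset.mul_sum]; ring

lemma osum_shift (a b x : ℤ) (g : ℤ → ℤ) :
    osum (a + x) (b + x) g = osum a b (fun y => g (y + x)) := by
  have h : ∀ a b : ℤ, ∑ y ∈ Ico (a + x) (b + x), g y = ∑ y ∈ Ico a b, g (y + x) := by
    intro a b
    rw [← Finset.image_add_right_Ico, Finset.sum_image]
    intro u _ v _ huv
    exact add_right_cancel huv
  unfold osum
  rw [h, h]

/-- The generalised summation: `Saux a t f` is the sum over the interlacing sequences below
`a :: t`, extended by oriented sums to arbitrary integer sequences. -/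
noncomputable def Saux : ℤ → List ℤ → (List ℤ → ℤ) → ℤ
  | _, [], f => f []
  | a, b :: t, f => osum a b (fun x => Saux b t (fun l => f (x :: l))) +
      Saux (b + 1) t (fun l => f (b :: l))

lemma Saux_nil (a : ℤ) (f : List ℤ → ℤ) : Saux a [] f = f [] := rfl

lemma Saux_cons (a b : ℤ) (t : List ℤ) (f : List ℤ → ℤ) : Saux a (b :: t) f =
    osum a b (fun x => Saux b t (fun l => f (x :: l))) + Saux (b + 1) t (fun l => f (b :: l)) :=
  rfl

lemma Saux_zero (t : List ℤ) : ∀ a, Saux a t (fun _ => 0) = 0 := by
  induction t with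
  | nil => intro a; rfl
  | cons b t ih =>
    intro a
    rw [Saux_cons, ih]
    simp only [ih, osum_zero, add_zero]

lemma Saux_add (t : List ℤ) : ∀ (a : ℤ) (f g : List ℤ → ℤ),
    Saux a t (fun l => f l + g l) = Saux a t f + Saux a t g := by
  induction t with
  | nil => intro a f g; rfl
  | cons b t ih =>
    intro a f g
    rw [Saux_cons, Saux_cons, Saux_cons]
    simp only [ih]
    rw [osum_add]
    ring

lemma Saux_mul (t : List ℤ) : ∀ (a c : ℤ) (f : List ℤ → ℤ),
    Saux a t (fun l => c * f l) = c * Saux a t f := by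
  induction t with
  | nil => intro a c f; rfl
  | cons b t ih =>
    intro a c f
    rw [Saux_cons, Saux_cons]
    simp only [ih]
    rw [osum_mul]
    ring

lemma Saux_shift (t : List ℤ) : ∀ (a x : ℤ) (f : List ℤ → ℤ),
    Saux (a + x) (t.map (· + x)) f = Saux a t (fun l => f (l.map (· + x))) := by
  induction t with
  | nil => intro a x f; rfl
  | cons b t ih =>
    intro a x f
    rw [List.map_cons, Saux_cons, Saux_cons, osum_shift]
    have h : b + x + 1 = (b + 1) + x := by ring
    rw [h, ih]
    congr 1
    simp only [ih]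
    rfl

/-- The functional appearing when the first argument of `Saux` is moved. -/
noncomputable def Ev : List ℤ → (List ℤ → ℤ) → ℤ
  | [], _ => 0
  | b :: t, f => Saux b t f

lemma Saux_step (a : ℤ) (t : List ℤ) (f : List ℤ → ℤ) :
    Saux a t f = Saux (a + 1) t f + Ev t (fun l => f (a :: l)) := by
  cases t with
  | nil => simp [Saux, Ev]
  | cons b t =>
    rw [Saux_cons, Saux_cons, Ev, osum_left]
    ring

/-! ### Linear relations between words -/

/-- `ev ρ x g` is `∑ c * g (w + x)` over the pairs `(c, w)` in `ρ`. -/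
def ev (ρ : List (ℤ × List ℤ)) (x : ℤ) (g : List ℤ → ℤ) : ℤ :=
  (ρ.map (fun cw => cw.1 * g (cw.2.map (· + x)))).sum

/-- `f` satisfies the local relation `ρ` at every place. -/
def Rel (ρ : List (ℤ × List ℤ)) (f : List ℤ → ℤ) : Prop :=
  ∀ (u v : List ℤ) (x : ℤ), ev ρ x (fun w => f (u ++ (w ++ v))) = 0

lemma ev_add (ρ : List (ℤ × List ℤ)) (x : ℤ) (g h : List ℤ → ℤ) :
    ev ρ x (fun w => g w + h w) = ev ρ x g + ev ρ x h := by
  unfold ev
  induction ρ with
  | nil => simp
  | cons c ρ ih =>
    simp only [List.map_cons, List.sum_cons]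
    rw [ih]; ring

lemma ev_zero (ρ : List (ℤ × List ℤ)) (x : ℤ) : ev ρ x (fun _ => 0) = 0 := by
  unfold ev
  induction ρ with
  | nil => simp
  | cons c ρ ih =>
    simp only [List.map_cons, List.sum_cons]
    rw [ih]; ring

lemma ev_congr (ρ : List (ℤ × List ℤ)) (x : ℤ) (g h : List ℤ → ℤ)
    (hgh : ∀ cw ∈ ρ, g (cw.2.map (· + x)) = h (cw.2.map (· + x))) : ev ρ x g = ev ρ x h := by
  unfold ev
  congr 1
  apply List.map_congr_left
  intro cw hcw
  rw [hgh cw hcw]

lemma ev_osum (ρ : List (ℤ × List ℤ)) (x a b : ℤ) (g : ℤ → List ℤ → ℤ) :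
    ev ρ x (fun w => osum a b (fun y => g y w)) = osum a b (fun y => ev ρ x (fun w => g y w)) := by
  unfold ev
  induction ρ with
  | nil => simp [osum_zero]
  | cons c ρ ih =>
    simp only [List.map_cons, List.sum_cons]
    rw [ih, osum_add, osum_mul]

/-- linear functionals of the form `Saux a t` commute with `ev`. -/
lemma ev_Saux (ρ : List (ℤ × List ℤ)) (x a : ℤ) (t : List ℤ) (g : List ℤ → List ℤ → ℤ) :
    ev ρ x (fun w => Saux a t (g w)) = Saux a t (fun l => ev ρ x (fun w => g w l)) := by
  unfold ev
  induction ρ with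
  | nil => simp [Saux_zero]
  | cons c ρ ih =>
    simp only [List.map_cons, List.sum_cons]
    rw [ih, Saux_add, Saux_mul]

lemma ev_Ev (ρ : List (ℤ × List ℤ)) (x : ℤ) (t : List ℤ) (g : List ℤ → List ℤ → ℤ) :
    ev ρ x (fun w => Ev t (g w)) = Ev t (fun l => ev ρ x (fun w => g w l)) := by
  cases t with
  | nil => simp only [Ev]; exact ev_zero ρ x
  | cons b t => simp only [Ev]; exact ev_Saux ρ x b t g

lemma Rel.cons {ρ : List (ℤ × List ℤ)} {f : List ℤ → ℤ} (h : Rel ρ f) (a : ℤ) :
    Rel ρ (fun l => f (a :: l)) := by
  intro u v x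
  exact h (a :: u) v x

/-- Relations are inherited by the functionals. -/
lemma Rel.saux {ρ : List (ℤ × List ℤ)} {f : List ℤ → ℤ} (h : Rel ρ f) (a : ℤ) (t : List ℤ) :
    Rel ρ (fun p => Saux a t (fun l => f (p ++ l))) := by
  intro u v x
  show ev ρ x (fun w => Saux a t (fun l => f ((u ++ (w ++ v)) ++ l))) = 0
  rw [ev_Saux ρ x a t (fun w l => f ((u ++ (w ++ v)) ++ l))]
  have : (fun l => ev ρ x (fun w => f ((u ++ (w ++ v)) ++ l))) = fun _ => 0 := by
    funext l
    have := h u (v ++ l) x
    simpa [List.append_assoc] using this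
  rw [this, Saux_zero]

lemma Rel.evv {ρ : List (ℤ × List ℤ)} {f : List ℤ → ℤ} (h : Rel ρ f) (t : List ℤ) :
    Rel ρ (fun p => Ev t (fun l => f (p ++ l))) := by
  cases t with
  | nil =>
    intro u v x
    simp only [Ev]
    exact ev_zero ρ x
  | cons b t => exact h.saux b t

lemma Rel.shift {ρ : List (ℤ × List ℤ)} {f : List ℤ → ℤ} (h : Rel ρ f) (y : ℤ) :
    Rel ρ (fun l => f (l.map (· + y))) := by
  intro u v x
  have := h (u.map (· + y)) (v.map (· + y)) (x + y)
  unfold ev at this ⊢
  rw [← this]
  congr 1
  apply List.map_congr_left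
  intro cw _
  simp only [List.map_append, List.map_map]
  congr 3
  congr 1
  apply List.map_congr_left
  intro z _
  simp only [Function.comp]
  ring

/-- The summation operator on functions of sequences. -/
noncomputable def SS (f : List ℤ → ℤ) : List ℤ → ℤ
  | [] => 0
  | a :: t => Saux a t f

/-- **Closure lemma.** If a translation and prefix invariant class `P` of functions is such that
the relation `ρ` holds for `SS f` at the left end, and one place further, then it holds for `SS f`
everywhere. -/
lemma closure (ρ : List (ℤ × List ℤ)) (hρ : ∀ cw ∈ ρ, cw.2 ≠ [])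
    (P : (List ℤ → ℤ) → Prop)
    (hPc : ∀ f a, P f → P (fun l => f (a :: l)))
    (hPs : ∀ f y, P f → P (fun l => f (l.map (· + y))))
    (hE1 : ∀ f, P f → ∀ v, ev ρ 0 (fun w => SS f (w ++ v)) = 0)
    (hE2 : ∀ f, P f → ∀ v, ev ρ 0 (fun w => Saux 0 (w ++ v) f) = 0) :
    ∀ f, P f → Rel ρ (SS f) := by
  -- translation
  have hE1' : ∀ f, P f → ∀ v x, ev ρ x (fun w => SS f (w ++ v)) = 0 := by
    intro f hf v x
    have h1 := hE1 _ (hPs f x hf) (v.map (· + -x))
    unfold ev at h1 ⊢
    rw [← h1]
    congr 1
    apply List.map_congr_left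
    intro cw hcw
    congr 1
    have hne := hρ cw hcw
    cases hw : cw.2 with
    | nil => exact absurd hw hne
    | cons b w =>
      simp only [List.map_cons, List.cons_append, SS]
      have h2 : List.map (· + x) w ++ v =
          (List.map (· + 0) w ++ List.map (· + -x) v).map (· + x) := by
        rw [List.map_append, List.map_map, List.map_map]
        congr 1
        · apply List.map_congr_left
          intro z _; simp [Function.comp]
        · conv_lhs => rw [← List.map_id v]
          apply List.map_congr_left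
          intro z _; simp [Function.comp]
      have h3 : b + 0 = b := add_zero b
      rw [h2, Saux_shift, h3]
  have hE2' : ∀ f, P f → ∀ v x, ev ρ x (fun w => Saux x (w ++ v) f) = 0 := by
    intro f hf v x
    have h1 := hE2 _ (hPs f x hf) (v.map (· + -x))
    unfold ev at h1 ⊢
    rw [← h1]
    congr 1
    apply List.map_congr_left
    intro cw hcw
    congr 1
    have h2 : List.map (· + x) cw.2 ++ v =
        (List.map (· + 0) cw.2 ++ List.map (· + -x) v).map (· + x) := by
      rw [List.map_append, List.map_map, List.map_map]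
      congr 1
      · apply List.map_congr_left
        intro z _; simp [Function.comp]
      · conv_lhs => rw [← List.map_id v]
        apply List.map_congr_left
        intro z _; simp [Function.comp]
    have h3 := Saux_shift (List.map (· + 0) cw.2 ++ List.map (· + -x) v) 0 x f
    rw [zero_add, ← h2] at h3
    exact h3
  -- moving the left neighbour
  have hT : ∀ f, P f → ∀ v x a, ev ρ x (fun w => Saux a (w ++ v) f) =
      ev ρ x (fun w => Saux (a + 1) (w ++ v) f) := by
    intro f hf v x a
    have h1 := hE1' _ (hPc f a hf) v x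
    have h2 : ev ρ x (fun w => Saux a (w ++ v) f) =
        ev ρ x (fun w => Saux (a + 1) (w ++ v) f + SS (fun l => f (a :: l)) (w ++ v)) := by
      apply ev_congr
      intro cw hcw
      have hne := hρ cw hcw
      cases hw : cw.2 with
      | nil => exact absurd hw hne
      | cons b w =>
        rw [List.map_cons, List.cons_append, Saux_step]
        rfl
    rw [h2, ev_add, h1, add_zero]
  have hT0 : ∀ f, P f → ∀ v x a, ev ρ x (fun w => Saux a (w ++ v) f) = 0 := by
    intro f hf v x a
    have key : ∀ n : ℕ, ∀ a : ℤ, ev ρ x (fun w => Saux a (w ++ v) f) =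
        ev ρ x (fun w => Saux (a + n) (w ++ v) f) := by
      intro n
      induction n with
      | zero => intro a; simp
      | succ n ih =>
        intro a
        rw [ih a, hT f hf v x (a + n)]
        push_cast
        rw [add_assoc]
    rcases le_total a x with h | h
    · have h1 := key (x - a).toNat a
      have h2 : a + ((x - a).toNat : ℤ) = x := by omega
      rw [h2] at h1
      rw [h1]
      exact hE2' f hf v x
    · have h1 := key (a - x).toNat x
      have h2 : x + ((a - x).toNat : ℤ) = a := by omega
      rw [h2] at h1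
      rw [← h1]
      exact hE2' f hf v x
  -- longer prefixes
  have hU : ∀ (u : List ℤ), ∀ f, P f → ∀ v x a,
      ev ρ x (fun w => Saux a (u ++ (w ++ v)) f) = 0 := by
    intro u
    induction u with
    | nil =>
      intro f hf v x a
      simp only [List.nil_append]
      exact hT0 f hf v x a
    | cons b u ih =>
      intro f hf v x a
      simp only [List.cons_append, Saux_cons]
      rw [ev_add, ev_osum ρ x a b (fun y w => Saux b (u ++ (w ++ v)) (fun l => f (y :: l)))]
      rw [ih _ (hPc f b hf)]
      have : (fun y => ev ρ x (fun w => Saux b (u ++ (w ++ v)) (fun l => f (y :: l)))) =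
          fun _ => 0 := by
        funext y
        exact ih _ (hPc f y hf) v x b
      rw [this, osum_zero, add_zero]
  intro f hf u v x
  cases u with
  | nil =>
    simp only [List.nil_append]
    exact hE1' f hf v x
  | cons a u =>
    simp only [List.cons_append, SS]
    exact hU u f hf v x a

end Pool.Agent.H82.MT
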