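import Mathlib
import Pool.Agent.H82.MTSum

set_option autoImplicit false
set_option linter.unusedSimpArgs false

/-!
# Local relations of the monotone triangle polynomial
-/

namespace Pool.Agent.H82.MT

open Finset

lemma osum_symm (a b : ℤ) (g : ℤ → ℤ) : osum b a g = - osum a b g := by
  unfold osum; ring

lemma os01 (g : ℤ → ℤ) : osum 0 1 g = g 0 := by
  have := osum_right 0 0 g
  rw [osum_self] at this
  norm_num at this
  exact this

lemma os02 (g : ℤ → ℤ) : osum 0 2 g = g 0 + g 1 := by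
  have := osum_right 0 1 g
  rw [os01] at this
  norm_num at this
  exact this

lemma os03 (g : ℤ → ℤ) : osum 0 3 g = g 0 + g 1 + g 2 := by
  have := osum_right 0 2 g
  rw [os02] at this
  norm_num at this
  exact this

lemma os12 (g : ℤ → ℤ) : osum 1 2 g = g 1 := by
  have := osum_right 1 1 g
  rw [osum_self] at this
  norm_num at this
  exact this

lemma os13 (g : ℤ → ℤ) : osum 1 3 g = g 1 + g 2 := by
  have := osum_right 1 2 g
  rw [os12] at this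
  norm_num at this
  exact this

lemma os23 (g : ℤ → ℤ) : osum 2 3 g = g 2 := by
  have := osum_right 2 2 g
  rw [osum_self] at this
  norm_num at this
  exact this

lemma os10 (g : ℤ → ℤ) : osum 1 0 g = - g 0 := by rw [osum_symm, os01]
lemma os20 (g : ℤ → ℤ) : osum 2 0 g = - (g 0 + g 1) := by rw [osum_symm, os02]
lemma os30 (g : ℤ → ℤ) : osum 3 0 g = - (g 0 + g 1 + g 2) := by rw [osum_symm, os03]
lemma os21 (g : ℤ → ℤ) : osum 2 1 g = - g 1 := by rw [osum_symm, os12]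
lemma os31 (g : ℤ → ℤ) : osum 3 1 g = - (g 1 + g 2) := by rw [osum_symm, os13]
lemma os32 (g : ℤ → ℤ) : osum 3 2 g = - g 2 := by rw [osum_symm, os23]

lemma st0 (v : List ℤ) (f : List ℤ → ℤ) : Saux 0 v f = Saux 3 v f +
    Ev v (fun l => f (0 :: l)) + Ev v (fun l => f (1 :: l)) + Ev v (fun l => f (2 :: l)) := by
  have h0 := Saux_step 0 v f
  have h1 := Saux_step 1 v f
  have h2 := Saux_step 2 v f
  norm_num at h0 h1 h2
  rw [h0, h1, h2]; ring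

lemma st1 (v : List ℤ) (f : List ℤ → ℤ) : Saux 1 v f = Saux 3 v f +
    Ev v (fun l => f (1 :: l)) + Ev v (fun l => f (2 :: l)) := by
  have h1 := Saux_step 1 v f
  have h2 := Saux_step 2 v f
  norm_num at h1 h2
  rw [h1, h2]; ring

lemma st2 (v : List ℤ) (f : List ℤ → ℤ) : Saux 2 v f = Saux 3 v f +
    Ev v (fun l => f (2 :: l)) := by
  have h2 := Saux_step 2 v f
  norm_num at h2
  rw [h2]

/-- `(x, x, x)` -/
def ρ1 : List (ℤ × List ℤ) := [(1, [0, 0, 0])]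

/-- `(x, x) - (x, x+1) + (x+1, x+1)` -/
def ρ0 : List (ℤ × List ℤ) := [(1, [0, 0]), (-1, [0, 1]), (1, [1, 1])]

/-- `(x, x+1, x) + (x+1, x, x+1) + (x, x, x+1)` -/
def ρ4 : List (ℤ × List ℤ) := [(1, [0, 1, 0]), (1, [1, 0, 1]), (1, [0, 0, 1])]

/-- `(x, x+2, x+1, x+2) - (x+1, x, x+1, x+2) - (x, x+1, x+1, x+2)` -/
def ρ3 : List (ℤ × List ℤ) := [(1, [0, 2, 1, 2]), (-1, [1, 0, 1, 2]), (-1, [0, 1, 1, 2])]

/-- The three basic relations. -/
def PP (f : List ℤ → ℤ) : Prop := Rel ρ1 f ∧ Rel ρ0 f ∧ Rel ρ4 f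


lemma R1_E1 (f : List ℤ → ℤ) (hf : PP f) (v : List ℤ) :
    ev ρ1 0 (fun w => SS f (w ++ v)) = 0 := by
  have E1 := hf.1.evv v
  have h0 := E1 [] [] 0
  simp [ev, ρ1, ρ0, ρ4] at h0
  simp only [ev, ρ1, SS, List.map_cons, List.map_nil, List.sum_cons, List.sum_nil, List.cons_append,
    List.nil_append]
  norm_num [Saux_cons, osum_self, os01, os02, os03, os12, os13, os23, os10, os20, os30, os21, os31, os32]
  try simp only [st0, st1, st2]
  linarith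


lemma R1_E2 (f : List ℤ → ℤ) (hf : PP f) (v : List ℤ) :
    ev ρ1 0 (fun w => Saux 0 (w ++ v) f) = 0 := by
  have B1 := hf.1.saux 3 v
  have E1 := hf.1.evv v
  have h0 := B1 [] [] 0
  have h1 := E1 [] [0] 0
  have h2 := E1 [] [1] 0
  have h3 := E1 [] [2] 0
  simp [ev, ρ1, ρ0, ρ4] at h0
  simp [ev, ρ1, ρ0, ρ4] at h1
  simp [ev, ρ1, ρ0, ρ4] at h2
  simp [ev, ρ1, ρ0, ρ4] at h3
  simp only [ev, ρ1, SS, List.map_cons, List.map_nil, List.sum_cons, List.sum_nil, List.cons_append,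
    List.nil_append]
  norm_num [Saux_cons, osum_self, os01, os02, os03, os12, os13, os23, os10, os20, os30, os21, os31, os32]
  try simp only [st0, st1, st2]
  linarith


lemma R0_E1 (f : List ℤ → ℤ) (hf : PP f) (v : List ℤ) :
    ev ρ0 0 (fun w => SS f (w ++ v)) = 0 := by
  clear hf
  simp only [ev, ρ0, SS, List.map_cons, List.map_nil, List.sum_cons, List.sum_nil, List.cons_append,
    List.nil_append]
  norm_num [Saux_cons, osum_self, os01, os02, os03, os12, os13, os23, os10, os20, os30, os21, os31, os32]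
  try simp only [st0, st1, st2]


lemma R0_E2 (f : List ℤ → ℤ) (hf : PP f) (v : List ℤ) :
    ev ρ0 0 (fun w => Saux 0 (w ++ v) f) = 0 := by
  have E1 := hf.1.evv v
  have h0 := E1 [] [] 0
  have h1 := E1 [] [] 1
  simp [ev, ρ1, ρ0, ρ4] at h0
  simp [ev, ρ1, ρ0, ρ4] at h1
  simp only [ev, ρ0, SS, List.map_cons, List.map_nil, List.sum_cons, List.sum_nil, List.cons_append,
    List.nil_append]
  norm_num [Saux_cons, osum_self, os01, os02, os03, os12, os13, os23, os10, os20, os30, os21, os31, os32]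
  try simp only [st0, st1, st2]
  linarith


lemma R4_E1 (f : List ℤ → ℤ) (hf : PP f) (v : List ℤ) :
    ev ρ4 0 (fun w => SS f (w ++ v)) = 0 := by
  have B0 := hf.2.1.saux 3 v
  have E0 := hf.2.1.evv v
  have E4 := hf.2.2.evv v
  have h0 := B0 [] [] 0
  have h1 := E0 [] [0] 0
  have h2 := E0 [] [2] 0
  have h3 := E0 [1] [] 0
  have h4 := E4 [] [] 0
  simp [ev, ρ1, ρ0, ρ4] at h0
  simp [ev, ρ1, ρ0, ρ4] at h1
  simp [ev, ρ1, ρ0, ρ4] at h2
  simp [ev, ρ1, ρ0, ρ4] at h3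
  simp [ev, ρ1, ρ0, ρ4] at h4
  simp only [ev, ρ4, SS, List.map_cons, List.map_nil, List.sum_cons, List.sum_nil, List.cons_append,
    List.nil_append]
  norm_num [Saux_cons, osum_self, os01, os02, os03, os12, os13, os23, os10, os20, os30, os21, os31, os32]
  try simp only [st0, st1, st2]
  linarith


lemma R4_E2 (f : List ℤ → ℤ) (hf : PP f) (v : List ℤ) :
    ev ρ4 0 (fun w => Saux 0 (w ++ v) f) = 0 := by
  have B1 := hf.1.saux 3 v
  have B0 := hf.2.1.saux 3 v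
  have B4 := hf.2.2.saux 3 v
  have E1 := hf.1.evv v
  have E0 := hf.2.1.evv v
  have E4 := hf.2.2.evv v
  have h0 := B0 [] [0] 0
  have h1 := B0 [] [1] 0
  have h2 := B0 [1] [] 0
  have h3 := B1 [] [] 0
  have h4 := B1 [] [] 1
  have h5 := B4 [] [] 0
  have h6 := E0 [] [0, 1] 0
  have h7 := E0 [] [0, 2] 0
  have h8 := E0 [] [1, 0] 0
  have h9 := E0 [] [1, 1] 0
  have h10 := E0 [] [1, 2] 0
  have h11 := E0 [1] [0] 0
  have h12 := E0 [1] [1] 0
  have h13 := E0 [1] [2] 0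
  have h14 := E1 [] [1] 0
  have h15 := E1 [] [2] 0
  have h16 := E1 [] [2] 1
  have h17 := E1 [1] [] 0
  have h18 := E4 [] [0] 0
  have h19 := E4 [] [1] 0
  have h20 := E4 [] [2] 0
  simp [ev, ρ1, ρ0, ρ4] at h0
  simp [ev, ρ1, ρ0, ρ4] at h1
  simp [ev, ρ1, ρ0, ρ4] at h2
  simp [ev, ρ1, ρ0, ρ4] at h3
  simp [ev, ρ1, ρ0, ρ4] at h4
  simp [ev, ρ1, ρ0, ρ4] at h5
  simp [ev, ρ1, ρ0, ρ4] at h6
  simp [ev, ρ1, ρ0, ρ4] at h7
  simp [ev, ρ1, ρ0, ρ4] at h8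
  simp [ev, ρ1, ρ0, ρ4] at h9
  simp [ev, ρ1, ρ0, ρ4] at h10
  simp [ev, ρ1, ρ0, ρ4] at h11
  simp [ev, ρ1, ρ0, ρ4] at h12
  simp [ev, ρ1, ρ0, ρ4] at h13
  simp [ev, ρ1, ρ0, ρ4] at h14
  simp [ev, ρ1, ρ0, ρ4] at h15
  simp [ev, ρ1, ρ0, ρ4] at h16
  simp [ev, ρ1, ρ0, ρ4] at h17
  simp [ev, ρ1, ρ0, ρ4] at h18
  simp [ev, ρ1, ρ0, ρ4] at h19
  simp [ev, ρ1, ρ0, ρ4] at h20
  simp only [ev, ρ4, SS, List.map_cons, List.map_nil, List.sum_cons, List.sum_nil, List.cons_append,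
    List.nil_append]
  norm_num [Saux_cons, osum_self, os01, os02, os03, os12, os13, os23, os10, os20, os30, os21, os31, os32]
  try simp only [st0, st1, st2]
  linarith


lemma R3_E1 (f : List ℤ → ℤ) (hf : PP f) (v : List ℤ) :
    ev ρ3 0 (fun w => SS f (w ++ v)) = 0 := by
  have B0 := hf.2.1.saux 3 v
  have B4 := hf.2.2.saux 3 v
  have E1 := hf.1.evv v
  have E0 := hf.2.1.evv v
  have E4 := hf.2.2.evv v
  have h0 := B0 [] [1] 0
  have h1 := B0 [] [2] 0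
  have h2 := B0 [] [1] 1
  have h3 := B0 [2] [] 1
  have h4 := B4 [] [] 1
  have h5 := E0 [] [1, 2] 0
  have h6 := E0 [] [1, 2] 1
  have h7 := E0 [] [2, 2] 1
  have h8 := E0 [2] [2] 1
  have h9 := E1 [1] [] 2
  have h10 := E4 [] [2] 1
  simp [ev, ρ1, ρ0, ρ4] at h0
  simp [ev, ρ1, ρ0, ρ4] at h1
  simp [ev, ρ1, ρ0, ρ4] at h2
  simp [ev, ρ1, ρ0, ρ4] at h3
  simp [ev, ρ1, ρ0, ρ4] at h4
  simp [ev, ρ1, ρ0, ρ4] at h5
  simp [ev, ρ1, ρ0, ρ4] at h6
  simp [ev, ρ1, ρ0, ρ4] at h7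
  simp [ev, ρ1, ρ0, ρ4] at h8
  simp [ev, ρ1, ρ0, ρ4] at h9
  simp [ev, ρ1, ρ0, ρ4] at h10
  simp only [ev, ρ3, SS, List.map_cons, List.map_nil, List.sum_cons, List.sum_nil, List.cons_append,
    List.nil_append]
  norm_num [Saux_cons, osum_self, os01, os02, os03, os12, os13, os23, os10, os20, os30, os21, os31, os32]
  try simp only [st0, st1, st2]
  linarith


lemma R3_E2 (f : List ℤ → ℤ) (hf : PP f) (v : List ℤ) :
    ev ρ3 0 (fun w => Saux 0 (w ++ v) f) = 0 := by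
  have B1 := hf.1.saux 3 v
  have B0 := hf.2.1.saux 3 v
  have B4 := hf.2.2.saux 3 v
  have E1 := hf.1.evv v
  have E0 := hf.2.1.evv v
  have E4 := hf.2.2.evv v
  have h0 := B0 [] [0, 1] 0
  have h1 := B0 [] [0, 2] 0
  have h2 := B0 [] [1, 1] 0
  have h3 := B0 [] [1, 2] 0
  have h4 := B0 [0] [1] 1
  have h5 := B0 [0, 2] [] 1
  have h6 := B0 [1] [1] 0
  have h7 := B0 [1] [2] 0
  have h8 := B1 [] [2] 1
  have h9 := B4 [] [1] 0
  have h10 := B4 [] [2] 0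
  have h11 := B4 [0] [] 1
  have h12 := E0 [] [0, 1, 2] 0
  have h13 := E0 [] [1, 1, 2] 0
  have h14 := E0 [0] [1, 2] 1
  have h15 := E0 [0] [2, 2] 1
  have h16 := E0 [0, 2] [2] 1
  have h17 := E0 [1] [1, 2] 0
  have h18 := E1 [0, 1] [] 2
  have h19 := E4 [] [1, 2] 0
  have h20 := E4 [0] [2] 1
  simp [ev, ρ1, ρ0, ρ4] at h0
  simp [ev, ρ1, ρ0, ρ4] at h1
  simp [ev, ρ1, ρ0, ρ4] at h2
  simp [ev, ρ1, ρ0, ρ4] at h3
  simp [ev, ρ1, ρ0, ρ4] at h4
  simp [ev, ρ1, ρ0, ρ4] at h5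
  simp [ev, ρ1, ρ0, ρ4] at h6
  simp [ev, ρ1, ρ0, ρ4] at h7
  simp [ev, ρ1, ρ0, ρ4] at h8
  simp [ev, ρ1, ρ0, ρ4] at h9
  simp [ev, ρ1, ρ0, ρ4] at h10
  simp [ev, ρ1, ρ0, ρ4] at h11
  simp [ev, ρ1, ρ0, ρ4] at h12
  simp [ev, ρ1, ρ0, ρ4] at h13
  simp [ev, ρ1, ρ0, ρ4] at h14
  simp [ev, ρ1, ρ0, ρ4] at h15
  simp [ev, ρ1, ρ0, ρ4] at h16
  simp [ev, ρ1, ρ0, ρ4] at h17
  simp [ev, ρ1, ρ0, ρ4] at h18
  simp [ev, ρ1, ρ0, ρ4] at h19
  simp [ev, ρ1, ρ0, ρ4] at h20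
  simp only [ev, ρ3, SS, List.map_cons, List.map_nil, List.sum_cons, List.sum_nil, List.cons_append,
    List.nil_append]
  norm_num [Saux_cons, osum_self, os01, os02, os03, os12, os13, os23, os10, os20, os30, os21, os31, os32]
  try simp only [st0, st1, st2]
  linarith


end Pool.Agent.H82.MT
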