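import Mathlib
import Pool.Agent.H82.MTRel

set_option autoImplicit false

/-!
# The values of the generalised sums at a row with one hole and one descent
-/

namespace Pool.Agent.H82.MT

open Finset

/-- The recursively defined function; `al n` is relevant on lists of length `n + 1`. -/
noncomputable def al : ℕ → List ℤ → ℤ
  | 0 => fun l => if l.length = 1 then 1 else 0
  | n + 1 => SS (al n)

lemma PP_cons (f : List ℤ → ℤ) (a : ℤ) (hf : PP f) : PP (fun l => f (a :: l)) :=
  ⟨hf.1.cons a, hf.2.1.cons a, hf.2.2.cons a⟩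

lemma PP_shift (f : List ℤ → ℤ) (y : ℤ) (hf : PP f) : PP (fun l => f (l.map (· + y))) :=
  ⟨hf.1.shift y, hf.2.1.shift y, hf.2.2.shift y⟩

lemma al_zero_of_length {l : List ℤ} (h : 2 ≤ l.length) : al 0 l = 0 := by
  have : ¬ l.length = 1 := by omega
  simp [al, this]

lemma rel_al_zero (ρ : List (ℤ × List ℤ)) (hρ : ∀ cw ∈ ρ, 2 ≤ cw.2.length) : Rel ρ (al 0) := by
  intro u v x
  rw [← ev_zero ρ x]
  apply ev_congr
  intro cw hcw
  apply al_zero_of_length
  have := hρ cw hcw
  simp only [List.length_append, List.length_map]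
  omega

lemma PP_al (n : ℕ) : PP (al n) := by
  induction n with
  | zero =>
    refine ⟨rel_al_zero _ ?_, rel_al_zero _ ?_, rel_al_zero _ ?_⟩
    · intro cw hcw; simp only [ρ1, List.mem_singleton] at hcw; subst hcw; simp
    · intro cw hcw
      simp only [ρ0, List.mem_cons, List.not_mem_nil, or_false] at hcw
      rcases hcw with rfl | rfl | rfl <;> simp
    · intro cw hcw
      simp only [ρ4, List.mem_cons, List.not_mem_nil, or_false] at hcw
      rcases hcw with rfl | rfl | rfl <;> simp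
  | succ n ih =>
    refine ⟨closure ρ1 ?_ PP PP_cons PP_shift R1_E1 R1_E2 _ ih,
      closure ρ0 ?_ PP PP_cons PP_shift R0_E1 R0_E2 _ ih,
      closure ρ4 ?_ PP PP_cons PP_shift R4_E1 R4_E2 _ ih⟩
    · intro cw hcw; simp only [ρ1, List.mem_singleton] at hcw; subst hcw; simp
    · intro cw hcw
      simp only [ρ0, List.mem_cons, List.not_mem_nil, or_false] at hcw
      rcases hcw with rfl | rfl | rfl <;> simp
    · intro cw hcw
      simp only [ρ4, List.mem_cons, List.not_mem_nil, or_false] at hcw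
      rcases hcw with rfl | rfl | rfl <;> simp

lemma rel3_al (n : ℕ) : Rel ρ3 (al n) := by
  cases n with
  | zero =>
    apply rel_al_zero
    intro cw hcw
    simp only [ρ3, List.mem_cons, List.not_mem_nil, or_false] at hcw
    rcases hcw with rfl | rfl | rfl <;> simp
  | succ n =>
    refine closure ρ3 ?_ PP PP_cons PP_shift R3_E1 R3_E2 _ (PP_al n)
    intro cw hcw
    simp only [ρ3, List.mem_cons, List.not_mem_nil, or_false] at hcw
    rcases hcw with rfl | rfl | rfl <;> simp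

lemma al_rel3 (n : ℕ) (u v : List ℤ) (x : ℤ) :
    al n (u ++ x :: (x + 2) :: (x + 1) :: (x + 2) :: v) =
      al n (u ++ (x + 1) :: x :: (x + 1) :: (x + 2) :: v) +
      al n (u ++ x :: (x + 1) :: (x + 1) :: (x + 2) :: v) := by
  have h := rel3_al n u v x
  simp only [ev, ρ3, List.map_cons, List.map_nil, List.sum_cons, List.sum_nil,
    List.cons_append, List.nil_append] at h
  have e1 : 1 + x = x + 1 := by ring
  have e2 : 2 + x = x + 2 := by ring
  rw [zero_add, e1, e2] at h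
  linarith

lemma al_rel2 (n : ℕ) (u v : List ℤ) (x : ℤ) :
    al n (u ++ x :: x :: (x + 1) :: v) = al n (u ++ x :: (x + 1) :: (x + 1) :: v) := by
  have h := (PP_al n).2.1 u ((x + 1) :: v) x
  have h' := (PP_al n).1 u v (x + 1)
  simp only [ev, ρ0, ρ1, List.map_cons, List.map_nil, List.sum_cons, List.sum_nil,
    List.cons_append, List.nil_append] at h h'
  have e1 : 1 + x = x + 1 := by ring
  rw [zero_add, e1] at h
  rw [zero_add] at h'
  linarith

/-- `rg p m = [p, p+1, ..., p+m-1]` -/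
def rg : ℤ → ℕ → List ℤ
  | _, 0 => []
  | p, m + 1 => p :: rg (p + 1) m

/-- `om p m j` is `rg p m` with the entry `p + j` removed. -/
def om : ℤ → ℕ → ℕ → List ℤ
  | _, 0, _ => []
  | p, m + 1, 0 => rg (p + 1) m
  | p, m + 1, j + 1 => p :: om (p + 1) m j

lemma Saux_rg (m : ℕ) : ∀ (p : ℤ) (f : List ℤ → ℤ), Saux p (rg p m) f = f (rg p m) := by
  induction m with
  | zero => intro p f; rfl
  | succ m ih =>
    intro p f
    rw [rg, Saux_cons, osum_self, zero_add, ih]

lemma Saux_rg_succ (m : ℕ) : ∀ (p : ℤ) (f : List ℤ → ℤ),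
    Saux p (rg (p + 1) m) f = ∑ j ∈ range (m + 1), f (om p (m + 1) j) := by
  induction m with
  | zero => intro p f; simp [rg, om, Saux]
  | succ m ih =>
    intro p f
    rw [rg, Saux_cons, osum_right, osum_self, zero_add, ih, Saux_rg,
      Finset.sum_range_succ' (fun j => f (om p (m + 1 + 1) j))]
    rfl

lemma Saux_om (m : ℕ) : ∀ (j : ℕ) (p : ℤ) (f : List ℤ → ℤ), j ≤ m →
    Saux p (om p (m + 1) j) f = ∑ i ∈ Ico j (m + 1), f (om p (m + 1) i) := by
  induction m with
  | zero =>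
    intro j p f hj
    have : j = 0 := by omega
    subst this
    simp [om, rg, Saux]
  | succ m ih =>
    intro j p f hj
    cases j with
    | zero =>
      rw [om, Saux_rg_succ, Finset.range_eq_Ico]
    | succ j =>
      rw [om, Saux_cons, osum_self, zero_add, ih j _ _ (by omega),
        ← Finset.sum_Ico_add' (fun i => f (om p (m + 1 + 1) i)) j (m + 1) 1]
      rfl

lemma rg_append (a : ℕ) : ∀ (p : ℤ) (b : ℕ), rg p (a + b) = rg p a ++ rg (p + a) b := by
  induction a with
  | zero => intro p b; simp [rg]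
  | succ a ih =>
    intro p b
    have h1 : a + 1 + b = (a + b) + 1 := by ring
    rw [h1, rg, rg, ih]
    simp only [List.cons_append]
    congr 3
    push_cast
    ring

/-- the row `(1, ..., i-1, i+1, i, i+1, ..., n)` for `i = k + 1`, `n = k + 1 + m` -/
def hrow (k m : ℕ) : List ℤ := rg 1 k ++ ((k : ℤ) + 2) :: ((k : ℤ) + 1) :: rg ((k : ℤ) + 2) m

/-- the row `(1, ..., i, i, ..., n)` for `i = k + 1`, `n = k + 1 + m` -/
def drow (k m : ℕ) : List ℤ := rg 1 k ++ ((k : ℤ) + 1) :: ((k : ℤ) + 1) :: rg ((k : ℤ) + 2) m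

lemma drow_step (n k m : ℕ) : al n (drow (k + 1) m) = al n (drow k (m + 1)) := by
  have h1 : drow k (m + 1) = rg 1 k ++ ((k : ℤ) + 1) :: ((k : ℤ) + 1) :: ((k : ℤ) + 1 + 1) ::
      rg ((k : ℤ) + 3) m := by
    rw [drow, rg]
    have e1 : (k : ℤ) + 1 + 1 = k + 2 := by ring
    have e2 : (k : ℤ) + 2 + 1 = k + 3 := by ring
    rw [e1, e2]
  have h2 : drow (k + 1) m = rg 1 k ++ ((k : ℤ) + 1) :: ((k : ℤ) + 1 + 1) :: ((k : ℤ) + 1 + 1) ::
      rg ((k : ℤ) + 3) m := by
    rw [drow, rg_append]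
    simp only [rg, List.append_assoc, List.cons_append, List.nil_append]
    push_cast
    have e1 : (1 : ℤ) + k = k + 1 := by ring
    have e2 : (k : ℤ) + 1 + 2 = k + 3 := by ring
    rw [e1, e2]
  rw [h1, h2, al_rel2]

lemma hrow_step (n k m : ℕ) : al n (hrow (k + 1) (m + 1)) = al n (hrow k (m + 2)) +
    al n (drow (k + 1) (m + 1)) := by
  have h1 : hrow (k + 1) (m + 1) = rg 1 k ++ ((k : ℤ) + 1) :: ((k : ℤ) + 1 + 2) ::
      ((k : ℤ) + 1 + 1) :: ((k : ℤ) + 1 + 2) :: rg ((k : ℤ) + 4) m := by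
    rw [hrow, rg_append]
    simp only [rg, List.append_assoc, List.cons_append, List.nil_append]
    push_cast
    have e1 : (1 : ℤ) + k = k + 1 := by ring
    have e2 : (k : ℤ) + 1 + 2 + 1 = k + 4 := by ring
    rw [e1, e2]
  have h2 : hrow k (m + 2) = rg 1 k ++ ((k : ℤ) + 1 + 1) :: ((k : ℤ) + 1) ::
      ((k : ℤ) + 1 + 1) :: ((k : ℤ) + 1 + 2) :: rg ((k : ℤ) + 4) m := by
    rw [hrow, rg, rg]
    have e1 : (k : ℤ) + 1 + 1 = k + 2 := by ring
    have e2 : (k : ℤ) + 2 + 1 = k + 1 + 2 := by ring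
    have e3 : (k : ℤ) + 1 + 2 + 1 = k + 4 := by ring
    rw [e1, e2, e3]
  have h3 : drow (k + 1) (m + 1) = rg 1 k ++ ((k : ℤ) + 1) :: ((k : ℤ) + 1 + 1) ::
      ((k : ℤ) + 1 + 1) :: ((k : ℤ) + 1 + 2) :: rg ((k : ℤ) + 4) m := by
    rw [drow, rg_append]
    simp only [rg, List.append_assoc, List.cons_append, List.nil_append]
    push_cast
    have e1 : (1 : ℤ) + k = k + 1 := by ring
    have e2 : (k : ℤ) + 1 + 2 + 1 = k + 4 := by ring
    rw [e1, e2]
  rw [h1, h2, h3, al_rel3]

/-- The total number of alternating sign matrices as a sum over the refined numbers. -/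
lemma al_total (n : ℕ) : al (n + 1) (rg 1 (n + 2)) = ∑ j ∈ range (n + 2), al n (om 1 (n + 2) j) := by
  rw [rg, al, SS, Saux_rg_succ]

lemma drow_zero (n : ℕ) : al (n + 2) (drow 0 (n + 1)) =
    ∑ j ∈ range (n + 2), al n (om 1 (n + 2) j) := by
  rw [← al_total]
  have h : drow 0 (n + 1) = 1 :: rg 1 (n + 2) := by
    simp [drow, rg]
  rw [h, al, SS, Saux_rg]

lemma drow_val (n k m : ℕ) (h : k + m = n + 1) : al (n + 2) (drow k m) =
    ∑ j ∈ range (n + 2), al n (om 1 (n + 2) j) := by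
  induction k generalizing m with
  | zero =>
    have : m = n + 1 := by omega
    rw [this, drow_zero]
  | succ k ih =>
    rw [drow_step, ih (m + 1) (by omega)]

lemma hrow_zero (n : ℕ) : al (n + 2) (hrow 0 (n + 1)) =
    - ∑ j ∈ range (n + 2), (j : ℤ) * al n (om 1 (n + 2) j) := by
  have h : hrow 0 (n + 1) = 2 :: 1 :: rg 2 (n + 1) := by
    simp [hrow, rg]
  have h10 : osum 2 1 = fun g => - g 1 := by
    funext g
    rw [os21]
  rw [h, al, SS, Saux_cons, h10]
  have e2 : (1 : ℤ) + 1 = 2 := by norm_num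
  have hA := Saux_rg_succ (n + 1) 1 (fun l => al (n + 1) (1 :: l))
  rw [e2] at hA
  rw [e2, Saux_rg]
  simp only
  rw [hA, Finset.sum_range_succ']
  have h0 : om 1 (n + 1 + 1) 0 = rg 2 (n + 1) := by
    rw [om, e2]
  rw [h0]
  have hB : ∀ j ∈ range (n + 1), al (n + 1) (1 :: om 1 (n + 1 + 1) (j + 1)) =
      ∑ i ∈ Ico j (n + 1), al n (om 1 (n + 2) (i + 1)) := by
    intro j hj
    rw [Finset.mem_range] at hj
    rw [om, al, SS, Saux_cons, osum_self, zero_add, e2, Saux_om n j 2 _ (by omega)]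
    apply Finset.sum_congr rfl
    intro i _
    show al n (1 :: om 2 (n + 1) i) = al n (om 1 (n + 2) (i + 1))
    rw [om, e2]
  rw [Finset.sum_congr rfl hB]
  have hC : ∑ j ∈ range (n + 1), ∑ i ∈ Ico j (n + 1), al n (om 1 (n + 2) (i + 1)) =
      ∑ i ∈ range (n + 1), ((i : ℤ) + 1) * al n (om 1 (n + 2) (i + 1)) := by
    rw [Finset.range_eq_Ico, Finset.sum_sigma']
    have : ∑ i ∈ Ico 0 (n + 1), ((i : ℤ) + 1) * al n (om 1 (n + 2) (i + 1)) =
        ∑ i ∈ Ico 0 (n + 1), ∑ _j ∈ range (i + 1), al n (om 1 (n + 2) (i + 1)) := by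
      apply Finset.sum_congr rfl
      intro i _
      rw [Finset.sum_const, Finset.card_range]
      simp
    rw [this, Finset.sum_sigma']
    apply Finset.sum_nbij' (fun x => ⟨x.2, x.1⟩) (fun x => ⟨x.2, x.1⟩)
    · rintro ⟨a, b⟩ hx
      simp only [mem_sigma, mem_Ico, mem_range] at hx ⊢
      omega
    · rintro ⟨a, b⟩ hx
      simp only [mem_sigma, mem_Ico, mem_range] at hx ⊢
      omega
    · rintro ⟨a, b⟩ _; rfl
    · rintro ⟨a, b⟩ _; rfl
    · rintro ⟨a, b⟩ _; rfl
  rw [hC]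
  have hD := Finset.sum_range_succ' (fun j : ℕ => (j : ℤ) * al n (om 1 (n + 2) j)) (n + 1)
  rw [show n + 2 = n + 1 + 1 from rfl, hD]
  push_cast
  ring

/-- **The value at a row with one hole and one descent.** -/
theorem hrow_val (n k m : ℕ) (h : k + m = n + 1) (hm : 1 ≤ m) : al (n + 2) (hrow k m) =
    ∑ j ∈ range (n + 2), ((k : ℤ) - j) * al n (om 1 (n + 2) j) := by
  induction k generalizing m with
  | zero =>
    have : m = n + 1 := by omega
    rw [this, hrow_zero, ← Finset.sum_neg_distrib]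
    apply Finset.sum_congr rfl
    intro j _
    push_cast
    ring
  | succ k ih =>
    obtain ⟨m, rfl⟩ : ∃ m', m = m' + 1 := ⟨m - 1, by omega⟩
    rw [hrow_step, ih (m + 2) (by omega) (by omega), drow_val n (k + 1) (m + 1) h,
      ← Finset.sum_add_distrib]
    apply Finset.sum_congr rfl
    intro j _
    push_cast
    ring

end Pool.Agent.H82.MT
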