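import Mathlib
import Pool.Agent.H82.MTForm
import Pool.Agent.H82.MTDefs

set_option autoImplicit false

/-!
# Alternating sign matrices and the recursively defined function
-/

namespace Pool.Agent.H82.MT

open Finset

/-- The automaton for alternation: the prefix sums, started at `s`, stay in `{0, 1}` and end
at `1`. -/
def Alt : ℤ → List ℤ → Prop
  | s, [] => s = 1
  | s, x :: l => (s = 0 ∨ s = 1) ∧ Alt (s + x) l

lemma Alt_state {s : ℤ} {l : List ℤ} (h : Alt s l) : s = 0 ∨ s = 1 := by
  cases l with
  | nil => exact Or.inr h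
  | cons x l => exact h.1

lemma Alt_sum : ∀ {l : List ℤ} {s : ℤ}, Alt s l → s + l.sum = 1 := by
  intro l
  induction l with
  | nil =>
    intro s h
    have h' : s = 1 := h
    simp [h']
  | cons x l ih =>
    intro s h
    have := ih h.2
    rw [List.sum_cons]
    linarith

/-- The alternation with a given previous nonzero entry. -/
lemma Alt_iff_chain : ∀ (l : List ℤ), (∀ x ∈ l, x = 0 ∨ x = 1 ∨ x = -1) → ∀ (s : ℤ),
    (s = 0 ∨ s = 1) → (Alt s l ↔
      (((2 * s - 1) :: l.filter (fun x => x ≠ 0)).getLast? = some 1 ∧
      ((2 * s - 1) :: l.filter (fun x => x ≠ 0)).IsChain (fun a b => b = -a))) := by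
  intro l
  induction l with
  | nil =>
    intro _ s hs
    rcases hs with rfl | rfl
    · simp [Alt]
    · simp [Alt]
  | cons x l ih =>
    intro hl s hs
    have hx := hl x (by simp)
    have ih' := ih (fun y hy => hl y (by simp [hy]))
    by_cases h0 : x = 0
    · subst h0
      have h1 : (0 :: l).filter (fun x : ℤ => x ≠ 0) = l.filter (fun x => x ≠ 0) := by simp
      rw [h1, ← ih' s hs, Alt, add_zero]
      exact ⟨fun h => h.2, fun h => ⟨hs, h⟩⟩
    · have h1 : (x :: l).filter (fun x : ℤ => x ≠ 0) = x :: l.filter (fun x => x ≠ 0) := by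
        simp [h0]
      rw [h1, List.isChain_cons_cons, List.getLast?_cons_cons, Alt]
      rcases hx with hx | hx | hx
      · exact absurd hx h0
      · subst hx
        rcases hs with rfl | rfl
        · have h2 := ih' 1 (Or.inr rfl)
          norm_num at h2 ⊢
          exact h2
        · constructor
          · intro h
            have := Alt_state h.2
            omega
          · intro h
            exfalso
            have := h.2.1
            omega
      · subst hx
        rcases hs with rfl | rfl
        · constructor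
          · intro h
            have := Alt_state h.2
            omega
          · intro h
            exfalso
            have := h.2.1
            omega
        · have h2 := ih' 0 (Or.inl rfl)
          norm_num at h2 ⊢
          exact h2

lemma isAlternating_iff {n : ℕ} (v : Fin n → ℤ) (hv : ∀ i, v i = 0 ∨ v i = 1 ∨ v i = -1) :
    IsAlternating v ↔ Alt 0 (List.ofFn v) := by
  have hl : ∀ x ∈ List.ofFn v, x = 0 ∨ x = 1 ∨ x = -1 := by
    intro x hx
    rw [List.mem_ofFn] at hx
    obtain ⟨i, rfl⟩ := hx
    exact hv i
  rw [Alt_iff_chain _ hl 0 (Or.inl rfl)]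
  unfold IsAlternating
  generalize (List.ofFn v).filter (fun x => x ≠ 0) = L
  cases L with
  | nil => simp
  | cons a L =>
    rw [List.head?_cons, List.getLast?_cons_cons, List.isChain_cons_cons]
    constructor
    · rintro ⟨h1, h2, h3⟩
      have h1' : a = 1 := by simpa using h1
      exact ⟨h2, by rw [h1']; norm_num, h3⟩
    · rintro ⟨h1, h2, h3⟩
      refine ⟨?_, h1, h3⟩
      rw [h2]
      norm_num

lemma Alt_entries : ∀ {l : List ℤ} {s : ℤ}, Alt s l → ∀ x ∈ l, x = 0 ∨ x = 1 ∨ x = -1 := by
  intro l
  induction l with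
  | nil => intro s _ x hx; simp at hx
  | cons y l ih =>
    intro s h x hx
    rw [List.mem_cons] at hx
    rcases hx with rfl | hx
    · have h1 := Alt_state h.2
      have h2 := h.1
      omega
    · exact ih h.2 x hx

lemma isASM_iff {n : ℕ} (M : Matrix (Fin n) (Fin n) ℤ) :
    IsASM M ↔ (∀ i, Alt 0 (List.ofFn fun j => M i j)) ∧
      ∀ j, Alt 0 (List.ofFn fun i => M i j) := by
  constructor
  · rintro ⟨h1, h2, h3⟩
    exact ⟨fun i => (isAlternating_iff _ (fun j => h1 i j)).1 (h2 i),
      fun j => (isAlternating_iff _ (fun i => h1 i j)).1 (h3 j)⟩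
  · rintro ⟨h2, h3⟩
    have h1 : ∀ i j, M i j = 0 ∨ M i j = 1 ∨ M i j = -1 := by
      intro i j
      exact Alt_entries (h2 i) (M i j) (by rw [List.mem_ofFn]; exact ⟨j, rfl⟩)
    exact ⟨h1, fun i => (isAlternating_iff _ (fun j => h1 i j)).2 (h2 i),
      fun j => (isAlternating_iff _ (fun i => h1 i j)).2 (h3 j)⟩

/-- Boolean to integer -/
def iv (b : Bool) : ℤ := if b then 1 else 0

/-- Partial alternating sign matrices with `m` rows. -/
abbrev Part {n : ℕ} (m : ℕ) (c : Fin n → Bool) : Type :=
  {M : Fin m → Fin n → ℤ // (∀ r, Alt 0 (List.ofFn (M r))) ∧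
    ∀ j, Alt (1 - iv (c j)) (List.ofFn fun r => M r j)}

lemma sigmaPart_ext {n m : ℕ} {Q : (Fin n → Bool) → Prop}
    (x y : Σ c : {c // Q c}, Part m c.1) (h1 : x.1.1 = y.1.1) (h : x.2.1 = y.2.1) : x = y := by
  have h1 : x.1 = y.1 := Subtype.ext h1
  obtain ⟨a, b⟩ := x
  obtain ⟨c, d⟩ := y
  simp only at h1 h
  subst h1
  congr 1
  exact Subtype.ext h

lemma iv_cases (b : Bool) : iv b = 0 ∨ iv b = 1 := by
  cases b <;> simp [iv]

lemma iv_decide {x : ℤ} (h : x = 0 ∨ x = 1) : iv (decide (x = 1)) = x := by
  rcases h with rfl | rfl <;> simp [iv]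

/-- Removing the top row. -/
noncomputable def partEquiv {n m : ℕ} (c : Fin n → Bool) :
    Part (m + 1) c ≃ Σ c' : {c' : Fin n → Bool // Alt 0 (List.ofFn fun j => iv (c j) - iv (c' j))},
      Part m c'.1 where
  toFun M := by
    have hc : ∀ j, iv (decide (iv (c j) - M.1 0 j = 1)) = iv (c j) - M.1 0 j := by
      intro j
      apply iv_decide
      have h := M.2.2 j
      rw [List.ofFn_succ, Alt] at h
      have := Alt_state h.2
      omega
    refine ⟨⟨fun j => decide (iv (c j) - M.1 0 j = 1), ?_⟩, ⟨fun r => M.1 r.succ, ?_, ?_⟩⟩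
    · have h := M.2.1 0
      have h2 : (fun j => iv (c j) - iv (decide (iv (c j) - M.1 0 j = 1))) = M.1 0 := by
        funext j
        rw [hc]
        ring
      rw [h2]
      exact h
    · intro r; exact M.2.1 r.succ
    · intro j
      rw [hc]
      have h := M.2.2 j
      rw [List.ofFn_succ, Alt] at h
      have h2 : 1 - (iv (c j) - M.1 0 j) = 1 - iv (c j) + M.1 0 j := by ring
      rw [h2]
      exact h.2
  invFun x := ⟨Fin.cons (fun j => iv (c j) - iv (x.1.1 j)) x.2.1, by
    refine ⟨?_, ?_⟩
    · intro r
      induction r using Fin.cases with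
      | zero => rw [Fin.cons_zero]; exact x.1.2
      | succ r => rw [Fin.cons_succ]; exact x.2.2.1 r
    · intro j
      rw [List.ofFn_succ]
      simp only [Fin.cons_zero, Fin.cons_succ, Alt]
      refine ⟨?_, ?_⟩
      · have := iv_cases (c j); omega
      · have h := x.2.2.2 j
        have h2 : 1 - iv (c j) + (iv (c j) - iv (x.1.1 j)) = 1 - iv (x.1.1 j) := by ring
        rw [h2]
        exact h⟩
  left_inv M := by
    have hc : ∀ j, iv (decide (iv (c j) - M.1 0 j = 1)) = iv (c j) - M.1 0 j := by
      intro j
      apply iv_decide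
      have h := M.2.2 j
      rw [List.ofFn_succ, Alt] at h
      have := Alt_state h.2
      omega
    apply Subtype.ext
    funext r
    induction r using Fin.cases with
    | zero =>
      simp only [Fin.cons_zero]
      funext j
      rw [hc]
      ring
    | succ r => simp only [Fin.cons_succ]
  right_inv x := by
    apply sigmaPart_ext
    · funext j
      simp only [Fin.cons_zero]
      have h2 : iv (c j) - (iv (c j) - iv (x.1.1 j)) = iv (x.1.1 j) := by ring
      rw [h2]
      cases x.1.1 j <;> simp [iv]
    · funext r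
      simp only [Fin.cons_succ]

/-- The positions of the true entries, counted from `p`. -/
def pos : ℤ → List Bool → List ℤ
  | _, [] => []
  | p, b :: l => if b then p :: pos (p + 1) l else pos (p + 1) l

lemma Alt_cons (s x : ℤ) (l : List ℤ) : Alt s (x :: l) ↔ (s = 0 ∨ s = 1) ∧ Alt (s + x) l :=
  Iff.rfl

open Classical in
lemma altSum (n : ℕ) : ∀ (s p : ℤ) (c : Fin n → Bool) (f : List ℤ → ℤ), (s = 0 ∨ s = 1) →
    ∑ c' : Fin n → Bool, (if Alt s (List.ofFn fun j => iv (c j) - iv (c' j)) then
      f (pos p (List.ofFn c')) else 0) =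
    if s = 1 then Saux p (pos p (List.ofFn c)) f else Ev (pos p (List.ofFn c)) f := by
  induction n with
  | zero =>
    intro s p c f hs
    rcases hs with rfl | rfl
    · simp [Alt, pos, Ev]
    · simp [Alt, pos, Saux]
  | succ n ih =>
    intro s p c f hs
    have h1 : ∑ c' : Fin (n + 1) → Bool, (if Alt s (List.ofFn fun j => iv (c j) - iv (c' j)) then
        f (pos p (List.ofFn c')) else 0) = ∑ b : Bool, ∑ c' : Fin n → Bool,
        (if Alt (s + (iv (c 0) - iv b)) (List.ofFn fun j => iv (c j.succ) - iv (c' j)) then
        f (pos p (b :: List.ofFn c')) else 0) := by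
      rw [← Fintype.sum_prod_type']
      rw [← (Fin.consEquiv (fun _ : Fin (n + 1) => Bool)).sum_comp]
      apply Fintype.sum_congr
      rintro ⟨b, c'⟩
      have g1 : (List.ofFn fun j => iv (c j) -
          iv ((Fin.consEquiv (fun _ : Fin (n + 1) => Bool)) (b, c') j)) =
          (iv (c 0) - iv b) :: List.ofFn fun j => iv (c j.succ) - iv (c' j) := by
        rw [List.ofFn_succ]
        simp [Fin.consEquiv]
      have g2 : List.ofFn ((Fin.consEquiv (fun _ : Fin (n + 1) => Bool)) (b, c')) =
          b :: List.ofFn c' := by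
        rw [List.ofFn_succ]
        simp [Fin.consEquiv]
      refine if_congr ?_ ?_ rfl
      · rw [g1, Alt_cons]
        simp only [hs, true_and]
      · rw [g2]
    rw [h1, Fintype.sum_bool, List.ofFn_succ]
    have hbad : ∀ (t : ℤ) (g : List ℤ → ℤ), (t ≠ 0 ∧ t ≠ 1) → ∑ c' : Fin n → Bool,
        (if Alt t (List.ofFn fun j => iv (c j.succ) - iv (c' j)) then
        g (pos (p + 1) (List.ofFn c')) else 0) = 0 := by
      intro t g ht
      apply Finset.sum_eq_zero
      intro c' _
      rw [if_neg]
      intro h
      have := Alt_state h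
      omega
    have e1 := ih 0 (p + 1) (fun j => c j.succ)
    have e2 := ih 1 (p + 1) (fun j => c j.succ)
    simp only [pos, Bool.false_eq_true, if_false, if_true]
    rcases hs with rfl | rfl
    · cases hc : c 0
      · have t1 : (0 : ℤ) + (iv false - iv true) = -1 := by simp [iv]
        have t2 : (0 : ℤ) + (iv false - iv false) = 0 := by simp [iv]
        rw [t1, t2, hbad (-1) (fun l => f (p :: l)) (by norm_num), e1 f (Or.inl rfl)]
        simp
      · have t1 : (0 : ℤ) + (iv true - iv true) = 0 := by simp [iv]
        have t2 : (0 : ℤ) + (iv true - iv false) = 1 := by simp [iv]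
        rw [t1, t2, e1 (fun l => f (p :: l)) (Or.inl rfl), e2 f (Or.inr rfl)]
        have hEv : ∀ l, Ev (p :: l) f = Saux p l f := fun l => rfl
        simp only [if_true, zero_ne_one, if_false, hEv]
        rw [Saux_step p, add_comm]
    · cases hc : c 0
      · have t1 : (1 : ℤ) + (iv false - iv true) = 0 := by simp [iv]
        have t2 : (1 : ℤ) + (iv false - iv false) = 1 := by simp [iv]
        rw [t1, t2, e1 (fun l => f (p :: l)) (Or.inl rfl), e2 f (Or.inr rfl)]
        simp only [if_true, zero_ne_one, if_false, Bool.false_eq_true]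
        rw [Saux_step p, add_comm]
      · have t1 : (1 : ℤ) + (iv true - iv true) = 1 := by simp [iv]
        have t2 : (1 : ℤ) + (iv true - iv false) = 2 := by simp [iv]
        rw [t1, t2, hbad 2 f (by norm_num), e2 (fun l => f (p :: l)) (Or.inr rfl)]
        simp only [if_true, Saux_cons, osum_self]
        ring

/-- the counting function for partial alternating sign matrices -/
noncomputable def FF : ℕ → List ℤ → ℤ
  | 0 => fun l => if l = [] then 1 else 0
  | m + 1 => al m

lemma Ev_FF (m : ℕ) (l : List ℤ) : Ev l (FF m) = FF (m + 1) l := by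
  cases m with
  | zero =>
    cases l with
    | nil => simp [Ev, FF, al]
    | cons b t =>
      cases t with
      | nil => simp [Ev, FF, al, Saux]
      | cons b' t =>
        have h2 : Ev (b :: b' :: t) (FF 0) = 0 := by
          rw [Ev, Saux_cons]
          have h3 : ∀ x : ℤ, (fun l => FF 0 (x :: l)) = fun _ => 0 := by
            intro x; funext l; simp [FF]
          simp only [h3, Saux_zero, osum_zero, add_zero]
        rw [h2]
        simp [FF, al]
  | succ m =>
    cases l with
    | nil => simp [Ev, FF, al, SS]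
    | cons b t => simp [Ev, FF, al, SS]

lemma part_count {n : ℕ} (m : ℕ) : ∀ c : Fin n → Bool,
    Finite (Part m c) ∧ (Nat.card (Part m c) : ℤ) = FF m (pos 1 (List.ofFn c)) := by
  classical
  induction m with
  | zero =>
    intro c
    have hnil : pos 1 (List.ofFn c) = [] ↔ ∀ j, c j = false := by
      have : ∀ (l : List Bool) (p : ℤ), pos p l = [] ↔ ∀ b ∈ l, b = false := by
        intro l
        induction l with
        | nil => intro p; simp [pos]
        | cons b l ih =>
          intro p
          cases b
          · simp [pos, ih]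
          · simp [pos]
      rw [this]
      constructor
      · intro h j
        exact h (c j) (by rw [List.mem_ofFn]; exact ⟨j, rfl⟩)
      · intro h b hb
        rw [List.mem_ofFn] at hb
        obtain ⟨j, rfl⟩ := hb
        exact h j
    have hsub : Subsingleton (Part 0 c) := ⟨fun a b => Subtype.ext (funext fun r => Fin.elim0 r)⟩
    refine ⟨inferInstance, ?_⟩
    by_cases h : ∀ j, c j = false
    · have hne : Nonempty (Part 0 c) := ⟨⟨fun r => Fin.elim0 r, fun r => Fin.elim0 r, by
        intro j
        simp [Alt, h j, iv]⟩⟩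
      have h1 : Nat.card (Part 0 c) = 1 := Nat.card_eq_one_iff_unique.2 ⟨hsub, hne⟩
      rw [h1]
      simp [FF, hnil.2 h]
    · have hem : IsEmpty (Part 0 c) := by
        constructor
        rintro ⟨M, h1, h2⟩
        apply h
        intro j
        have h3 := h2 j
        simp only [List.ofFn_zero, Alt] at h3
        cases hc : c j
        · rfl
        · rw [hc] at h3
          simp [iv] at h3
      rw [Nat.card_of_isEmpty]
      have : pos 1 (List.ofFn c) ≠ [] := fun h' => h (hnil.1 h')
      simp [FF, this]
  | succ m ih =>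
    intro c
    have hfin : ∀ c' : {c' : Fin n → Bool // Alt 0 (List.ofFn fun j => iv (c j) - iv (c' j))},
      Finite (Part m c'.1) := fun c' => (ih c'.1).1
    refine ⟨Finite.of_equiv _ (partEquiv c).symm, ?_⟩
    rw [Nat.card_congr (partEquiv c), Nat.card_sigma]
    push_cast
    have h1 : ∀ c' : {c' : Fin n → Bool // Alt 0 (List.ofFn fun j => iv (c j) - iv (c' j))},
      (Nat.card (Part m c'.1) : ℤ) = FF m (pos 1 (List.ofFn c'.1)) := fun c' => (ih c'.1).2
    rw [Fintype.sum_congr _ _ h1]
    rw [← Ev_FF]
    have h2 := altSum n 0 1 c (FF m) (Or.inl rfl)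
    rw [if_neg (by norm_num)] at h2
    rw [← h2, ← Finset.sum_filter]
    rw [← Finset.sum_subtype (Finset.univ.filter
      (fun c' : Fin n → Bool => Alt 0 (List.ofFn fun j => iv (c j) - iv (c' j))))
      (fun c' => by simp) (fun c' => FF m (pos 1 (List.ofFn c')))]

end Pool.Agent.H82.MT
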