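import Mathlib
import Pool.Agent.H82.MTForm
import Pool.Agent.H82.MTDefs

set_option autoImplicit false

/-!
# Monotone triangles are counted by the recursively defined function
-/

namespace Pool.Agent.H82.MT

open Finset

/-- The monotone triangles with `n + 1` rows and bottom row `k`. -/
abbrev MTs (n : ℕ) (k : Fin (n + 1) → ℤ) : Type :=
  {T : (r : Fin (n + 1)) → Fin (r.val + 1) → ℤ // IsMonotoneTriangle n T ∧ T (Fin.last n) = k}

lemma strictMono_cons {m : ℕ} (x : ℤ) (l : Fin m → ℤ) :
    StrictMono (Fin.cons x l : Fin (m + 1) → ℤ) ↔ (∀ i, x < l i) ∧ StrictMono l := by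
  constructor
  · intro h
    refine ⟨fun i => ?_, fun a b hab => ?_⟩
    · have := h (Fin.succ_pos i)
      simpa using this
    · have := h (Fin.succ_lt_succ_iff.2 hab)
      simpa using this
  · rintro ⟨h1, h2⟩ a b hab
    induction a using Fin.cases with
    | zero =>
      induction b using Fin.cases with
      | zero => exact absurd hab (lt_irrefl _)
      | succ b => simpa using h1 b
    | succ a =>
      induction b using Fin.cases with
      | zero => exact absurd hab (by simp)
      | succ b => simpa using h2 (Fin.succ_lt_succ_iff.1 hab)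

/-- Interlacing strictly increasing sequences. -/
noncomputable def LL {m : ℕ} (a : ℤ) (t : Fin m → ℤ) : Finset (Fin m → ℤ) := by
  classical
  exact (Finset.Icc (fun j => (Fin.cons a t : Fin (m + 1) → ℤ) j.castSucc) t).filter StrictMono

lemma mem_LL {m : ℕ} (a : ℤ) (t : Fin m → ℤ) (l : Fin m → ℤ) : l ∈ LL a t ↔
    (∀ j, (Fin.cons a t : Fin (m + 1) → ℤ) j.castSucc ≤ l j ∧ l j ≤ t j) ∧ StrictMono l := by
  classical
  unfold LL
  rw [Finset.mem_filter, Finset.mem_Icc, Pi.le_def, Pi.le_def]
  constructor
  · rintro ⟨⟨h1, h2⟩, h3⟩
    exact ⟨fun j => ⟨h1 j, h2 j⟩, h3⟩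
  · rintro ⟨h1, h3⟩
    exact ⟨⟨fun j => (h1 j).1, fun j => (h1 j).2⟩, h3⟩

lemma Saux_LL (m : ℕ) : ∀ (a : ℤ) (t : Fin m → ℤ) (f : List ℤ → ℤ), StrictMono t →
    (∀ i, a ≤ t i) → Saux a (List.ofFn t) f = ∑ l ∈ LL a t, f (List.ofFn l) := by
  induction m with
  | zero =>
    intro a t f _ _
    have h1 : LL a t = {fun j => Fin.elim0 j} := by
      ext l
      rw [mem_LL, Finset.mem_singleton]
      constructor
      · intro _; funext j; exact Fin.elim0 j
      · intro _; exact ⟨fun j => Fin.elim0 j, fun j => Fin.elim0 j⟩
    rw [h1, Finset.sum_singleton]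
    simp [Saux]
  | succ m ih =>
    intro a t f ht ha
    classical
    have ht' : StrictMono (Fin.tail t) := fun i j hij => ht (Fin.succ_lt_succ_iff.2 hij)
    have h0 : ∀ i, t 0 < Fin.tail t i := fun i => ht (Fin.succ_pos i)
    rw [List.ofFn_succ, Saux_cons]
    have e1 : ∀ x, Saux (t 0) (List.ofFn fun i => t i.succ) (fun l => f (x :: l)) =
        ∑ l ∈ LL (t 0) (Fin.tail t), f (x :: List.ofFn l) := by
      intro x
      exact ih (t 0) (Fin.tail t) _ ht' (fun i => le_of_lt (h0 i))
    have e2 : Saux (t 0 + 1) (List.ofFn fun i => t i.succ) (fun l => f (t 0 :: l)) =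
        ∑ l ∈ LL (t 0 + 1) (Fin.tail t), f (t 0 :: List.ofFn l) := by
      exact ih (t 0 + 1) (Fin.tail t) _ ht' (fun i => by have := h0 i; omega)
    simp only [e1]
    rw [e2]
    have hIco : Ico (t 0) a = ∅ := by
      rw [Finset.Ico_eq_empty]
      have := ha 0
      omega
    unfold osum
    rw [hIco, Finset.sum_empty, sub_zero]
    -- the decomposition
    have hdec : LL a t = ((Ico a (t 0)) ×ˢ (LL (t 0) (Fin.tail t))).image
        (fun p => (Fin.cons p.1 p.2 : Fin (m + 1) → ℤ)) ∪
        (LL (t 0 + 1) (Fin.tail t)).image (fun l => (Fin.cons (t 0) l : Fin (m + 1) → ℤ)) := by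
      ext l
      rw [mem_LL, Finset.mem_union, Finset.mem_image, Finset.mem_image]
      constructor
      · rintro ⟨h1, h2⟩
        have hl : l = Fin.cons (l 0) (Fin.tail l) := (Fin.cons_self_tail l).symm
        rw [hl, strictMono_cons] at h2
        rcases lt_or_ge (l 0) (t 0) with h | h
        · left
          refine ⟨(l 0, Fin.tail l), ?_, hl.symm⟩
          rw [Finset.mem_product, Finset.mem_Ico, mem_LL]
          refine ⟨⟨?_, h⟩, ?_, h2.2⟩
          · have := (h1 0).1
            simpa using this
          · intro j
            have := h1 j.succ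
            rw [Fin.cons_self_tail]
            refine ⟨?_, this.2⟩
            have h3 := this.1
            rw [← Fin.succ_castSucc, Fin.cons_succ] at h3
            exact h3
        · right
          have h4 : l 0 = t 0 := le_antisymm (h1 0).2 h
          refine ⟨Fin.tail l, ?_, by rw [← h4]; exact hl.symm⟩
          rw [mem_LL]
          refine ⟨?_, h2.2⟩
          intro j
          have := h1 j.succ
          refine ⟨?_, this.2⟩
          cases m with
          | zero => exact Fin.elim0 j
          | succ m =>
            induction j using Fin.cases with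
            | zero =>
              have h5 := h2.1 0
              rw [Fin.castSucc_zero, Fin.cons_zero]
              rw [h4] at h5
              omega
            | succ j =>
              rw [← Fin.succ_castSucc, Fin.cons_succ]
              have h3 := this.1
              rw [← Fin.succ_castSucc, Fin.cons_succ] at h3
              exact h3
      · rintro (⟨⟨x, l'⟩, hp, rfl⟩ | ⟨l', hl', rfl⟩)
        · rw [Finset.mem_product, Finset.mem_Ico, mem_LL] at hp
          simp only at hp ⊢
          obtain ⟨⟨h1, h2⟩, h3, h4⟩ := hp
          rw [strictMono_cons]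
          refine ⟨?_, ?_, h4⟩
          · intro j
            induction j using Fin.cases with
            | zero =>
              rw [Fin.castSucc_zero, Fin.cons_zero, Fin.cons_zero]
              exact ⟨h1, le_of_lt h2⟩
            | succ j =>
              rw [← Fin.succ_castSucc, Fin.cons_succ, Fin.cons_succ]
              have h5 := h3 j
              rw [Fin.cons_self_tail] at h5
              exact ⟨h5.1, h5.2⟩
          · intro i
            have h5 := (h3 i).1
            rw [Fin.cons_self_tail] at h5
            have h6 : t 0 ≤ t i.castSucc := ht.monotone (Fin.zero_le _)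
            omega
        · rw [mem_LL] at hl'
          obtain ⟨h3, h4⟩ := hl'
          rw [strictMono_cons]
          have hlow : ∀ i, t 0 < l' i := by
            intro i
            have h5 := (h3 i).1
            cases m with
            | zero => exact Fin.elim0 i
            | succ m =>
              induction i using Fin.cases with
              | zero =>
                rw [Fin.castSucc_zero, Fin.cons_zero] at h5
                omega
              | succ i =>
                rw [← Fin.succ_castSucc, Fin.cons_succ] at h5
                have := h0 i.castSucc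
                omega
          refine ⟨?_, hlow, h4⟩
          intro j
          induction j using Fin.cases with
          | zero =>
            rw [Fin.castSucc_zero, Fin.cons_zero, Fin.cons_zero]
            exact ⟨ha 0, le_refl _⟩
          | succ j =>
            rw [← Fin.succ_castSucc, Fin.cons_succ, Fin.cons_succ]
            refine ⟨?_, (h3 j).2⟩
            cases m with
            | zero => exact Fin.elim0 j
            | succ m =>
              induction j using Fin.cases with
              | zero =>
                rw [Fin.castSucc_zero]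
                exact le_of_lt (hlow 0)
              | succ j =>
                have h5 := (h3 j.succ).1
                rw [← Fin.succ_castSucc, Fin.cons_succ] at h5
                exact h5
    rw [hdec, Finset.sum_union, Finset.sum_image, Finset.sum_image, Finset.sum_product]
    · congr 1
      · apply Finset.sum_congr rfl
        intro x _
        apply Finset.sum_congr rfl
        intro l _
        rw [List.ofFn_succ]
        simp
      · apply Finset.sum_congr rfl
        intro l _
        rw [List.ofFn_succ]
        simp
    · intro l _ l' _ h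
      exact (Fin.cons_injective2 h).2
    · rintro ⟨x, l⟩ _ ⟨x', l'⟩ _ h
      obtain ⟨h1, h2⟩ := Fin.cons_injective2 h
      simp only at h1 h2
      rw [h1, h2]
    · rw [Finset.disjoint_left]
      intro l h1 h2
      rw [Finset.mem_image] at h1 h2
      obtain ⟨⟨x, l1⟩, hp, rfl⟩ := h1
      obtain ⟨l2, _, h3⟩ := h2
      obtain ⟨h4, -⟩ := Fin.cons_injective2 h3
      rw [Finset.mem_product, Finset.mem_Ico] at hp
      simp only at h4 hp
      omega

lemma sigma_ext' {n : ℕ} {S : Finset (Fin (n + 1) → ℤ)}
    (x y : Σ l : {l // l ∈ S}, MTs n l.1) (h : x.2.1 = y.2.1) : x = y := by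
  have h1 : x.1 = y.1 := by
    apply Subtype.ext
    rw [← x.2.2.2, ← y.2.2.2, h]
  obtain ⟨a, b⟩ := x
  obtain ⟨c, d⟩ := y
  simp only at h1 h
  subst h1
  congr 1
  exact Subtype.ext h

/-- Removing the bottom row. -/
noncomputable def stepEquiv (n : ℕ) (k : Fin (n + 2) → ℤ) (hk : StrictMono k) :
    MTs (n + 1) k ≃ Σ l : {l // l ∈ LL (k 0) (Fin.tail k)}, MTs n l.1 where
  toFun T := ⟨⟨T.1 (Fin.last n).castSucc, by
      rw [mem_LL]
      refine ⟨?_, T.2.1.1 _⟩
      intro j
      have h := T.2.1.2 (Fin.last n) j
      rw [Fin.cons_self_tail]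
      have hk' : T.1 (Fin.last n).succ = k := T.2.2
      rw [hk'] at h
      exact h⟩,
    ⟨fun r => T.1 r.castSucc, ⟨⟨fun r => T.2.1.1 r.castSucc, fun r j => T.2.1.2 r.castSucc j⟩,
      rfl⟩⟩⟩
  invFun x := ⟨Fin.snoc (α := fun r : Fin (n + 2) => Fin (r.val + 1) → ℤ) x.2.1 k, by
      refine ⟨⟨?_, ?_⟩, ?_⟩
      · intro r
        induction r using Fin.lastCases with
        | last => rw [Fin.snoc_last]; exact hk
        | cast r => rw [Fin.snoc_castSucc]; exact x.2.2.1.1 r
      · intro r j
        induction r using Fin.lastCases with
        | last =>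
          have h1 : Fin.snoc (α := fun r : Fin (n + 2) => Fin (r.val + 1) → ℤ) x.2.1 k
              (Fin.last n).castSucc = x.1.1 := by
            rw [Fin.snoc_castSucc]; exact x.2.2.2
          have h2 : Fin.snoc (α := fun r : Fin (n + 2) => Fin (r.val + 1) → ℤ) x.2.1 k
              (Fin.last n).succ = k := by
            show Fin.snoc (α := fun r : Fin (n + 2) => Fin (r.val + 1) → ℤ) x.2.1 k
              (Fin.last (n + 1)) = k
            rw [Fin.snoc_last]
          rw [h1, h2]
          have h3 := ((mem_LL _ _ _).1 x.1.2).1 j
          rw [Fin.cons_self_tail] at h3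
          exact h3
        | cast r =>
          have h1 : Fin.snoc (α := fun r : Fin (n + 2) => Fin (r.val + 1) → ℤ) x.2.1 k
              r.castSucc.castSucc = x.2.1 r.castSucc := by
            rw [Fin.snoc_castSucc]
          have h2 : Fin.snoc (α := fun r : Fin (n + 2) => Fin (r.val + 1) → ℤ) x.2.1 k
              r.castSucc.succ = x.2.1 r.succ := by
            show Fin.snoc (α := fun r : Fin (n + 2) => Fin (r.val + 1) → ℤ) x.2.1 k
              r.succ.castSucc = x.2.1 r.succ
            rw [Fin.snoc_castSucc]
          rw [h1, h2]
          exact x.2.2.1.2 r j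
      · rw [Fin.snoc_last]⟩
  left_inv T := by
    apply Subtype.ext
    funext r
    induction r using Fin.lastCases with
    | last =>
      simp only [Fin.snoc_last]
      exact T.2.2.symm
    | cast r => simp only [Fin.snoc_castSucc]
  right_inv x := by
    apply sigma_ext'
    funext r
    simp only [Fin.snoc_castSucc]

lemma count_eq (n : ℕ) : ∀ k : Fin (n + 1) → ℤ, StrictMono k →
    Finite (MTs n k) ∧ (Nat.card (MTs n k) : ℤ) = al n (List.ofFn k) := by
  induction n with
  | zero =>
    intro k hk
    have hu : ∀ T : MTs 0 k, T = ⟨fun r => fun j => k ⟨j.val, by have := j.isLt; omega⟩, by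
        refine ⟨⟨?_, fun r => Fin.elim0 r⟩, ?_⟩
        · intro r a b hab
          exfalso
          have := a.isLt
          have := b.isLt
          have h3 : a.val < b.val := hab
          have := r.isLt
          omega
        · funext j; rfl⟩ := by
      rintro ⟨T, hT1, hT2⟩
      apply Subtype.ext
      funext r
      have hr : r = Fin.last 0 := by
        apply Fin.ext
        have := r.isLt
        simp
      subst hr
      simp only
      rw [hT2]
      rfl
    have hsub : Subsingleton (MTs 0 k) := ⟨fun a b => by rw [hu a, hu b]⟩
    have hne : Nonempty (MTs 0 k) := ⟨⟨fun r => fun j => k ⟨j.val, by have := j.isLt; omega⟩, by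
        refine ⟨⟨?_, fun r => Fin.elim0 r⟩, ?_⟩
        · intro r a b hab
          exfalso
          have := a.isLt
          have := b.isLt
          have h3 : a.val < b.val := hab
          have := r.isLt
          omega
        · funext j; rfl⟩⟩
    refine ⟨inferInstance, ?_⟩
    have : Nat.card (MTs 0 k) = 1 := Nat.card_eq_one_iff_unique.2 ⟨hsub, hne⟩
    rw [this]
    simp [al]
  | succ n ih =>
    intro k hk
    have e := stepEquiv n k hk
    have hfin : ∀ l : {l // l ∈ LL (k 0) (Fin.tail k)}, Finite (MTs n l.1) :=
      fun l => (ih l.1 ((mem_LL _ _ _).1 l.2).2).1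
    refine ⟨Finite.of_equiv _ e.symm, ?_⟩
    rw [Nat.card_congr e, Nat.card_sigma]
    push_cast
    have h1 : al (n + 1) (List.ofFn k) = ∑ l ∈ LL (k 0) (Fin.tail k), al n (List.ofFn l) := by
      rw [List.ofFn_succ, al, SS]
      exact Saux_LL (n + 1) (k 0) (Fin.tail k) (al n)
        (fun i j hij => hk (Fin.succ_lt_succ_iff.2 hij))
        (fun i => le_of_lt (hk (Fin.succ_pos i)))
    rw [h1, ← Finset.sum_coe_sort (LL (k 0) (Fin.tail k)) (fun l => al n (List.ofFn l))]
    apply Finset.sum_congr rfl
    intro l _
    exact (ih l.1 ((mem_LL _ _ _).1 l.2).2).2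

end Pool.Agent.H82.MT
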