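import Mathlib
import Pool.Agent.H82.MTForm

set_option autoImplicit false

/-!
# Polynomiality and uniqueness
-/

namespace Pool.Agent.H82.MT

open Finset

/-- Values of a list as a function on `ℕ`, extended by zero. -/
def vl (l : List ℤ) : ℕ → ℚ := fun i => ((l.getD i 0 : ℤ) : ℚ)

/-- `f` is given by a polynomial on lists of length `m`. -/
def IsPolyOn (m : ℕ) (f : List ℤ → ℤ) : Prop :=
  ∃ P : MvPolynomial ℕ ℚ, ∀ l : List ℤ, l.length = m → (f l : ℚ) = MvPolynomial.eval (vl l) P

lemma antidiff_one (n : ℕ) : ∃ B : Polynomial ℚ, ∀ x : ℚ, B.eval (x + 1) - B.eval x = x ^ n := by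
  refine ⟨Polynomial.C (1 / ((n : ℚ) + 1)) * Polynomial.bernoulli (n + 1), ?_⟩
  intro x
  have h := Polynomial.bernoulli_eval_one_add (n + 1) x
  rw [add_comm 1 x] at h
  simp only [Polynomial.eval_mul, Polynomial.eval_C, h]
  have hn : (n : ℚ) + 1 ≠ 0 := by positivity
  push_cast
  field_simp
  ring

lemma antidiff (P : MvPolynomial ℕ ℚ) (i : ℕ) : ∃ Q : MvPolynomial ℕ ℚ, ∀ val : ℕ → ℚ,
    MvPolynomial.eval (Function.update val i (val i + 1)) Q - MvPolynomial.eval val Q =
      MvPolynomial.eval val P := by
  induction P using MvPolynomial.induction_on' with
  | monomial u a =>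
    obtain ⟨B, hB⟩ := antidiff_one (u i)
    refine ⟨MvPolynomial.monomial (u.erase i) a * Polynomial.aeval (MvPolynomial.X i) B, ?_⟩
    intro val
    have h1 : ∀ val : ℕ → ℚ, MvPolynomial.eval val (Polynomial.aeval (MvPolynomial.X i) B) =
        B.eval (val i) := by
      intro val
      have := Polynomial.hom_eval₂ B (algebraMap ℚ (MvPolynomial ℕ ℚ))
        (MvPolynomial.eval val) (MvPolynomial.X i)
      rw [Polynomial.aeval_def, this, MvPolynomial.eval_X]
      have h2 : (MvPolynomial.eval val).comp (algebraMap ℚ (MvPolynomial ℕ ℚ)) = RingHom.id ℚ := by
        ext x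
        simp
      rw [h2, Polynomial.eval₂_id]
    have h2 : MvPolynomial.eval (Function.update val i (val i + 1))
        (MvPolynomial.monomial (u.erase i) a) =
        MvPolynomial.eval val (MvPolynomial.monomial (u.erase i) a) := by
      rw [MvPolynomial.eval_monomial, MvPolynomial.eval_monomial]
      congr 1
      apply Finsupp.prod_congr
      intro j hj
      rw [Finsupp.support_erase, Finset.mem_erase] at hj
      rw [Function.update_of_ne hj.1]
    have h3 : MvPolynomial.monomial u a = MvPolynomial.monomial (u.erase i) a *
        MvPolynomial.X i ^ (u i) := by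
      rw [MvPolynomial.X_pow_eq_monomial, MvPolynomial.monomial_mul, mul_one,
        Finsupp.erase_add_single]
    rw [map_mul, map_mul, h1, h1, h2, h3, map_mul, map_pow, MvPolynomial.eval_X,
      Function.update_self, ← mul_sub, hB]
  | add p q hp hq =>
    obtain ⟨Q1, h1⟩ := hp
    obtain ⟨Q2, h2⟩ := hq
    refine ⟨Q1 + Q2, ?_⟩
    intro val
    rw [map_add, map_add, map_add, ← h1 val, ← h2 val]
    ring

lemma osum_tele (a b : ℤ) (g : ℤ → ℤ) (H : ℤ → ℚ) (h : ∀ x, H (x + 1) - H x = g x) :
    (osum a b g : ℚ) = H b - H a := by
  have key : ∀ n : ℕ, ∀ a : ℤ, (osum a (a + n) g : ℚ) = H (a + n) - H a := by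
    intro n
    induction n with
    | zero => intro a; simp [osum_self]
    | succ n ih =>
      intro a
      have h1 := osum_right a (a + n) g
      have h2 : a + ((n + 1 : ℕ) : ℤ) = a + n + 1 := by push_cast; ring
      rw [h2, h1]
      push_cast
      rw [ih a, ← h]
      ring
  rcases le_total a b with hab | hab
  · have := key (b - a).toNat a
    have h2 : a + ((b - a).toNat : ℤ) = b := by omega
    rw [h2] at this
    exact this
  · have := key (a - b).toNat b
    have h2 : b + ((a - b).toNat : ℤ) = a := by omega
    rw [h2] at this
    rw [osum_symm]
    push_cast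
    rw [this]
    ring

lemma eval_aeval (P : MvPolynomial ℕ ℚ) (s : ℕ → MvPolynomial ℕ ℚ) (val : ℕ → ℚ) :
    MvPolynomial.eval val (MvPolynomial.bind₁ s P) =
      MvPolynomial.eval (fun i => MvPolynomial.eval val (s i)) P := by
  rw [MvPolynomial.eval, MvPolynomial.eval₂Hom_bind₁]
  rfl

/-- The general closure statement, with parameters. -/
lemma poly_claim (m : ℕ) : ∀ (r : ℕ) (f : List ℤ → ℤ), IsPolyOn (r + m) f →
    ∃ P : MvPolynomial ℕ ℚ, ∀ (p t : List ℤ) (a : ℤ), p.length = r → t.length = m →
      (Saux a t (fun l => f (p ++ l)) : ℚ) = MvPolynomial.eval (vl (p ++ a :: t)) P := by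
  induction m with
  | zero =>
    rintro r f ⟨P, hP⟩
    refine ⟨MvPolynomial.bind₁ (fun i => if i < r then MvPolynomial.X i else 0) P, ?_⟩
    intro p t a hp ht
    rw [List.length_eq_zero_iff] at ht
    subst ht
    rw [Saux_nil, hP (p ++ []) (by simp [hp]), eval_aeval]
    congr 1
    congr 1
    funext i
    unfold vl
    by_cases hi : i < r
    · rw [if_pos hi, MvPolynomial.eval_X, List.append_nil,
        List.getD_append _ _ _ _ (by omega)]
    · simp only [hi, if_false, map_zero, List.append_nil]
      rw [List.getD_eq_default _ _ (by omega)]
      simp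
  | succ m ih =>
    rintro r f ⟨P, hP⟩
    obtain ⟨PH, hPH⟩ := ih (r + 1) f ⟨P, by
      intro l hl
      exact hP l (by omega)⟩
    obtain ⟨Q, hQ⟩ := antidiff PH r
    refine ⟨MvPolynomial.bind₁ (fun i => if i = r then MvPolynomial.X (r + 1) else
      MvPolynomial.X i) Q - Q + MvPolynomial.bind₁ (fun i => if i = r then MvPolynomial.X (r + 1)
      else if i = r + 1 then MvPolynomial.X (r + 1) + 1 else MvPolynomial.X i) PH, ?_⟩
    intro p t a hp ht
    cases t with
    | nil => simp at ht
    | cons b t =>
      have ht' : t.length = m := by simpa using ht
      rw [Saux_cons]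
      push_cast
      rw [map_add, map_sub, eval_aeval, eval_aeval]
      -- the values of the lists
      have hval : ∀ x : ℤ, vl (p ++ x :: b :: t) =
          Function.update (vl (p ++ a :: b :: t)) r (x : ℚ) := by
        intro x
        funext i
        by_cases hi : i = r
        · subst hi
          rw [Function.update_self]
          unfold vl
          rw [List.getD_append_right _ _ _ _ (by omega)]
          simp [hp]
        · rw [Function.update_of_ne hi]
          unfold vl
          rcases lt_or_ge i r with h | h
          · rw [List.getD_append _ _ _ _ (by omega), List.getD_append _ _ _ _ (by omega)]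
          · rw [List.getD_append_right _ _ _ _ (by omega),
              List.getD_append_right _ _ _ _ (by omega)]
            obtain ⟨k, hk⟩ : ∃ k, i - p.length = k + 1 := ⟨i - p.length - 1, by omega⟩
            rw [hk]
            simp
      have hvr1 : vl (p ++ a :: b :: t) (r + 1) = b := by
        unfold vl
        rw [List.getD_append_right _ _ _ _ (by omega)]
        have : r + 1 - p.length = 1 := by omega
        rw [this]
        simp
      have hvr : vl (p ++ a :: b :: t) r = a := by
        unfold vl
        rw [List.getD_append_right _ _ _ _ (by omega)]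
        have : r - p.length = 0 := by omega
        rw [this]
        simp
      congr 1
      · -- the oriented sum
        rw [osum_tele a b _ (fun x : ℤ =>
          MvPolynomial.eval (Function.update (vl (p ++ a :: b :: t)) r (x : ℚ)) Q)]
        · congr 1
          · congr 1
            congr 1
            funext i
            by_cases hi : i = r
            · subst hi
              simp [hvr1]
            · simp [hi]
          · congr 1
            congr 1
            rw [← hvr, Function.update_eq_self]
        · intro x
          have h1 := hPH (p ++ [x]) t b (by simp [hp]) ht'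
          have h2 := hQ (Function.update (vl (p ++ a :: b :: t)) r (x : ℚ))
          rw [Function.update_self, Function.update_idem] at h2
          push_cast
          rw [h2]
          have h3 : (p ++ [x]) ++ b :: t = p ++ x :: b :: t := by simp
          rw [h3, hval x] at h1
          rw [← h1]
          congr 2
          funext l
          simp
      · have h1 := hPH (p ++ [b]) t (b + 1) (by simp [hp]) ht'
        have h4 : (fun l => f (p ++ b :: l)) = fun l => f ((p ++ [b]) ++ l) := by
          funext l; simp
        rw [h4, h1]
        congr 1
        congr 1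
        funext i
        by_cases hi : i = r
        · rw [if_pos hi, MvPolynomial.eval_X, hvr1, hi]
          unfold vl
          rw [List.getD_append _ _ _ _ (by simp [hp]), List.getD_append_right _ _ _ _ (by omega)]
          simp [hp]
        · by_cases hi1 : i = r + 1
          · rw [if_neg hi, if_pos hi1, map_add, MvPolynomial.eval_X, map_one, hvr1, hi1]
            unfold vl
            rw [List.getD_append_right _ _ _ _ (by simp [hp])]
            have h6 : r + 1 - (p ++ [b]).length = 0 := by simp [hp]
            rw [h6]
            simp
          · rw [if_neg hi, if_neg hi1, MvPolynomial.eval_X]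
            unfold vl
            rcases lt_or_ge i r with h | h
            · rw [List.getD_append _ _ _ _ (by simp; omega), List.getD_append _ _ _ _ (by omega),
                List.getD_append _ _ _ _ (by omega)]
            · rw [List.getD_append_right _ _ _ _ (by simp; omega),
                List.getD_append_right _ _ _ _ (by omega)]
              obtain ⟨k, hk⟩ : ∃ k, i - (p ++ [b]).length = k + 1 :=
                ⟨i - (p ++ [b]).length - 1, by simp; omega⟩
              have hk2 : i - p.length = k + 2 := by
                simp only [List.length_append, List.length_singleton] at hk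
                omega
              rw [hk, hk2]
              simp

lemma al_poly (n : ℕ) : IsPolyOn (n + 1) (al n) := by
  induction n with
  | zero =>
    refine ⟨1, ?_⟩
    intro l hl
    rw [zero_add] at hl
    simp [al, hl]
  | succ n ih =>
    have h := poly_claim (n + 1) 0 (al n) (by simpa using ih)
    obtain ⟨P, hP⟩ := h
    refine ⟨P, ?_⟩
    intro l hl
    cases l with
    | nil => simp at hl
    | cons a t =>
      have := hP [] t a rfl (by simpa using hl)
      simpa [al, SS] using this

/-- The polynomial in finitely many variables. -/
lemma al_mvpoly (n : ℕ) : ∃ P : MvPolynomial (Fin (n + 1)) ℚ, ∀ k : Fin (n + 1) → ℤ,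
    MvPolynomial.eval (fun i => (k i : ℚ)) P = (al n (List.ofFn k) : ℚ) := by
  obtain ⟨P, hP⟩ := al_poly n
  refine ⟨MvPolynomial.bind₁ (fun i : ℕ => if h : i < n + 1 then MvPolynomial.X ⟨i, h⟩ else 0) P,
    ?_⟩
  intro k
  rw [hP _ (by simp)]
  rw [MvPolynomial.eval, MvPolynomial.eval₂Hom_bind₁]
  show MvPolynomial.eval _ P = _
  congr 1
  congr 1
  funext i
  unfold vl
  by_cases hi : i < n + 1
  · simp only [hi, dif_pos]
    rw [List.getD_eq_getElem _ _ (by simpa using hi), List.getElem_ofFn]
    simp
  · simp only [hi, dif_neg, not_false_eq_true]
    rw [List.getD_eq_default _ _ (by simp; omega)]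
    simp

/-- A polynomial vanishing at all strictly increasing integer points is zero. -/
lemma eq_zero_of_strictMono {m : ℕ} (D : MvPolynomial (Fin m) ℚ)
    (h : ∀ k : Fin m → ℤ, StrictMono k → MvPolynomial.eval (fun i => (k i : ℚ)) D = 0) :
    D = 0 := by
  -- the claim for the first `j` entries increasing
  have claim : ∀ j : ℕ, j ≤ m → ∀ k : Fin m → ℤ,
      (∀ a b : Fin m, a < b → b.val < m - j → k a < k b) →
      MvPolynomial.eval (fun i => (k i : ℚ)) D = 0 := by
    intro j
    induction j with
    | zero =>
      intro _ k hk
      apply h
      intro a b hab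
      exact hk a b hab (by have := b.isLt; omega)
    | succ j ih =>
      intro hj k hk
      set c : Fin m := ⟨m - j - 1, by omega⟩ with hc
      set p : Polynomial ℚ := MvPolynomial.aeval (fun i => if i = c then Polynomial.X else
        Polynomial.C (k i : ℚ)) D with hp
      have heval : ∀ x : ℤ, p.eval (x : ℚ) =
          MvPolynomial.eval (fun i => ((Function.update k c x) i : ℚ)) D := by
        intro x
        rw [hp, MvPolynomial.aeval_def, ← Polynomial.coe_evalRingHom]
        have := MvPolynomial.hom_eval₂ D (algebraMap ℚ (Polynomial ℚ))
          (Polynomial.evalRingHom (x : ℚ)) (fun i => if i = c then Polynomial.X else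
            Polynomial.C (k i : ℚ))
        rw [← MvPolynomial.coe_eval₂Hom] at this ⊢
        rw [MvPolynomial.coe_eval₂Hom] at this ⊢
        rw [this]
        have h2 : (Polynomial.evalRingHom (x : ℚ)).comp (algebraMap ℚ (Polynomial ℚ)) =
            RingHom.id ℚ := by
          ext y
          simp
        rw [h2]
        show _ = MvPolynomial.eval _ D
        rw [← MvPolynomial.eval₂_id]
        congr 1
        funext i
        by_cases hi : i = c
        · subst hi; simp
        · simp [hi]
      have hp0 : p = 0 := by
        -- infinitely many roots
        obtain ⟨B, hB⟩ : ∃ B : ℤ, ∀ a : Fin m, k a < B := by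
          obtain ⟨B, hB⟩ := (Set.finite_range k).bddAbove
          exact ⟨B + 1, fun a => by have := hB ⟨a, rfl⟩; omega⟩
        apply Polynomial.eq_zero_of_infinite_isRoot
        have hinf : Set.Infinite ((fun x : ℕ => ((B + x : ℤ) : ℚ)) '' Set.univ) := by
          apply Set.infinite_univ.image
          intro x _ y _ hxy
          simpa using hxy
        apply hinf.mono
        rintro _ ⟨x, -, rfl⟩
        show p.eval _ = 0
        rw [heval]
        apply ih (by omega)
        intro a b hab hb
        have hb' : b.val ≤ c.val := by simp only [hc]; omega
        by_cases hbc : b = c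
        · subst hbc
          rw [Function.update_self, Function.update_of_ne (ne_of_lt hab)]
          have := hB a
          omega
        · have hac : a ≠ c := by
            rintro rfl
            have : c.val < b.val := hab
            omega
          rw [Function.update_of_ne hbc, Function.update_of_ne hac]
          apply hk a b hab
          have : b.val ≠ c.val := fun h => hbc (Fin.ext h)
          simp only [hc] at this hb'
          omega
      have := heval (k c)
      rw [Function.update_eq_self, hp0, Polynomial.eval_zero] at this
      exact this.symm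
  apply MvPolynomial.funext_set (fun _ => Set.range (fun x : ℤ => (x : ℚ)))
  · intro i
    exact Set.infinite_range_of_injective (fun a b hab => by simpa using hab)
  · intro x hx
    have : ∀ i, ∃ y : ℤ, (y : ℚ) = x i := fun i => hx i (Set.mem_univ i)
    choose k hk using this
    have h1 := claim m le_rfl k (fun a b _ hb => by omega)
    have h2 : (fun i => (k i : ℚ)) = x := funext hk
    rw [h2] at h1
    rw [h1, map_zero]

end Pool.Agent.H82.MT
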