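import Mathlib
import Pool.Agent.H82.MTCount
import Pool.Agent.H82.MTPoly
import Pool.Agent.H82.MTAsm

set_option autoImplicit false

/-!
# The value of the monotone triangle polynomial at a row with one hole and one descent
-/

namespace Pool.Agent.H82.MT

open Finset

lemma Alt_zeros (n : ℕ) : Alt 1 (List.ofFn (fun _ : Fin n => (0 : ℤ))) := by
  induction n with
  | zero => simp [Alt]
  | succ n ih =>
    rw [List.ofFn_succ, Alt_cons, add_zero]
    exact ⟨Or.inr rfl, ih⟩

lemma Alt_single (n : ℕ) : ∀ j : Fin n,
    Alt 0 (List.ofFn (fun i : Fin n => if i = j then (1 : ℤ) else 0)) := by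
  induction n with
  | zero => intro j; exact Fin.elim0 j
  | succ n ih =>
    intro j
    rw [List.ofFn_succ, Alt_cons]
    refine ⟨Or.inl rfl, ?_⟩
    induction j using Fin.cases with
    | zero =>
      have h : ∀ i : Fin n, ¬ (i.succ = 0) := fun i => Fin.succ_ne_zero i
      simp only [h, if_true, if_false, zero_add]
      exact Alt_zeros n
    | succ j =>
      have h : ¬ ((0 : Fin (n + 1)) = j.succ) := fun h => Fin.succ_ne_zero j h.symm
      simp only [h, if_false, zero_add, Fin.succ_inj]
      exact ih j

lemma top_row {n : ℕ} (v : Fin n → ℤ) (j : Fin n) (hv : ∀ i, v i = 0 ∨ v i = 1)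
    (h : Alt 0 (List.ofFn v)) (hj : v j = 1) : v = fun i => if i = j then (1 : ℤ) else 0 := by
  have h1 := Alt_sum h
  rw [zero_add, List.sum_ofFn] at h1
  have h2 : ∑ i ∈ Finset.univ.erase j, v i = 0 := by
    have := Finset.add_sum_erase Finset.univ v (Finset.mem_univ j)
    rw [h1, hj] at this
    linarith
  have h3 : ∀ i ∈ Finset.univ.erase j, v i = 0 := by
    rwa [Finset.sum_eq_zero_iff_of_nonneg] at h2
    intro i _
    rcases hv i with h | h <;> rw [h]
    norm_num
  funext i
  by_cases hi : i = j
  · rw [if_pos hi, hi, hj]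
  · rw [if_neg hi]
    exact h3 i (by simp [hi])

lemma iv_ne {n : ℕ} (i j : Fin n) : 1 - iv (decide (i ≠ j)) = if i = j then (1 : ℤ) else 0 := by
  by_cases h : i = j <;> simp [iv, h]

/-- Removing the top row of an alternating sign matrix. -/
noncomputable def topEquiv (m : ℕ) (j : Fin (m + 1)) :
    {M : Matrix (Fin (m + 1)) (Fin (m + 1)) ℤ // IsASM M ∧ M ⟨0, j.pos⟩ j = 1} ≃
      Part m (fun i : Fin (m + 1) => decide (i ≠ j)) where
  toFun M := by
    refine ⟨fun r => M.1 r.succ, ?_⟩
    obtain ⟨M, hM, hj⟩ := M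
    rw [isASM_iff] at hM
    have hrow : (fun i => M 0 i) = fun i => if i = j then (1 : ℤ) else 0 := by
      apply top_row _ j _ (hM.1 0) hj
      intro i
      have h := hM.2 i
      rw [List.ofFn_succ, Alt_cons] at h
      have := Alt_state h.2
      omega
    refine ⟨fun r => hM.1 r.succ, ?_⟩
    intro i
    have h := hM.2 i
    rw [List.ofFn_succ, Alt_cons] at h
    have h2 : M 0 i = if i = j then (1 : ℤ) else 0 := congrFun hrow i
    rw [iv_ne, ← h2, ← zero_add (M 0 i)]
    exact h.2
  invFun M := ⟨Matrix.of (Fin.cons (fun i => if i = j then (1 : ℤ) else 0) M.1 :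
      Fin (m + 1) → Fin (m + 1) → ℤ), by
    refine ⟨?_, ?_⟩
    · rw [isASM_iff]
      refine ⟨?_, ?_⟩
      · intro r
        induction r using Fin.cases with
        | zero =>
          simp only [Matrix.of_apply, Fin.cons_zero]
          exact Alt_single _ j
        | succ r =>
          simp only [Matrix.of_apply, Fin.cons_succ]
          exact M.2.1 r
      · intro i
        rw [List.ofFn_succ, Alt_cons]
        refine ⟨Or.inl rfl, ?_⟩
        simp only [Matrix.of_apply, Fin.cons_zero, Fin.cons_succ, zero_add]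
        rw [← iv_ne]
        exact M.2.2 i
    · show (Fin.cons (fun i => if i = j then (1 : ℤ) else 0) M.1 :
        Fin (m + 1) → Fin (m + 1) → ℤ) 0 j = 1
      rw [Fin.cons_zero]
      exact if_pos rfl⟩
  left_inv M := by
    obtain ⟨M, hM, hj⟩ := M
    apply Subtype.ext
    funext r i
    induction r using Fin.cases with
    | zero =>
      simp only [Matrix.of_apply, Fin.cons_zero]
      rw [isASM_iff] at hM
      have hrow : (fun i => M 0 i) = fun i => if i = j then (1 : ℤ) else 0 := by
        apply top_row _ j _ (hM.1 0) hj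
        intro i
        have h := hM.2 i
        rw [List.ofFn_succ, Alt_cons] at h
        have := Alt_state h.2
        omega
      exact (congrFun hrow i).symm
    | succ r => simp only [Matrix.of_apply, Fin.cons_succ]
  right_inv M := by
    apply Subtype.ext
    funext r i
    simp only [Matrix.of_apply, Fin.cons_succ]

lemma pos_rg (n : ℕ) : ∀ p : ℤ, pos p (List.ofFn fun _ : Fin n => true) = rg p n := by
  induction n with
  | zero => intro p; simp [pos, rg]
  | succ n ih =>
    intro p
    rw [List.ofFn_succ, pos, rg, if_pos rfl, ih]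

lemma pos_om (n : ℕ) : ∀ (j : Fin n) (p : ℤ),
    pos p (List.ofFn fun i : Fin n => decide (i ≠ j)) = om p n j.val := by
  induction n with
  | zero => intro j; exact Fin.elim0 j
  | succ n ih =>
    intro j p
    rw [List.ofFn_succ, pos]
    induction j using Fin.cases with
    | zero =>
      have h : ∀ i : Fin n, i.succ ≠ 0 := fun i => Fin.succ_ne_zero i
      simp only [ne_eq, not_true_eq_false, decide_false, Bool.false_eq_true, if_false, h,
        not_false_eq_true, decide_true]
      rw [pos_rg]
      rfl
    | succ j =>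
      have h : (0 : Fin (n + 1)) ≠ j.succ := fun h => Fin.succ_ne_zero j h.symm
      have h2 : ∀ i : Fin n, (i.succ ≠ j.succ) = (i ≠ j) := by
        intro i; simp [Fin.succ_inj]
      simp only [h2, ne_eq, h, not_false_eq_true, decide_true, if_true]
      have := ih j (p + 1)
      simp only [ne_eq] at this
      rw [this]
      rfl

lemma refinedASM_eq (N : ℕ) (j : Fin (N + 2)) :
    (refinedASM (N + 2) j : ℤ) = al N (om 1 (N + 2) j.val) := by
  unfold refinedASM
  rw [Nat.card_congr (topEquiv (N + 1) j), (part_count (N + 1) _).2, pos_om]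
  rfl

lemma rg_length (m : ℕ) : ∀ p : ℤ, (rg p m).length = m := by
  induction m with
  | zero => intro p; rfl
  | succ m ih => intro p; rw [rg, List.length_cons, ih]

lemma rg_getElem (m : ℕ) : ∀ (p : ℤ) (q : ℕ) (h : q < (rg p m).length), (rg p m)[q] = p + q := by
  induction m with
  | zero => intro p q h; simp [rg] at h
  | succ m ih =>
    intro p q h
    cases q with
    | zero => simp [rg]
    | succ q =>
      have h1 : (rg p (m + 1))[q + 1] = (rg (p + 1) m)[q]'(by
        rw [rg_length] at h ⊢; omega) := rfl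
      rw [h1, ih]
      push_cast
      ring

lemma ofFn_holeDescent (n k m : ℕ) (h : n = k + 1 + m) :
    List.ofFn (holeDescent n (k + 1)) = hrow k m := by
  apply List.ext_getElem
  · simp only [List.length_ofFn, hrow, List.length_append, List.length_cons, rg_length]
    omega
  · intro q h1 h2
    rw [List.getElem_ofFn]
    simp only [hrow, List.getElem_append, rg_length, holeDescent]
    rcases lt_trichotomy q k with g | g | g
    · rw [if_pos (by omega), dif_pos g, rg_getElem]
      ring
    · subst g
      rw [if_neg (by omega), if_pos rfl, dif_neg (by omega)]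
      simp only [Nat.sub_self, List.getElem_cons_zero]
      push_cast
      ring
    · rw [if_neg (by omega), if_neg (by omega), dif_neg (by omega)]
      obtain ⟨r, rfl⟩ : ∃ r, q = k + 1 + r := ⟨q - k - 1, by omega⟩
      have hr : k + 1 + r - k = r + 1 := by omega
      simp only [hr, List.getElem_cons_succ]
      cases r with
      | zero =>
        rw [List.getElem_cons_zero]
        push_cast
        ring
      | succ r =>
        rw [List.getElem_cons_succ, rg_getElem]
        push_cast
        ring

theorem main :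
    (∀ n : ℕ, ∃! P : MvPolynomial (Fin (n + 1)) ℚ, IsTrianglePolynomial n P) ∧
    ∀ n i : ℕ, 1 ≤ i → i + 1 ≤ n → ∀ P : MvPolynomial (Fin (n + 1)) ℚ, IsTrianglePolynomial n P →
      MvPolynomial.eval (fun p => (holeDescent n i p : ℚ)) P =
        ∑ j : Fin n, ((i : ℚ) - ((j.val : ℚ) + 1)) * (refinedASM n j : ℚ) := by
  have hex : ∀ n : ℕ, ∃ P : MvPolynomial (Fin (n + 1)) ℚ, IsTrianglePolynomial n P ∧
      (∀ k : Fin (n + 1) → ℤ,
        MvPolynomial.eval (fun i => (k i : ℚ)) P = (al n (List.ofFn k) : ℚ)) ∧
      ∀ Q : MvPolynomial (Fin (n + 1)) ℚ, IsTrianglePolynomial n Q → Q = P := by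
    intro n
    obtain ⟨P, hP⟩ := al_mvpoly n
    have h1 : IsTrianglePolynomial n P := by
      intro k hk
      rw [hP k, ← (count_eq n k hk).2]
      push_cast
      rfl
    refine ⟨P, h1, hP, ?_⟩
    intro Q hQ
    rw [← sub_eq_zero]
    apply eq_zero_of_strictMono
    intro k hk
    rw [map_sub, hQ k hk, h1 k hk, sub_self]
  refine ⟨?_, ?_⟩
  · intro n
    obtain ⟨P, h1, -, h3⟩ := hex n
    exact ⟨P, h1, h3⟩
  · intro n i hi hn P hP
    obtain ⟨P', -, h2, h3⟩ := hex n
    rw [h3 P hP, h2]
    obtain ⟨k, rfl⟩ : ∃ k, i = k + 1 := ⟨i - 1, by omega⟩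
    obtain ⟨N, rfl⟩ : ∃ N, n = N + 2 := ⟨n - 2, by omega⟩
    obtain ⟨m, hm⟩ : ∃ m, N + 2 = k + 1 + m := ⟨N + 1 - k, by omega⟩
    rw [ofFn_holeDescent _ k m hm, hrow_val N k m (by omega) (by omega),
      ← Fin.sum_univ_eq_sum_range (fun j => ((k : ℤ) - j) * al N (om 1 (N + 2) j)) (N + 2)]
    push_cast
    apply Finset.sum_congr rfl
    intro j _
    have := refinedASM_eq N j
    have h4 : (refinedASM (N + 2) j : ℚ) = (al N (om 1 (N + 2) j.val) : ℚ) := by
      rw [← this]; simp
    rw [h4]
    ring

end Pool.Agent.H82.MT
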