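import Mathlib

set_option autoImplicit false

/-!
# An explicit labelling of a union of cycles

`len c`, `c < K`, are the lengths of `K` cycles (length zero means that the cycle is absent).  The
labelling `lab` of the positions `(c, p)`, `p < len c`, takes the values `0, ..., n - 1` once each,
and the labels at cyclically consecutive positions have sum `n - 1` up to a controlled error.
-/

namespace Pool.Agent.H82.NbUpper

open Finset

variable (K : ℕ) (len : ℕ → ℕ)

/-- half length of an odd cycle -/
def A (c : ℕ) : ℕ := if len c % 2 = 1 then len c / 2 else 0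

/-- half length of an even cycle -/
def B (c : ℕ) : ℕ := if len c % 2 = 0 then len c / 2 else 0

/-- number of odd cycles alive at level `j` -/
def oc (j : ℕ) : ℕ := ((range K).filter (fun c => j < A len c)).card

/-- rank of `c` at level `j` -/
def rk (j c : ℕ) : ℕ := ((range c).filter (fun c' => j < A len c')).card

/-- prefix sums of `oc` -/
def S (j : ℕ) : ℕ := ∑ i ∈ range j, oc K len i

/-- number of high labels of odd cycles -/
def NH : ℕ := ∑ c ∈ range K, A len c

/-- prefix sums of `B` -/
def Tb (c : ℕ) : ℕ := ∑ e ∈ range c, B len e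

lemma rk_lt {j c : ℕ} (hc : c < K) (hj : j < A len c) : rk len j c < oc K len j := by
  unfold rk oc
  apply Finset.card_lt_card
  rw [Finset.ssubset_iff_of_subset]
  · refine ⟨c, ?_, ?_⟩
    · rw [Finset.mem_filter, Finset.mem_range]; exact ⟨hc, hj⟩
    · rw [Finset.mem_filter, Finset.mem_range]; rintro ⟨h, -⟩; exact lt_irrefl _ h
  · intro x hx
    rw [Finset.mem_filter, Finset.mem_range] at hx ⊢
    exact ⟨lt_trans hx.1 hc, hx.2⟩

lemma rk_strict {j c c' : ℕ} (hcc : c < c') (hj : j < A len c) : rk len j c < rk len j c' := by
  unfold rk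
  apply Finset.card_lt_card
  rw [Finset.ssubset_iff_of_subset]
  · refine ⟨c, ?_, ?_⟩
    · rw [Finset.mem_filter, Finset.mem_range]; exact ⟨hcc, hj⟩
    · rw [Finset.mem_filter, Finset.mem_range]; rintro ⟨h, -⟩; exact lt_irrefl _ h
  · intro x hx
    rw [Finset.mem_filter, Finset.mem_range] at hx ⊢
    exact ⟨lt_trans hx.1 hcc, hx.2⟩

lemma rk_inj {j c c' : ℕ} (hj : j < A len c) (hj' : j < A len c')
    (h : rk len j c = rk len j c') : c = c' := by
  rcases lt_trichotomy c c' with h1 | h1 | h1
  · have := rk_strict len h1 hj; omega
  · exact h1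
  · have := rk_strict len h1 hj'; omega

lemma rk_anti (j c : ℕ) : rk len (j + 1) c ≤ rk len j c := by
  unfold rk
  apply Finset.card_le_card
  intro x hx
  rw [Finset.mem_filter, Finset.mem_range] at hx ⊢
  exact ⟨hx.1, by omega⟩

lemma oc_anti (j : ℕ) : oc K len (j + 1) ≤ oc K len j := by
  unfold oc
  apply Finset.card_le_card
  intro x hx
  rw [Finset.mem_filter, Finset.mem_range] at hx ⊢
  exact ⟨hx.1, by omega⟩

lemma oc_le (j : ℕ) : oc K len j ≤ oc K len 0 := by
  induction j with
  | zero => exact le_refl _
  | succ k ih => exact le_trans (oc_anti K len k) ih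

lemma oc_split {c : ℕ} (hc : c ≤ K) (j : ℕ) : oc K len j =
    rk len j c + ((Ico c K).filter (fun c' => j < A len c')).card := by
  unfold oc rk
  rw [← Finset.card_union_of_disjoint]
  · congr 1
    rw [← Finset.filter_union]
    congr 1
    ext x
    simp only [Finset.mem_range, Finset.mem_union, Finset.mem_Ico]
    omega
  · rw [Finset.disjoint_left]
    intro x hx hx'
    rw [Finset.mem_filter, Finset.mem_range] at hx
    rw [Finset.mem_filter, Finset.mem_Ico] at hx'
    omega

lemma rk_diff {c : ℕ} (hc : c ≤ K) (j : ℕ) :
    rk len j c + oc K len (j + 1) ≤ oc K len j + rk len (j + 1) c := by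
  rw [oc_split K len hc j, oc_split K len hc (j + 1)]
  have : ((Ico c K).filter (fun c' => j + 1 < A len c')).card ≤
      ((Ico c K).filter (fun c' => j < A len c')).card := by
    apply Finset.card_le_card
    intro x hx
    rw [Finset.mem_filter] at hx ⊢
    exact ⟨hx.1, by omega⟩
  omega

lemma S_succ (j : ℕ) : S K len (j + 1) = S K len j + oc K len j := by
  unfold S; rw [Finset.sum_range_succ]

lemma S_mono {i j : ℕ} (h : i ≤ j) : S K len i ≤ S K len j := by
  unfold S
  apply Finset.sum_le_sum_of_subset
  intro x hx
  rw [Finset.mem_range] at hx ⊢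
  omega

lemma S_le_NH (j : ℕ) : S K len j ≤ NH K len := by
  unfold S NH oc
  have : ∀ i ∈ range j, ((range K).filter (fun c => i < A len c)).card =
      ∑ c ∈ range K, if i < A len c then 1 else 0 := by
    intro i _
    rw [Finset.card_filter]
  rw [Finset.sum_congr rfl this, Finset.sum_comm]
  apply Finset.sum_le_sum
  intro c _
  rw [← Finset.card_filter]
  calc ((range j).filter (fun i => i < A len c)).card ≤ (range (A len c)).card := by
        apply Finset.card_le_card
        intro x hx
        rw [Finset.mem_filter] at hx
        rw [Finset.mem_range]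
        exact hx.2
    _ = A len c := Finset.card_range _

lemma Tb_succ (c : ℕ) : Tb len (c + 1) = Tb len c + B len c := by
  unfold Tb; rw [Finset.sum_range_succ]

lemma Tb_mono {i j : ℕ} (h : i ≤ j) : Tb len i ≤ Tb len j := by
  unfold Tb
  apply Finset.sum_le_sum_of_subset
  intro x hx
  rw [Finset.mem_range] at hx ⊢
  omega

/-- total number of positions -/
lemma total (hlen : ∀ c < K, len c % 2 = 1 → 3 ≤ len c) :
    ∑ c ∈ range K, len c = 2 * Tb len K + 2 * NH K len + oc K len 0 := by
  have h1 : ∀ c ∈ range K, len c = 2 * B len c + 2 * A len c + (if 0 < A len c then 1 else 0) := by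
    intro c hc
    rw [Finset.mem_range] at hc
    have := hlen c hc
    unfold A B
    rcases Nat.mod_two_eq_zero_or_one (len c) with h | h
    · rw [if_pos h, if_neg (by omega)]
      simp
      omega
    · rw [if_neg (by omega), if_pos h]
      have := this h
      rw [if_pos (by omega)]
      omega
  rw [Finset.sum_congr rfl h1, Finset.sum_add_distrib, Finset.sum_add_distrib, ← Finset.mul_sum,
    ← Finset.mul_sum]
  unfold Tb NH oc
  rw [Finset.card_filter]

/-- position of an even cycle vertex -/
def posE (c p : ℕ) : ℕ := Tb len c + min p (len c - 1 - p)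

/-- level of an odd cycle vertex -/
def lv (c p : ℕ) : ℕ := if p ≤ len c / 2 then p - 1 else len c - 1 - p

/-- position of an odd cycle vertex -/
def posO (c p : ℕ) : ℕ := S K len (lv len c p) +
  (if p ≤ len c / 2 then rk len (lv len c p) c else
    oc K len (lv len c p) - 1 - rk len (lv len c p) c)

/-- the label -/
def lab (c p : ℕ) : ℤ :=
  if len c % 2 = 0 then
    (if p % 2 = 0 then (Tb len K : ℤ) + 2 * NH K len + oc K len 0 + posE len c p
      else (Tb len K : ℤ) - 1 - posE len c p)
  else if p = 0 then (Tb len K : ℤ) + NH K len + (oc K len 0 - 1 - rk len 0 c)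
  else if p % 2 = 1 then (Tb len K : ℤ) + NH K len + oc K len 0 + posO K len c p
  else (Tb len K : ℤ) + NH K len - 1 - posO K len c p

lemma posE_bounds {c p : ℕ} (hc : c < K) (hp : p < len c) (he : len c % 2 = 0) :
    Tb len c ≤ posE len c p ∧ posE len c p < Tb len (c + 1) ∧ posE len c p < Tb len K := by
  have h1 : posE len c p < Tb len (c + 1) := by
    rw [Tb_succ]
    unfold posE B
    rw [if_pos he]
    omega
  refine ⟨by unfold posE; omega, h1, lt_of_lt_of_le h1 (Tb_mono len (by omega))⟩

lemma lv_lt {c p : ℕ} (hp : p < len c) (ho : len c % 2 = 1) (hp0 : p ≠ 0) :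
    lv len c p < A len c := by
  unfold lv A
  rw [if_pos ho]
  split_ifs <;> omega

lemma posO_bounds {c p : ℕ} (hc : c < K) (hp : p < len c) (ho : len c % 2 = 1) (hp0 : p ≠ 0) :
    S K len (lv len c p) ≤ posO K len c p ∧ posO K len c p < S K len (lv len c p + 1) ∧
      posO K len c p < NH K len := by
  have h0 := lv_lt len hp ho hp0
  have h2 := rk_lt K len hc h0
  have h1 : posO K len c p < S K len (lv len c p + 1) := by
    rw [S_succ]
    unfold posO
    split_ifs <;> omega
  exact ⟨by unfold posO; omega, h1, lt_of_lt_of_le h1 (S_le_NH K len _)⟩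

lemma rk0_lt {c : ℕ} (hc : c < K) (h3 : 3 ≤ len c) (ho : len c % 2 = 1) :
    rk len 0 c < oc K len 0 := by
  apply rk_lt K len hc
  unfold A
  rw [if_pos ho]
  omega

lemma lab_range (hlen : ∀ c < K, len c % 2 = 1 → 3 ≤ len c) {c p : ℕ} (hc : c < K)
    (hp : p < len c) :
    0 ≤ lab K len c p ∧
      lab K len c p < 2 * (Tb len K : ℤ) + 2 * NH K len + oc K len 0 := by
  rcases Nat.mod_two_eq_zero_or_one (len c) with he | ho
  · have hb := posE_bounds K len hc hp he
    unfold lab
    rw [if_pos he]
    split_ifs <;> omega
  · unfold lab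
    rw [if_neg (by omega)]
    by_cases hp0 : p = 0
    · rw [if_pos hp0]
      have := rk0_lt K len hc (hlen c hc ho) ho
      omega
    · rw [if_neg hp0]
      have hb := posO_bounds K len hc hp ho hp0
      split_ifs <;> omega

lemma lab_inj (hlen : ∀ c < K, len c % 2 = 1 → 3 ≤ len c) {c p c' p' : ℕ} (hc : c < K)
    (hp : p < len c) (hc' : c' < K) (hp' : p' < len c') (h : lab K len c p = lab K len c' p') :
    c = c' ∧ p = p' := by
  rcases Nat.mod_two_eq_zero_or_one (len c) with he | ho <;>
    rcases Nat.mod_two_eq_zero_or_one (len c') with he' | ho'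
  · -- both even
    have hb := posE_bounds K len hc hp he
    have hb' := posE_bounds K len hc' hp' he'
    have hpar : p % 2 = p' % 2 ∧ posE len c p = posE len c' p' := by
      unfold lab at h
      rw [if_pos he, if_pos he'] at h
      split_ifs at h <;> omega
    obtain ⟨hpar, hpos⟩ := hpar
    have hcc : c = c' := by
      rcases lt_trichotomy c c' with h1 | h1 | h1
      · have := Tb_mono len (show c + 1 ≤ c' by omega)
        omega
      · exact h1
      · have := Tb_mono len (show c' + 1 ≤ c by omega)
        omega
    subst hcc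
    refine ⟨rfl, ?_⟩
    unfold posE at hpos
    omega
  · exfalso
    have hb := posE_bounds K len hc hp he
    unfold lab at h
    rw [if_pos he, if_neg (by omega : ¬ len c' % 2 = 0)] at h
    by_cases hp0 : p' = 0
    · rw [if_pos hp0] at h
      have := rk0_lt K len hc' (hlen c' hc' ho') ho'
      split_ifs at h <;> omega
    · rw [if_neg hp0] at h
      have hb' := posO_bounds K len hc' hp' ho' hp0
      split_ifs at h <;> omega
  · exfalso
    have hb := posE_bounds K len hc' hp' he'
    unfold lab at h
    rw [if_pos he', if_neg (by omega : ¬ len c % 2 = 0)] at h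
    by_cases hp0 : p = 0
    · rw [if_pos hp0] at h
      have := rk0_lt K len hc (hlen c hc ho) ho
      split_ifs at h <;> omega
    · rw [if_neg hp0] at h
      have hb' := posO_bounds K len hc hp ho hp0
      split_ifs at h <;> omega
  · unfold lab at h
    rw [if_neg (by omega : ¬ len c % 2 = 0), if_neg (by omega : ¬ len c' % 2 = 0)] at h
    by_cases hp0 : p = 0 <;> by_cases hp0' : p' = 0
    · rw [if_pos hp0, if_pos hp0'] at h
      have h1 := rk0_lt K len hc (hlen c hc ho) ho
      have h2 := rk0_lt K len hc' (hlen c' hc' ho') ho'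
      have h3 : rk len 0 c = rk len 0 c' := by omega
      refine ⟨rk_inj len ?_ ?_ h3, by omega⟩
      · unfold A; rw [if_pos ho]; have := hlen c hc ho; omega
      · unfold A; rw [if_pos ho']; have := hlen c' hc' ho'; omega
    · exfalso
      rw [if_pos hp0, if_neg hp0'] at h
      have h1 := rk0_lt K len hc (hlen c hc ho) ho
      have hb' := posO_bounds K len hc' hp' ho' hp0'
      split_ifs at h <;> omega
    · exfalso
      rw [if_neg hp0, if_pos hp0'] at h
      have h1 := rk0_lt K len hc' (hlen c' hc' ho') ho'
      have hb' := posO_bounds K len hc hp ho hp0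
      split_ifs at h <;> omega
    · rw [if_neg hp0, if_neg hp0'] at h
      have hb := posO_bounds K len hc hp ho hp0
      have hb' := posO_bounds K len hc' hp' ho' hp0'
      have hpar : p % 2 = p' % 2 ∧ posO K len c p = posO K len c' p' := by
        split_ifs at h <;> omega
      obtain ⟨hpar, hpos⟩ := hpar
      have hlv : lv len c p = lv len c' p' := by
        rcases lt_trichotomy (lv len c p) (lv len c' p') with h1 | h1 | h1
        · have := S_mono K len (show lv len c p + 1 ≤ lv len c' p' by omega)
          omega
        · exact h1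
        · have := S_mono K len (show lv len c' p' + 1 ≤ lv len c p by omega)
          omega
      have hbr : (p ≤ len c / 2 ↔ p' ≤ len c' / 2) := by
        unfold lv at hlv
        split_ifs at hlv <;> omega
      have hl := lv_lt len hp ho hp0
      have hl' := lv_lt len hp' ho' hp0'
      have hr := rk_lt K len hc hl
      have hr' := rk_lt K len hc' hl'
      have hrk : rk len (lv len c p) c = rk len (lv len c p) c' := by
        unfold posO at hpos
        rw [hlv] at hpos hr
        rw [hlv]
        by_cases hq : p ≤ len c / 2
        · rw [if_pos hq, if_pos (hbr.1 hq)] at hpos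
          omega
        · rw [if_neg hq, if_neg (fun h' => hq (hbr.2 h'))] at hpos
          omega
      have hcc : c = c' := rk_inj len hl (by rw [hlv]; exact hl') hrk
      subst hcc
      refine ⟨rfl, ?_⟩
      unfold lv at hlv
      split_ifs at hlv <;> omega

/-- consecutive sums in an even cycle -/
lemma lab_even {c p : ℕ} (hp : p < len c) (he : len c % 2 = 0) :
    -1 ≤ lab K len c p + lab K len c (if p + 1 = len c then 0 else p + 1) -
      (2 * (Tb len K : ℤ) + 2 * NH K len + oc K len 0 - 1) ∧
    lab K len c p + lab K len c (if p + 1 = len c then 0 else p + 1) -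
      (2 * (Tb len K : ℤ) + 2 * NH K len + oc K len 0 - 1) ≤ 1 ∧
    (len c = 2 → lab K len c p + lab K len c (if p + 1 = len c then 0 else p + 1) -
      (2 * (Tb len K : ℤ) + 2 * NH K len + oc K len 0 - 1) = 0) := by
  unfold lab posE
  simp only [if_pos he]
  by_cases h1 : p + 1 = len c
  · rw [if_pos h1]
    have hp1 : p % 2 = 1 := by omega
    rw [if_neg (by omega : ¬ p % 2 = 0)]
    simp only [Nat.zero_mod, if_true]
    refine ⟨?_, ?_, ?_⟩
    · omega
    · omega
    · intro h2
      omega
  · rw [if_neg h1]
    by_cases hp1 : p % 2 = 0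
    · rw [if_pos hp1, if_neg (by omega : ¬ (p + 1) % 2 = 0)]
      refine ⟨?_, ?_, ?_⟩
      · omega
      · omega
      · intro h2
        omega
    · rw [if_neg hp1, if_pos (by omega : (p + 1) % 2 = 0)]
      refine ⟨?_, ?_, ?_⟩
      · omega
      · omega
      · intro h2
        omega

/-- consecutive positions of an odd cycle -/
lemma pos_diff {c p : ℕ} (hc : c < K) (hp : p + 1 < len c) (ho : len c % 2 = 1) (hp0 : p ≠ 0) :
    (posO K len c p : ℤ) - posO K len c (p + 1) ≤ oc K len 0 ∧
    -(oc K len 0 : ℤ) ≤ (posO K len c p : ℤ) - posO K len c (p + 1) := by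
  have hl := lv_lt len (show p < len c by omega) ho hp0
  have hl' := lv_lt len hp ho (by omega)
  have hr := rk_lt K len hc hl
  have hr' := rk_lt K len hc hl'
  by_cases h1 : p + 1 ≤ len c / 2
  · have e1 : lv len c (p + 1) = lv len c p + 1 := by
      unfold lv; rw [if_pos h1, if_pos (by omega)]; omega
    have e2 : posO K len c p = S K len (lv len c p) + rk len (lv len c p) c := by
      unfold posO; rw [if_pos (by omega)]
    have e3 : posO K len c (p + 1) = S K len (lv len c p) + oc K len (lv len c p) +
        rk len (lv len c p + 1) c := by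
      unfold posO; rw [if_pos h1, e1, S_succ]
    have e4 := rk_anti len (lv len c p) c
    have e5 := oc_le K len (lv len c p)
    rw [e2, e3]
    push_cast
    omega
  · by_cases h2 : p ≤ len c / 2
    · have h3 : p = len c / 2 := by omega
      have e1 : lv len c (p + 1) = lv len c p := by
        unfold lv; rw [if_neg h1, if_pos h2]; omega
      have e2 : posO K len c p = S K len (lv len c p) + rk len (lv len c p) c := by
        unfold posO; rw [if_pos (by omega)]
      have e3 : posO K len c (p + 1) = S K len (lv len c p) + (oc K len (lv len c p) - 1 -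
          rk len (lv len c p) c) := by
        unfold posO; rw [if_neg h1, e1]
      have e5 := oc_le K len (lv len c p)
      rw [e2, e3]
      omega
    · have e1 : lv len c p = lv len c (p + 1) + 1 := by
        unfold lv; rw [if_neg h1, if_neg h2]; omega
      have e2 : posO K len c p = S K len (lv len c (p + 1)) + oc K len (lv len c (p + 1)) +
          (oc K len (lv len c (p + 1) + 1) - 1 - rk len (lv len c (p + 1) + 1) c) := by
        unfold posO; rw [if_neg h2, e1, S_succ]
      have e3 : posO K len c (p + 1) = S K len (lv len c (p + 1)) +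
          (oc K len (lv len c (p + 1)) - 1 - rk len (lv len c (p + 1)) c) := by
        unfold posO; rw [if_neg h1]
      have e4 := rk_diff K len (le_of_lt hc) (lv len c (p + 1))
      have e5 := oc_le K len (lv len c (p + 1))
      have e6 := rk_anti len (lv len c (p + 1)) c
      rw [e1] at hr
      rw [e2, e3]
      omega

/-- consecutive sums in an odd cycle -/
lemma lab_odd {c p : ℕ} (hc : c < K) (hp : p < len c) (ho : len c % 2 = 1) (h3 : 3 ≤ len c) :
    -(oc K len 0 : ℤ) ≤ lab K len c p + lab K len c (if p + 1 = len c then 0 else p + 1) -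
      (2 * (Tb len K : ℤ) + 2 * NH K len + oc K len 0 - 1) ∧
    lab K len c p + lab K len c (if p + 1 = len c then 0 else p + 1) -
      (2 * (Tb len K : ℤ) + 2 * NH K len + oc K len 0 - 1) ≤ oc K len 0 := by
  have hr := rk0_lt K len hc h3 ho
  have hne : ¬ len c % 2 = 0 := by omega
  by_cases hp0 : p = 0
  · subst hp0
    have e1 : posO K len c 1 = rk len 0 c := by
      unfold posO lv
      rw [if_pos (by omega), if_pos (by omega)]
      simp [S]
    rw [if_neg (by omega)]
    unfold lab
    rw [if_neg hne, if_neg hne, if_pos rfl, if_neg (by omega), if_pos (by omega), zero_add, e1]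
    omega
  · by_cases h1 : p + 1 = len c
    · have e1 : posO K len c p = oc K len 0 - 1 - rk len 0 c := by
        unfold posO lv
        rw [if_neg (by omega), if_neg (by omega)]
        have : len c - 1 - p = 0 := by omega
        rw [this]
        simp [S]
      rw [if_pos h1]
      unfold lab
      rw [if_neg hne, if_neg hne, if_neg hp0, if_pos rfl, if_neg (by omega), e1]
      omega
    · rw [if_neg h1]
      have hd := pos_diff K len hc (show p + 1 < len c by omega) ho hp0
      unfold lab
      rw [if_neg hne, if_neg hne, if_neg hp0, if_neg (by omega : ¬ p + 1 = 0)]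
      by_cases h2 : p % 2 = 1
      · rw [if_pos h2, if_neg (by omega)]
        omega
      · rw [if_neg h2, if_pos (by omega)]
        omega

end Pool.Agent.H82.NbUpper
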