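import Mathlib
import Pool.Agent.H82.NbUpper

set_option autoImplicit false

/-!
# Labellings of a disjoint union of cycles: upper and lower bounds
-/

namespace Pool.Agent.H82.NbCycles

open Finset Pool.Agent.H82.NbUpper

/-- successor on a cycle -/
def sc {m : ℕ} (x : Fin m) : Fin m :=
  ⟨if x.val + 1 = m then 0 else x.val + 1, by split_ifs <;> omega⟩

/-- predecessor on a cycle -/
def pr {m : ℕ} (x : Fin m) : Fin m :=
  ⟨if x.val = 0 then m - 1 else x.val - 1, by split_ifs <;> omega⟩

lemma sc_val {m : ℕ} (x : Fin m) : (sc x).val = if x.val + 1 = m then 0 else x.val + 1 := rfl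

lemma pr_val {m : ℕ} (x : Fin m) : (pr x).val = if x.val = 0 then m - 1 else x.val - 1 := rfl

lemma sc_pr {m : ℕ} (x : Fin m) : sc (pr x) = x := by
  apply Fin.ext
  have hx := x.isLt
  rw [sc_val, pr_val]
  split_ifs <;> omega

lemma pr_sc {m : ℕ} (x : Fin m) : pr (sc x) = x := by
  apply Fin.ext
  have hx := x.isLt
  rw [pr_val, sc_val]
  by_cases h : x.val + 1 = m
  · rw [if_pos h, if_pos rfl]; omega
  · rw [if_neg h, if_neg (by omega)]; omega

lemma sc_inj {m : ℕ} {x y : Fin m} (h : sc x = sc y) : x = y := by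
  rw [← pr_sc x, h, pr_sc]

lemma pr_ne_sc {m : ℕ} (hm : 3 ≤ m) (x : Fin m) : pr x ≠ sc x := by
  intro h
  have := congrArg Fin.val h
  rw [pr_val, sc_val] at this
  split_ifs at this <;> omega

/-- The contribution of a cycle. -/
def oo (m : ℕ) : ℕ := if m % 2 = 1 then 1 else if m % 4 = 2 then 2 else 0

variable {k : ℕ} (t : Fin k → ℕ)

/-- extension of `t` -/
def tt (i : ℕ) : ℕ := if h : i < k then t ⟨i, h⟩ else 0

/-- lengths of the cycles of the distance two graph -/
def len (c : ℕ) : ℕ :=
  if tt t (c / 2) % 2 = 1 then (if c % 2 = 0 then tt t (c / 2) else 0) else tt t (c / 2) / 2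

/-- cycle index of a vertex -/
def ci (m i x : ℕ) : ℕ := if m % 2 = 1 then 2 * i else 2 * i + x % 2

/-- position of a vertex -/
def ps (m x : ℕ) : ℕ := if m % 2 = 1 then (if x % 2 = 0 then x / 2 else (x + m) / 2) else x / 2

lemma sum_pairs (f : ℕ → ℕ) (n : ℕ) :
    ∑ c ∈ range (2 * n), f c = ∑ i ∈ range n, (f (2 * i) + f (2 * i + 1)) := by
  induction n with
  | zero => simp
  | succ n ih =>
    have : 2 * (n + 1) = 2 * n + 1 + 1 := by ring
    rw [this, Finset.sum_range_succ, Finset.sum_range_succ, ih, Finset.sum_range_succ]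
    ring

lemma tt_val (i : Fin k) : tt t i.val = t i := by
  unfold tt; rw [dif_pos i.isLt]

lemma len_three (ht : ∀ i, 3 ≤ t i) : ∀ c < 2 * k, len t c % 2 = 1 → 3 ≤ len t c := by
  intro c hc hodd
  have hi : c / 2 < k := by omega
  have h3 : 3 ≤ tt t (c / 2) := by
    unfold tt; rw [dif_pos hi]; exact ht _
  unfold len at hodd ⊢
  split_ifs at hodd ⊢ <;> omega

lemma sum_len : ∑ c ∈ range (2 * k), len t c = ∑ i, t i := by
  rw [sum_pairs, Finset.sum_range]
  apply Finset.sum_congr rfl
  intro i _
  have h1 : 2 * i.val / 2 = i.val := by omega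
  have h2 : (2 * i.val + 1) / 2 = i.val := by omega
  have h3 : 2 * i.val % 2 = 0 := by omega
  have h4 : (2 * i.val + 1) % 2 = 1 := by omega
  unfold len
  rw [h1, h2, h3, h4, tt_val]
  by_cases hodd : t i % 2 = 1
  · simp [hodd]
  · rw [if_neg hodd, if_neg hodd]; omega

lemma oc_eq (ht : ∀ i, 3 ≤ t i) : oc (2 * k) (len t) 0 = ∑ i, oo (t i) := by
  unfold oc
  rw [Finset.card_filter, sum_pairs, Finset.sum_range]
  apply Finset.sum_congr rfl
  intro i _
  have h1 : 2 * i.val / 2 = i.val := by omega
  have h2 : (2 * i.val + 1) / 2 = i.val := by omega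
  have h3 : 2 * i.val % 2 = 0 := by omega
  have h4 : (2 * i.val + 1) % 2 = 1 := by omega
  have h5 := ht i
  have e1 : len t (2 * i.val) = if t i % 2 = 1 then t i else t i / 2 := by
    unfold len; rw [h1, h3, tt_val, if_pos rfl]
  have e2 : len t (2 * i.val + 1) = if t i % 2 = 1 then 0 else t i / 2 := by
    unfold len; rw [h2, h4, tt_val, if_neg (by norm_num : ¬ 1 = 0)]
  unfold A oo
  rw [e1, e2]
  by_cases hodd : t i % 2 = 1
  · simp only [if_pos hodd]
    have : 0 < t i / 2 := by omega
    simp [this]
  · simp only [if_neg hodd]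
    by_cases h6 : t i % 4 = 2
    · have h7 : t i / 2 % 2 = 1 := by omega
      have h8 : 0 < t i / 2 / 2 := by omega
      rw [if_pos h6, if_pos h7, if_pos h8]
    · have h7 : ¬ t i / 2 % 2 = 1 := by omega
      rw [if_neg h6, if_neg h7]
      simp

/-- The error term. -/
def eps : ℕ := max (∑ i, oo (t i)) (if ∀ i, t i = 4 then 0 else 1)

/-- Number of vertices. -/
def nn : ℕ := ∑ i, t i

lemma exists_lab (ht : ∀ i, 3 ≤ t i) : ∃ F : (Σ i, Fin (t i)) → ℤ, Function.Injective F ∧
    (∀ v, 0 ≤ F v ∧ F v < nn t) ∧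
    ∀ i (x : Fin (t i)), -(eps t : ℤ) ≤ F ⟨i, pr x⟩ + F ⟨i, sc x⟩ - ((nn t : ℤ) - 1) ∧
      F ⟨i, pr x⟩ + F ⟨i, sc x⟩ - ((nn t : ℤ) - 1) ≤ eps t := by
  have h3 := len_three t ht
  have htot := total (2 * k) (len t) h3
  rw [sum_len] at htot
  have hn : (nn t : ℤ) = 2 * (Tb (len t) (2 * k) : ℤ) + 2 * NH (2 * k) (len t) +
      oc (2 * k) (len t) 0 := by
    unfold nn; rw [htot]; push_cast; ring
  -- facts about the index map
  have hci : ∀ (i : Fin k) (x : Fin (t i)), ci (t i) i.val x.val < 2 * k := by
    intro i x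
    have := i.isLt
    unfold ci
    split_ifs <;> omega
  have hdiv : ∀ (i : Fin k) (x : Fin (t i)), ci (t i) i.val x.val / 2 = i.val := by
    intro i x
    unfold ci
    split_ifs <;> omega
  have hlen1 : ∀ (i : Fin k) (x : Fin (t i)), t i % 2 = 1 →
      len t (ci (t i) i.val x.val) = t i := by
    intro i x ho
    unfold len
    rw [hdiv, tt_val, if_pos ho, if_pos]
    unfold ci
    rw [if_pos ho]
    omega
  have hlen2 : ∀ (i : Fin k) (x : Fin (t i)), t i % 2 = 0 →
      len t (ci (t i) i.val x.val) = t i / 2 := by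
    intro i x ho
    unfold len
    rw [hdiv, tt_val, if_neg (by omega)]
  have hps : ∀ (i : Fin k) (x : Fin (t i)), ps (t i) x.val < len t (ci (t i) i.val x.val) := by
    intro i x
    have := x.isLt
    rcases Nat.mod_two_eq_zero_or_one (t i) with he | ho
    · rw [hlen2 i x he]; unfold ps; rw [if_neg (by omega)]; omega
    · rw [hlen1 i x ho]; unfold ps; rw [if_pos ho]; split_ifs <;> omega
  refine ⟨fun v => lab (2 * k) (len t) (ci (t v.1) v.1.val v.2.val) (ps (t v.1) v.2.val),
    ?_, ?_, ?_⟩
  · rintro ⟨i, x⟩ ⟨j, y⟩ h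
    simp only at h
    obtain ⟨h1, h2⟩ := lab_inj (2 * k) (len t) h3 (hci i x) (hps i x) (hci j y) (hps j y) h
    have hij : i = j := by
      apply Fin.ext
      rw [← hdiv i x, ← hdiv j y, h1]
    subst hij
    have hx := x.isLt
    have hy := y.isLt
    have : x.val = y.val := by
      unfold ci at h1
      unfold ps at h2
      split_ifs at h1 h2 <;> omega
    rw [Fin.ext this]
  · rintro ⟨i, x⟩
    have := lab_range (2 * k) (len t) h3 (hci i x) (hps i x)
    rw [hn]
    exact this
  · intro i x
    have hx := x.isLt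
    have h3i := ht i
    simp only
    have hc : ci (t i) i.val (pr x).val = ci (t i) i.val (sc x).val := by
      unfold ci
      rw [pr_val, sc_val]
      split_ifs <;> omega
    have hnext : ps (t i) (sc x).val = if ps (t i) (pr x).val + 1 =
        len t (ci (t i) i.val (pr x).val) then 0 else ps (t i) (pr x).val + 1 := by
      rcases Nat.mod_two_eq_zero_or_one (t i) with he | ho
      · rw [hlen2 i (pr x) he]
        unfold ps
        rw [pr_val, sc_val]
        have he' : ¬ t i % 2 = 1 := by omega
        rw [if_neg he', if_neg he']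
        split_ifs <;> omega
      · rw [hlen1 i (pr x) ho]
        unfold ps
        rw [pr_val, sc_val, if_pos ho, if_pos ho]
        split_ifs <;> omega
    rw [← hc, hnext, hn]
    have hp := hps i (pr x)
    rcases Nat.mod_two_eq_zero_or_one (len t (ci (t i) i.val (pr x).val)) with he | ho
    · have h4 := lab_even (2 * k) (len t) hp he
      by_cases hall : ∀ i, t i = 4
      · have h5 : len t (ci (t i) i.val (pr x).val) = 2 := by
          rw [hlen2 i (pr x) (by rw [hall i]), hall i]
        have h6 := h4.2.2 h5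
        rw [h6]
        constructor
        · simp
        · simp
      · have h7 : 1 ≤ eps t := by
          unfold eps; rw [if_neg hall]; exact le_max_right _ _
        have h8 : (1 : ℤ) ≤ eps t := by exact_mod_cast h7
        constructor
        · linarith [h4.1]
        · linarith [h4.2.1]
    · have h4 := lab_odd (2 * k) (len t) (hci i (pr x)) hp ho (h3 _ (hci i (pr x)) ho)
      have h7 : oc (2 * k) (len t) 0 ≤ eps t := by
        rw [oc_eq t ht]; unfold eps; exact le_max_left _ _
      have h8 : (oc (2 * k) (len t) 0 : ℤ) ≤ eps t := by exact_mod_cast h7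
      constructor
      · linarith [h4.1]
      · linarith [h4.2]

/-! ### Lower bound -/

/-- A set without two points at distance two in a cycle is small. -/
lemma indep_bound {m : ℕ} (X : Finset (Fin m)) (hX : ∀ x, ¬ (pr x ∈ X ∧ sc x ∈ X)) :
    2 * X.card + oo m ≤ m := by
  have hX' : ∀ y ∈ X, sc (sc y) ∉ X := by
    intro y hy h
    apply hX (sc y)
    rw [pr_sc]
    exact ⟨hy, h⟩
  have hinj : Function.Injective (fun y : Fin m => sc (sc y)) := by
    intro a b h
    exact sc_inj (sc_inj h)
  -- general statement inside an invariant set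
  have key : ∀ E : Finset (Fin m), (∀ y ∈ E, sc (sc y) ∈ E) → 2 * (X ∩ E).card ≤ E.card := by
    intro E hE
    have h1 : ((X ∩ E).image (fun y => sc (sc y))).card = (X ∩ E).card :=
      Finset.card_image_of_injective _ hinj
    have h2 : Disjoint (X ∩ E) ((X ∩ E).image (fun y => sc (sc y))) := by
      rw [Finset.disjoint_left]
      intro a ha hb
      rw [Finset.mem_image] at hb
      obtain ⟨y, hy, rfl⟩ := hb
      rw [Finset.mem_inter] at ha hy
      exact hX' y hy.1 ha.1
    have h3 : (X ∩ E) ∪ ((X ∩ E).image (fun y => sc (sc y))) ⊆ E := by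
      intro a ha
      rw [Finset.mem_union] at ha
      rcases ha with ha | ha
      · exact (Finset.mem_inter.1 ha).2
      · rw [Finset.mem_image] at ha
        obtain ⟨y, hy, rfl⟩ := ha
        exact hE y (Finset.mem_inter.1 hy).2
    have h4 := Finset.card_le_card h3
    rw [Finset.card_union_of_disjoint h2, h1] at h4
    omega
  have hall := key Finset.univ (fun y _ => Finset.mem_univ _)
  rw [Finset.inter_univ, Finset.card_univ, Fintype.card_fin] at hall
  unfold oo
  by_cases ho : m % 2 = 1
  · rw [if_pos ho]; omega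
  rw [if_neg ho]
  by_cases h42 : m % 4 = 2
  · rw [if_pos h42]
    set E0 : Finset (Fin m) := Finset.univ.filter (fun x => x.val % 2 = 0) with hE0
    set E1 : Finset (Fin m) := Finset.univ.filter (fun x => x.val % 2 = 1) with hE1
    have h0 := key E0 (by
      intro y hy
      simp only [hE0, Finset.mem_filter, Finset.mem_univ, true_and] at hy ⊢
      rw [sc_val, sc_val]
      split_ifs <;> omega)
    have h1 := key E1 (by
      intro y hy
      simp only [hE1, Finset.mem_filter, Finset.mem_univ, true_and] at hy ⊢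
      rw [sc_val, sc_val]
      split_ifs <;> omega)
    have hcard : E0.card = E1.card := by
      apply Finset.card_bij (fun x _ => sc x)
      · intro a ha
        simp only [hE0, hE1, Finset.mem_filter, Finset.mem_univ, true_and] at ha ⊢
        rw [sc_val]
        split_ifs <;> omega
      · intro a _ b _ h
        exact sc_inj h
      · intro b hb
        refine ⟨pr b, ?_, sc_pr b⟩
        simp only [hE0, hE1, Finset.mem_filter, Finset.mem_univ, true_and] at hb ⊢
        rw [pr_val]
        split_ifs <;> omega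
    have hun : E0 ∪ E1 = Finset.univ := by
      ext x
      simp only [hE0, hE1, Finset.mem_union, Finset.mem_filter, Finset.mem_univ, true_and]
      constructor
      · intro _; trivial
      · intro _; omega
    have hdis : Disjoint E0 E1 := by
      rw [Finset.disjoint_left]
      intro a ha hb
      simp only [hE0, hE1, Finset.mem_filter, Finset.mem_univ, true_and] at ha hb
      omega
    have hsum : E0.card + E1.card = m := by
      rw [← Finset.card_union_of_disjoint hdis, hun, Finset.card_univ, Fintype.card_fin]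
    have hXs : X.card = (X ∩ E0).card + (X ∩ E1).card := by
      rw [← Finset.card_union_of_disjoint, ← Finset.inter_union_distrib_left, hun,
        Finset.inter_univ]
      rw [Finset.disjoint_left]
      intro a ha hb
      exact (Finset.disjoint_left.1 hdis) (Finset.mem_inter.1 ha).2 (Finset.mem_inter.1 hb).2
    omega
  · rw [if_neg h42]; omega

lemma card_sigma_fin : Fintype.card (Σ i, Fin (t i)) = nn t := by
  rw [Fintype.card_sigma]
  unfold nn
  simp

lemma oo_mod (m : ℕ) : (m + oo m) % 2 = 0 := by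
  unfold oo; split_ifs <;> omega

lemma nn_mod : (nn t + ∑ i, oo (t i)) % 2 = 0 := by
  unfold nn
  rw [← Finset.sum_add_distrib]
  have : ∀ s : Finset (Fin k), (∑ i ∈ s, (t i + oo (t i))) % 2 = 0 := by
    intro s
    rw [Finset.sum_nat_mod]
    rw [Finset.sum_eq_zero (fun i _ => oo_mod (t i))]
    rfl
  exact this Finset.univ

/-- For every labelling some neighbourhood sum is at least `n + 1 + ε`. -/
lemma lower (ht : ∀ i, 3 ≤ t i) (hk : 0 < k) (F : (Σ i, Fin (t i)) → ℕ)
    (hF : Function.Injective F)
    (hr : ∀ v, 1 ≤ F v ∧ F v ≤ nn t) :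
    ∃ (i : Fin k) (x : Fin (t i)), nn t + 1 + eps t ≤ F ⟨i, pr x⟩ + F ⟨i, sc x⟩ := by
  have himg : Finset.univ.image F = Finset.Icc 1 (nn t) := by
    apply Finset.eq_of_subset_of_card_le
    · intro y hy
      rw [Finset.mem_image] at hy
      obtain ⟨v, -, rfl⟩ := hy
      rw [Finset.mem_Icc]
      exact hr v
    · rw [Finset.card_image_of_injective _ hF, Finset.card_univ, card_sigma_fin]
      simp
  by_contra hcon
  push Not at hcon
  by_cases ho : 1 ≤ ∑ i, oo (t i)
  · -- the independent set argument
    have heps : eps t = ∑ i, oo (t i) := by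
      unfold eps
      apply max_eq_left
      split_ifs <;> omega
    rw [heps] at hcon
    set o := ∑ i, oo (t i) with hodef
    set n := nn t with hndef
    have hpar : (n + o) % 2 = 0 := nn_mod t
    set X : Finset (Σ i, Fin (t i)) := Finset.univ.filter (fun v => (n + o) / 2 ≤ F v) with hX
    have hmem : ∀ v, v ∈ X ↔ (n + o) / 2 ≤ F v := by
      intro v; rw [hX, Finset.mem_filter]; simp
    have hind : ∀ i (x : Fin (t i)), ¬ ((⟨i, pr x⟩ : Σ i, Fin (t i)) ∈ X ∧
        (⟨i, sc x⟩ : Σ i, Fin (t i)) ∈ X) := by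
      rintro i x ⟨h1, h2⟩
      rw [hmem] at h1 h2
      have h3 := hcon i x
      have h4 : F ⟨i, pr x⟩ = F ⟨i, sc x⟩ := by omega
      have h5 := hF h4
      simp only [Sigma.mk.injEq, heq_eq_eq, true_and] at h5
      exact pr_ne_sc (ht i) x h5
    -- size of X
    have hXcard : X.card = n + 1 - (n + o) / 2 := by
      have h1 : X.image F = Finset.Icc ((n + o) / 2) n := by
        ext y
        rw [Finset.mem_image, Finset.mem_Icc]
        constructor
        · rintro ⟨v, hv, rfl⟩
          exact ⟨(hmem v).1 hv, (hr v).2⟩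
        · rintro ⟨h1, h2⟩
          have h3 : 3 ≤ n := by
            have := ht ⟨0, hk⟩
            have h4 : t ⟨0, hk⟩ ≤ n := by
              rw [hndef]; unfold nn
              exact Finset.single_le_sum (fun _ _ => Nat.zero_le _) (Finset.mem_univ _)
            omega
          have h4 : y ∈ Finset.univ.image F := by
            rw [himg, Finset.mem_Icc]; omega
          rw [Finset.mem_image] at h4
          obtain ⟨v, -, rfl⟩ := h4
          exact ⟨v, (hmem v).2 h1, rfl⟩
      rw [← Finset.card_image_of_injective X hF, h1, Nat.card_Icc]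
    -- fibers
    have hsum : X.card = ∑ i, ((Finset.univ : Finset (Fin (t i))).filter
        (fun x => (⟨i, x⟩ : Σ i, Fin (t i)) ∈ X)).card := by
      have : X = Finset.univ.sigma (fun i => (Finset.univ : Finset (Fin (t i))).filter
        (fun x => (⟨i, x⟩ : Σ i, Fin (t i)) ∈ X)) := by
        ext ⟨i, x⟩
        simp
      conv_lhs => rw [this]
      rw [Finset.card_sigma]
    have hb : ∑ i, (2 * ((Finset.univ : Finset (Fin (t i))).filter
        (fun x => (⟨i, x⟩ : Σ i, Fin (t i)) ∈ X)).card + oo (t i)) ≤ ∑ i, t i := by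
      apply Finset.sum_le_sum
      intro i _
      apply indep_bound
      rintro x ⟨h1, h2⟩
      rw [Finset.mem_filter] at h1 h2
      exact hind i x ⟨h1.2, h2.2⟩
    rw [Finset.sum_add_distrib, ← Finset.mul_sum, ← hsum] at hb
    have h5 : ∑ i, t i = n := rfl
    rw [h5, ← hodef] at hb
    omega
  · -- the averaging argument
    have ho0 : ∑ i, oo (t i) = 0 := by omega
    have hoi : ∀ i, oo (t i) = 0 := by
      intro i
      exact (Finset.sum_eq_zero_iff.1 ho0) i (Finset.mem_univ i)
    -- total
    have hgauss : 2 * ∑ v, F v = nn t * (nn t + 1) := by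
      have h1 : ∑ v, F v = ∑ y ∈ Finset.Icc 1 (nn t), y := by
        rw [← himg, Finset.sum_image (fun a _ b _ h => hF h)]
      have h2 : ∑ y ∈ Finset.Icc 1 (nn t), y = ∑ y ∈ range (nn t + 1), y := by
        rw [Finset.range_eq_Ico]
        rw [Finset.sum_eq_sum_Ico_succ_bot (by omega)]
        rw [zero_add]
        rfl
      rw [h1, h2, mul_comm 2, Finset.sum_range_id_mul_two]
      simp [mul_comm]
    have hs1 : ∑ v : (Σ i, Fin (t i)), F ⟨v.1, pr v.2⟩ = ∑ v, F v := by
      rw [Fintype.sum_sigma, Fintype.sum_sigma]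
      apply Finset.sum_congr rfl
      intro i _
      exact Fintype.sum_bijective pr ⟨fun a b h => by
        rw [← sc_pr a, h, sc_pr], fun b => ⟨sc b, pr_sc b⟩⟩ _ _ (fun x => rfl)
    have hs2 : ∑ v : (Σ i, Fin (t i)), F ⟨v.1, sc v.2⟩ = ∑ v, F v := by
      rw [Fintype.sum_sigma, Fintype.sum_sigma]
      apply Finset.sum_congr rfl
      intro i _
      exact Fintype.sum_bijective sc ⟨fun a b h => sc_inj h, fun b => ⟨pr b, sc_pr b⟩⟩ _ _
        (fun x => rfl)
    have htotal : ∑ v : (Σ i, Fin (t i)), (F ⟨v.1, pr v.2⟩ + F ⟨v.1, sc v.2⟩) =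
        ∑ v : (Σ i, Fin (t i)), (nn t + 1) := by
      rw [Finset.sum_add_distrib, hs1, hs2, Finset.sum_const, Finset.card_univ, card_sigma_fin,
        smul_eq_mul, ← hgauss]
      ring
    by_cases hall : ∀ i, t i = 4
    · have heps : eps t = 0 := by
        unfold eps; rw [ho0, if_pos hall]; rfl
      rw [heps] at hcon
      have : ∑ v : (Σ i, Fin (t i)), (F ⟨v.1, pr v.2⟩ + F ⟨v.1, sc v.2⟩) <
          ∑ v : (Σ i, Fin (t i)), (nn t + 1) := by
        apply Finset.sum_lt_sum_of_nonempty
        · have : 0 < t ⟨0, hk⟩ := by rw [hall]; norm_num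
          exact ⟨⟨⟨0, hk⟩, ⟨0, this⟩⟩, Finset.mem_univ _⟩
        · rintro ⟨i, x⟩ _
          have := hcon i x
          show F ⟨i, pr x⟩ + F ⟨i, sc x⟩ < nn t + 1
          omega
      omega
    · have heps : eps t = 1 := by
        unfold eps; rw [ho0, if_neg hall]; rfl
      rw [heps] at hcon
      have hle : ∀ v ∈ (Finset.univ : Finset (Σ i, Fin (t i))),
          F ⟨v.1, pr v.2⟩ + F ⟨v.1, sc v.2⟩ ≤ nn t + 1 := by
        rintro ⟨i, x⟩ _
        have := hcon i x
        show F ⟨i, pr x⟩ + F ⟨i, sc x⟩ ≤ nn t + 1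
        omega
      have heq := (Finset.sum_eq_sum_iff_of_le hle).1 htotal
      push Not at hall
      obtain ⟨i, hi⟩ := hall
      have h3 := ht i
      have h5 : 5 ≤ t i := by
        have := hoi i
        unfold oo at this
        split_ifs at this <;> omega
      have x : Fin (t i) := ⟨0, by omega⟩
      have e1 := heq ⟨i, x⟩ (Finset.mem_univ _)
      have e2 := heq ⟨i, sc (sc x)⟩ (Finset.mem_univ _)
      simp only at e1 e2
      rw [pr_sc] at e2
      have e3 : F ⟨i, pr x⟩ = F ⟨i, sc (sc (sc x))⟩ := by omega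
      have e4 := hF e3
      simp only [Sigma.mk.injEq, heq_eq_eq, true_and] at e4
      have e5 := congrArg Fin.val e4
      rw [pr_val, sc_val, sc_val, sc_val] at e5
      have hx := x.isLt
      split_ifs at e5 <;> omega

end Pool.Agent.H82.NbCycles
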